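import Mathlib

set_option autoImplicit false

namespace Pool.Agent.TH231

/-- distance of `k θ` to the nearest integer -/
noncomputable def dd (θ : ℝ) (k : ℕ) : ℝ := |(k : ℝ) * θ - round ((k : ℝ) * θ)|

lemma dd_nonneg (θ : ℝ) (k : ℕ) : 0 ≤ dd θ k := abs_nonneg _

lemma dd_le_half (θ : ℝ) (k : ℕ) : dd θ k ≤ 1 / 2 := abs_sub_round _

lemma dd_le (θ : ℝ) (k : ℕ) (z : ℤ) : dd θ k ≤ |(k : ℝ) * θ - z| := round_le _ _

lemma dd_pos {θ : ℝ} (hθ : Irrational θ) {k : ℕ} (hk : 1 ≤ k) : 0 < dd θ k := by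
  unfold dd
  rw [abs_pos, sub_ne_zero]
  intro h
  have h1 : Irrational ((k : ℝ) * θ) := hθ.natCast_mul (by omega)
  exact h1.ne_int _ h

lemma norm_pow_sub_one {θ : ℝ} (k : ℕ) :
    ‖(Complex.exp (2 * (Real.pi : ℂ) * Complex.I * (θ : ℂ))) ^ k - 1‖
      = 2 * Real.sin (Real.pi * dd θ k) := by
  set y : ℝ := (k : ℝ) * θ - round ((k : ℝ) * θ) with hy
  have h1 : (Complex.exp (2 * (Real.pi : ℂ) * Complex.I * (θ : ℂ))) ^ k
      = Complex.exp (Complex.I * ((2 * Real.pi * y : ℝ) : ℂ)) := by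
    rw [← Complex.exp_nat_mul, Complex.exp_eq_exp_iff_exists_int]
    refine ⟨round ((k : ℝ) * θ), ?_⟩
    rw [hy]
    push_cast
    ring
  rw [h1, Complex.norm_exp_I_mul_ofReal_sub_one]
  have h2 : 2 * Real.pi * y / 2 = Real.pi * y := by ring
  rw [h2, Real.norm_eq_abs, abs_mul, abs_two]
  congr 1
  have h3 : dd θ k = |y| := rfl
  rw [h3]
  rcases abs_cases y with ⟨h4, h5⟩ | ⟨h4, h5⟩
  · rw [h4, abs_of_nonneg]
    apply Real.sin_nonneg_of_nonneg_of_le_pi (by positivity)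
    have := dd_le_half θ k
    rw [h3, h4] at this
    nlinarith [Real.pi_pos]
  · rw [h4, mul_neg, Real.sin_neg, abs_of_nonpos]
    have h6 : 0 ≤ Real.sin (Real.pi * (-y)) := by
      apply Real.sin_nonneg_of_nonneg_of_le_pi
      · have : 0 ≤ -y := by linarith
        positivity
      · have := dd_le_half θ k
        rw [h3, h4] at this
        nlinarith [Real.pi_pos]
    rw [mul_neg, Real.sin_neg] at h6
    linarith

lemma norm_pow_sub_one_ge {θ : ℝ} (k : ℕ) :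
    4 * dd θ k ≤ ‖(Complex.exp (2 * (Real.pi : ℂ) * Complex.I * (θ : ℂ))) ^ k - 1‖ := by
  rw [norm_pow_sub_one]
  have h1 := Real.mul_le_sin (x := Real.pi * dd θ k) (by have := dd_nonneg θ k; positivity)
    (by have := dd_le_half θ k; nlinarith [Real.pi_pos])
  have h2 : 2 / Real.pi * (Real.pi * dd θ k) = 2 * dd θ k := by
    field_simp
  rw [h2] at h1
  linarith

lemma norm_pow_sub_one_le {θ : ℝ} (k : ℕ) :
    ‖(Complex.exp (2 * (Real.pi : ℂ) * Complex.I * (θ : ℂ))) ^ k - 1‖ ≤ 2 * Real.pi * dd θ k := by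
  rw [norm_pow_sub_one]
  have h1 := Real.sin_le (x := Real.pi * dd θ k) (by have := dd_nonneg θ k; positivity)
  linarith

/-- consecutive best approximation denominators -/
structure BA (θ : ℝ) (Q Q' : ℕ) : Prop where
  pos : 1 ≤ Q
  lt : Q < Q'
  best : ∀ k, 1 ≤ k → k < Q' → dd θ Q ≤ dd θ k
  improve : dd θ Q' < dd θ Q

lemma BA.dirichlet {θ : ℝ} {Q Q' : ℕ} (h : BA θ Q Q') : dd θ Q ≤ 1 / Q' := by
  have h0 := h.pos
  have h1 := h.lt
  obtain ⟨k, hk0, hk1, hk⟩ := Real.exists_nat_abs_mul_sub_round_le θ (n := Q' - 1) (by omega)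
  have h2 := h.best k hk0 (by omega)
  refine h2.trans (hk.trans (le_of_eq ?_))
  congr 1
  rw [Nat.cast_sub (by omega)]
  push_cast
  ring

lemma exists_next {θ : ℝ} (hθ : Irrational θ) {Q : ℕ} (hQ : 1 ≤ Q)
    (hb : ∀ k, 1 ≤ k → k < Q → dd θ Q ≤ dd θ k) : ∃ Q', BA θ Q Q' := by
  have h1 : ∃ k, 1 ≤ k ∧ dd θ k < dd θ Q := by
    obtain ⟨n, hn⟩ := exists_nat_gt (1 / dd θ Q)
    have hpos := dd_pos hθ hQ
    obtain ⟨k, hk0, _, hk⟩ := Real.exists_nat_abs_mul_sub_round_le θ (n := n + 1) (by omega)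
    refine ⟨k, hk0, lt_of_le_of_lt hk ?_⟩
    rw [div_lt_iff₀ hpos] at hn
    rw [div_lt_iff₀ (by positivity)]
    push_cast
    nlinarith
  classical
  let Q' := Nat.find h1
  have hs : 1 ≤ Q' ∧ dd θ Q' < dd θ Q := Nat.find_spec h1
  have hmin : ∀ k, 1 ≤ k → k < Q' → dd θ Q ≤ dd θ k := by
    intro k hk1 hk2
    by_contra h
    exact Nat.find_min h1 hk2 ⟨hk1, not_le.mp h⟩
  refine ⟨Q', hQ, ?_, hmin, hs.2⟩
  by_contra h
  rcases Nat.lt_or_ge Q' Q with h2 | h2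
  · have := hb Q' hs.1 h2
    linarith [hs.2]
  · have h3 : Q' = Q := by omega
    rw [h3] at hs
    exact lt_irrefl _ hs.2

lemma BA.next {θ : ℝ} (hθ : Irrational θ) {Q Q' : ℕ} (h : BA θ Q Q') : ∃ Q'', BA θ Q' Q'' := by
  refine exists_next hθ (by have := h.pos; have := h.lt; omega) ?_
  intro k hk1 hk2
  exact h.improve.le.trans (h.best k hk1 hk2)

/-- signed error -/
noncomputable def sg (θ : ℝ) (k : ℕ) : ℝ := (k : ℝ) * θ - round ((k : ℝ) * θ)

lemma dd_sub_le (θ : ℝ) {a b : ℕ} (h : a ≤ b) : dd θ (b - a) ≤ |sg θ b - sg θ a| := by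
  refine (dd_le θ (b - a) (round ((b : ℝ) * θ) - round ((a : ℝ) * θ))).trans (le_of_eq ?_)
  congr 1
  unfold sg
  rw [Nat.cast_sub h]
  push_cast
  ring

lemma BA.lower {θ : ℝ} {Q Q' : ℕ} (h : BA θ Q Q') : 1 / (2 * Q') ≤ dd θ Q := by
  by_contra hlt
  push Not at hlt
  have h0 := h.pos
  have h1 := h.lt
  have hQ : (0 : ℝ) < Q := by exact_mod_cast h0
  have hQ' : (0 : ℝ) < Q' := by exact_mod_cast (by omega : 0 < Q')
  have hQQ : (Q : ℝ) < Q' := by exact_mod_cast h1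
  set a : ℤ := round ((Q : ℝ) * θ) with ha
  set b : ℤ := round ((Q' : ℝ) * θ) with hb
  have e1 : |(Q : ℝ) * θ - a| = dd θ Q := rfl
  have e2 : |(Q' : ℝ) * θ - b| = dd θ Q' := rfl
  -- the integer Q' a - Q b
  have h3 : |((Q' : ℤ) * a - (Q : ℤ) * b : ℤ)| < (1 : ℤ) := by
    have h4 : |(((Q' : ℤ) * a - (Q : ℤ) * b : ℤ) : ℝ)| < 1 := by
      push_cast
      have h5 : (Q' : ℝ) * a - Q * b = Q * ((Q' : ℝ) * θ - b) - Q' * ((Q : ℝ) * θ - a) := by ring
      rw [h5]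
      calc |(Q : ℝ) * ((Q' : ℝ) * θ - b) - Q' * ((Q : ℝ) * θ - a)|
          ≤ |(Q : ℝ) * ((Q' : ℝ) * θ - b)| + |Q' * ((Q : ℝ) * θ - a)| := abs_sub _ _
        _ = Q * dd θ Q' + Q' * dd θ Q := by
            rw [abs_mul, abs_mul, e1, e2, abs_of_pos hQ, abs_of_pos hQ']
        _ < 1 := by
            have h6 := h.improve
            have h7 := dd_nonneg θ Q'
            have h8 : Q' * dd θ Q < 1 / 2 := by
              have := mul_lt_mul_of_pos_left hlt hQ'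
              have e : (Q' : ℝ) * (1 / (2 * Q')) = 1 / 2 := by field_simp
              rwa [e] at this
            have h9 : Q * dd θ Q' ≤ Q' * dd θ Q := by
              calc Q * dd θ Q' ≤ Q' * dd θ Q' := by gcongr
                _ ≤ Q' * dd θ Q := by gcongr
            linarith
    have := h4
    rw [← Int.cast_abs] at this
    exact_mod_cast this
  have h4 : (Q' : ℤ) * a - (Q : ℤ) * b = 0 := by
    have := abs_lt.mp h3
    omega
  -- then Q' (Qθ - a) = Q (Q'θ - b)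
  have h5 : (Q' : ℝ) * ((Q : ℝ) * θ - a) = Q * ((Q' : ℝ) * θ - b) := by
    have : (Q' : ℝ) * a - Q * b = 0 := by exact_mod_cast h4
    linear_combination -this
  have h6 : (Q' : ℝ) * dd θ Q = Q * dd θ Q' := by
    rw [← e1, ← e2, ← abs_of_pos hQ', ← abs_of_pos hQ, ← abs_mul, ← abs_mul, abs_of_pos hQ',
      abs_of_pos hQ, h5]
  have h7 := h.improve
  have h8 := dd_nonneg θ Q'
  nlinarith

lemma BA.mult {θ : ℝ} {Q Q' : ℕ} (h : BA θ Q Q') {k : ℕ} (hk : 2 * k ≤ Q') :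
    k * dd θ Q ≤ dd θ (Q * k) := by
  have hd := h.dirichlet
  have hQ' : (0 : ℝ) < Q' := by
    have := h.lt
    exact_mod_cast (by omega : 0 < Q')
  have h1 : (k : ℝ) * dd θ Q ≤ 1 / 2 := by
    have h2 : (2 * k : ℝ) ≤ Q' := by exact_mod_cast hk
    have h3 : (2 * k : ℝ) * dd θ Q ≤ Q' * (1 / Q') := by
      have := dd_nonneg θ Q
      gcongr
    have h4 : (Q' : ℝ) * (1 / Q') = 1 := by field_simp
    linarith
  -- kQθ = k a + k sg, |k sg| ≤ 1/2
  set a : ℤ := round ((Q : ℝ) * θ) with ha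
  have e1 : |(Q : ℝ) * θ - a| = dd θ Q := rfl
  unfold dd
  set c : ℤ := round (((Q * k : ℕ) : ℝ) * θ) with hc
  have h2 : ((Q * k : ℕ) : ℝ) * θ - c = k * ((Q : ℝ) * θ - a) - ((c - k * a : ℤ) : ℝ) := by
    push_cast; ring
  rw [h2]
  by_cases h3 : c - k * a = 0
  · rw [h3, Int.cast_zero, sub_zero, abs_mul, abs_of_nonneg (Nat.cast_nonneg k : (0 : ℝ) ≤ k)]
  · have h4 : (1 : ℝ) ≤ |((c - k * a : ℤ) : ℝ)| := by
      rw [← Int.cast_abs]
      exact_mod_cast Int.one_le_abs h3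
    have h5 : |(k : ℝ) * ((Q : ℝ) * θ - a)| = k * dd θ Q := by
      rw [abs_mul, abs_of_nonneg (Nat.cast_nonneg k), e1]
    have h6 : |((c - k * a : ℤ) : ℝ)| - |(k : ℝ) * ((Q : ℝ) * θ - a)|
        ≤ |(k : ℝ) * ((Q : ℝ) * θ - a) - ((c - k * a : ℤ) : ℝ)| := by
      rw [abs_sub_comm ((k : ℝ) * ((Q : ℝ) * θ - a))]
      exact abs_sub_abs_le_abs_sub _ _
    have h7 : |(k : ℝ) * ((Q : ℝ) * θ - a)| ≤ 1 / 2 := by rw [h5]; exact h1
    have h8 : (k : ℝ) * |(Q : ℝ) * θ - a| = k * dd θ Q := by rw [e1]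
    change (k : ℝ) * |(Q : ℝ) * θ - a| ≤ _
    rw [h8]
    linarith

lemma BA.nonres {θ : ℝ} {Q Q' : ℕ} (hθ : Irrational θ) (h : BA θ Q Q') {k : ℕ}
    (hk : 2 * k ≤ Q') (hdvd : ¬ Q ∣ k) : 1 / (2 * Q) ≤ dd θ k := by
  have h0 := h.pos
  have hQ : (0 : ℝ) < Q := by exact_mod_cast h0
  have hQ' : (0 : ℝ) < Q' := by
    have := h.lt
    exact_mod_cast (by omega : 0 < Q')
  have hd := h.dirichlet
  set a : ℤ := round ((Q : ℝ) * θ) with ha
  have e1 : |(Q : ℝ) * θ - a| = dd θ Q := rfl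
  -- coprimality: if Q | k a then Q | k
  have hcop : IsCoprime (Q : ℤ) a := by
    rw [Int.isCoprime_iff_gcd_eq_one]
    by_contra hg
    set g : ℕ := Int.gcd (Q : ℤ) a with hgdef
    have hg0 : g ≠ 0 := by
      intro h'
      rw [hgdef, Int.gcd_eq_zero_iff] at h'
      have := h'.1
      omega
    have hg2 : 2 ≤ g := by omega
    have hgQ : (g : ℤ) ∣ (Q : ℤ) := Int.gcd_dvd_left ..
    have hga : (g : ℤ) ∣ a := Int.gcd_dvd_right ..
    obtain ⟨Q1, hQ1⟩ := Int.natCast_dvd_natCast.mp hgQ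
    obtain ⟨a1, ha1⟩ := hga
    have hQ1pos : 1 ≤ Q1 := by
      rcases Nat.eq_zero_or_pos Q1 with h' | h'
      · rw [h'] at hQ1; omega
      · exact h'
    have hQ1lt : Q1 < Q' := by
      have : Q1 ≤ Q := by rw [hQ1]; nlinarith
      have := h.lt
      omega
    have h1 := h.best Q1 hQ1pos hQ1lt
    have h2 := dd_le θ Q1 a1
    have h3 : (g : ℝ) * |(Q1 : ℝ) * θ - a1| = dd θ Q := by
      have e3 : (Q : ℝ) * θ - a = (g : ℝ) * ((Q1 : ℝ) * θ - a1) := by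
        rw [ha1, hQ1]
        push_cast
        ring
      rw [← e1, e3, abs_mul, abs_of_nonneg (Nat.cast_nonneg g : (0 : ℝ) ≤ g)]
    have h4 : 0 < dd θ Q := dd_pos hθ h0
    have h5 : (2 : ℝ) ≤ g := by exact_mod_cast hg2
    nlinarith [abs_nonneg ((Q1 : ℝ) * θ - a1)]
  unfold dd
  set c : ℤ := round ((k : ℝ) * θ) with hc
  have h1 : (Q : ℤ) * c - k * a ≠ 0 := by
    intro h'
    have h2 : (Q : ℤ) ∣ (k : ℤ) * a := ⟨c, by linarith⟩
    have h3 : (Q : ℤ) ∣ (k : ℤ) := hcop.dvd_of_dvd_mul_right h2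
    exact hdvd (Int.natCast_dvd_natCast.mp h3)
  have h2 : (1 : ℝ) ≤ |(((Q : ℤ) * c - k * a : ℤ) : ℝ)| := by
    rw [← Int.cast_abs]
    exact_mod_cast Int.one_le_abs h1
  have h3 : (((Q : ℤ) * c - k * a : ℤ) : ℝ)
      = k * ((Q : ℝ) * θ - a) - Q * ((k : ℝ) * θ - c) := by
    push_cast; ring
  rw [h3] at h2
  have h4 : |(k : ℝ) * ((Q : ℝ) * θ - a) - Q * ((k : ℝ) * θ - c)|
      ≤ k * dd θ Q + Q * |(k : ℝ) * θ - c| := by
    refine (abs_sub _ _).trans (le_of_eq ?_)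
    rw [abs_mul, abs_mul, e1, abs_of_nonneg (Nat.cast_nonneg k), abs_of_pos hQ]
  have h5 : (k : ℝ) * dd θ Q ≤ 1 / 2 := by
    have h2 : (2 * k : ℝ) ≤ Q' := by exact_mod_cast hk
    have h3 : (2 * k : ℝ) * dd θ Q ≤ Q' * (1 / Q') := by
      have := dd_nonneg θ Q
      gcongr
    have h4 : (Q' : ℝ) * (1 / Q') = 1 := by field_simp
    linarith
  rw [div_le_iff₀ (by positivity)]
  linarith

lemma BA.growth {θ : ℝ} (hθ : Irrational θ) {Q1 Q2 Q3 : ℕ} (h12 : BA θ Q1 Q2)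
    (h23 : BA θ Q2 Q3) : 2 * Q1 ≤ Q3 := by
  -- same sign implies large gap
  have key : ∀ a b : ℕ, a < b → dd θ b < dd θ a → 0 < sg θ a * sg θ b → dd θ (b - a) < dd θ a := by
    intro a b hab hdd hs
    refine lt_of_le_of_lt (dd_sub_le θ hab.le) ?_
    have ea : dd θ a = |sg θ a| := rfl
    have eb : dd θ b = |sg θ b| := rfl
    rw [ea, eb] at hdd
    rw [ea]
    rcases pos_and_pos_or_neg_and_neg_of_mul_pos hs with ⟨h1, h2⟩ | ⟨h1, h2⟩
    · rw [abs_of_pos h1, abs_of_pos h2] at hdd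
      rw [abs_of_pos h1, abs_lt]
      constructor <;> linarith
    · rw [abs_of_neg h1, abs_of_neg h2] at hdd
      rw [abs_of_neg h1, abs_lt]
      constructor <;> linarith
  have p1 := h12.pos
  have p2 := h23.pos
  have l12 := h12.lt
  have l23 := h23.lt
  have s1 : sg θ Q1 ≠ 0 := by
    have := dd_pos hθ p1
    have e : dd θ Q1 = |sg θ Q1| := rfl
    rw [e] at this
    exact abs_pos.mp this
  have s2 : sg θ Q2 ≠ 0 := by
    have := dd_pos hθ p2
    have e : dd θ Q2 = |sg θ Q2| := rfl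
    rw [e] at this
    exact abs_pos.mp this
  have s3 : sg θ Q3 ≠ 0 := by
    have := dd_pos hθ (k := Q3) (by omega)
    have e : dd θ Q3 = |sg θ Q3| := rfl
    rw [e] at this
    exact abs_pos.mp this
  have n12 : ¬ 0 < sg θ Q1 * sg θ Q2 := by
    intro h
    have h1 := key Q1 Q2 l12 h12.improve h
    have h2 := h12.best (Q2 - Q1) (by omega) (by omega)
    linarith
  have n23 : ¬ 0 < sg θ Q2 * sg θ Q3 := by
    intro h
    have h1 := key Q2 Q3 l23 h23.improve h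
    have h2 := h23.best (Q3 - Q2) (by omega) (by omega)
    linarith
  have h13 : 0 < sg θ Q1 * sg θ Q3 := by
    rcases lt_or_gt_of_ne s1 with a1 | a1 <;> rcases lt_or_gt_of_ne s2 with a2 | a2 <;>
      rcases lt_or_gt_of_ne s3 with a3 | a3
    · exact absurd (mul_pos_of_neg_of_neg a1 a2) n12
    · exact absurd (mul_pos_of_neg_of_neg a1 a2) n12
    · exact mul_pos_of_neg_of_neg a1 a3
    · exact absurd (mul_pos a2 a3) n23
    · exact absurd (mul_pos_of_neg_of_neg a2 a3) n23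
    · exact mul_pos a1 a3
    · exact absurd (mul_pos a1 a2) n12
    · exact absurd (mul_pos a1 a2) n12
  have h1 := key Q1 Q3 (by omega) (h23.improve.trans h12.improve) h13
  by_contra hlt
  have h2 := h12.best (Q3 - Q1) (by omega) (by omega)
  linarith

/-- the sequence of best approximation denominators -/
theorem exists_seq {θ : ℝ} (hθ : Irrational θ) :
    ∃ Q : ℕ → ℕ, ∀ n, BA θ (Q n) (Q (n + 1)) := by
  have h0 : ∃ Q', BA θ 1 Q' := exists_next hθ le_rfl (fun k h1 h2 => by omega)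
  obtain ⟨Q1, hQ1⟩ := h0
  let T := {p : ℕ × ℕ // BA θ p.1 p.2}
  have hnext : ∀ p : T, ∃ p' : T, p'.1.1 = p.1.2 := by
    rintro ⟨p, hp⟩
    obtain ⟨Q'', h⟩ := hp.next hθ
    exact ⟨⟨(p.2, Q''), h⟩, rfl⟩
  choose nx hnx using hnext
  let F : ℕ → T := fun n => Nat.rec (⟨(1, Q1), hQ1⟩ : T) (fun _ p => nx p) n
  refine ⟨fun n => (F n).1.1, fun n => ?_⟩
  have h1 : (F (n + 1)).1.1 = (F n).1.2 := hnx (F n)
  simp only [h1]
  exact (F n).2

end Pool.Agent.TH231
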