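import Mathlib

set_option autoImplicit false

namespace Pool.Agent.TH231

open Metric Filter Topology Complex Asymptotics Set
open scoped NNReal

lemma mem_ball0 {z : ℂ} {r : ℝ} : z ∈ ball (0 : ℂ) r ↔ ‖z‖ < r := by
  rw [mem_ball, dist_zero_right]

lemma mem_cball0 {z : ℂ} {r : ℝ} : z ∈ closedBall (0 : ℂ) r ↔ ‖z‖ ≤ r := by
  rw [mem_closedBall, dist_zero_right]

lemma deriv_bound {e : ℂ → ℂ} {R t b : ℝ} (ht : 0 < t) (he : DifferentiableOn ℂ e (ball 0 R))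
    (hb : ∀ z ∈ ball (0 : ℂ) R, ‖e z‖ ≤ b) {z : ℂ} (hz : z ∈ ball (0 : ℂ) (R - t)) :
    ‖deriv e z‖ ≤ b / t := by
  rw [mem_ball0] at hz
  have hsub : closedBall z t ⊆ ball (0 : ℂ) R := by
    intro w hw
    rw [mem_closedBall, dist_eq_norm] at hw
    rw [mem_ball0]
    calc ‖w‖ = ‖(w - z) + z‖ := by ring_nf
      _ ≤ ‖w - z‖ + ‖z‖ := norm_add_le _ _
      _ < R := by linarith
  refine Complex.norm_deriv_le_of_forall_mem_sphere_norm_le ht ?_ ?_
  · exact (he.mono (closure_ball_subset_closedBall.trans hsub)).diffContOnCl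
  · intro w hw
    exact hb w (hsub (sphere_subset_closedBall hw))

lemma lip_bound {e : ℂ → ℂ} {R t b : ℝ} (ht : 0 < t) (he : DifferentiableOn ℂ e (ball 0 R))
    (hb : ∀ z ∈ ball (0 : ℂ) R, ‖e z‖ ≤ b) {x y : ℂ} (hx : x ∈ ball (0 : ℂ) (R - t))
    (hy : y ∈ ball (0 : ℂ) (R - t)) :
    ‖e x - e y‖ ≤ b / t * ‖x - y‖ := by
  refine (convex_ball (0 : ℂ) (R - t)).norm_image_sub_le_of_norm_deriv_le (𝕜 := ℂ)
    (fun z hz => ?_) (fun z hz => deriv_bound ht he hb hz) hy hx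
  refine he.differentiableAt (isOpen_ball.mem_nhds ?_)
  exact ball_subset_ball (by linarith) hz

lemma near_id_surj {e : ℂ → ℂ} {R b : ℝ} (hb0 : 0 ≤ b)
    (hlip : ∀ x ∈ closedBall (0 : ℂ) R, ∀ y ∈ closedBall (0 : ℂ) R, ‖e x - e y‖ ≤ 1 / 2 * ‖x - y‖)
    (hb : ∀ x ∈ closedBall (0 : ℂ) R, ‖e x‖ ≤ b) {w : ℂ} (hw : ‖w‖ ≤ R - b) :
    ∃ z ∈ closedBall (0 : ℂ) R, z + e z = w := by
  set T : ℂ → ℂ := fun z => w - e z with hT
  have hmaps : MapsTo T (closedBall (0 : ℂ) R) (closedBall (0 : ℂ) R) := by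
    intro z hz
    rw [mem_cball0]
    calc ‖T z‖ ≤ ‖w‖ + ‖e z‖ := norm_sub_le _ _
      _ ≤ R := by linarith [hb z hz]
  have hcontr : ContractingWith (1 / 2 : ℝ≥0) (hmaps.restrict T _ _) := by
    constructor
    · rw [← NNReal.coe_lt_coe]; norm_num
    · apply LipschitzWith.of_dist_le_mul
      rintro ⟨x, hx⟩ ⟨y, hy⟩
      have h1 : dist (hmaps.restrict T _ _ ⟨x, hx⟩) (hmaps.restrict T _ _ ⟨y, hy⟩)
          = ‖e x - e y‖ := by
        show dist (T x) (T y) = _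
        rw [dist_eq_norm, hT]
        simp only
        rw [← norm_neg]
        congr 1
        ring
      rw [h1]
      show _ ≤ _ * dist x y
      rw [dist_eq_norm]
      have := hlip x hx y hy
      simpa using this
  have h0 : (0 : ℂ) ∈ closedBall (0 : ℂ) R := by
    rw [mem_cball0, norm_zero]
    linarith [norm_nonneg w]
  obtain ⟨z, hz, hfix, -, -⟩ := hcontr.exists_fixedPoint' (isClosed_closedBall.isComplete) hmaps h0
    (by exact edist_ne_top _ _)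
  refine ⟨z, hz, ?_⟩
  have : w - e z = z := hfix
  rw [← this]
  simp only [this]
  rw [sub_eq_iff_eq_add] at this
  rw [← this]

/-- near-identity maps have holomorphic inverses -/
lemma exists_inverse {e : ℂ → ℂ} {R b : ℝ} (hb0 : 0 ≤ b)
    (hd : ∀ x ∈ closedBall (0 : ℂ) R, DifferentiableAt ℂ e x)
    (hlip : ∀ x ∈ closedBall (0 : ℂ) R, ∀ y ∈ closedBall (0 : ℂ) R, ‖e x - e y‖ ≤ 1 / 2 * ‖x - y‖)
    (hder : ∀ x ∈ closedBall (0 : ℂ) R, ‖deriv e x‖ ≤ 1 / 2)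
    (hb : ∀ x ∈ closedBall (0 : ℂ) R, ‖e x‖ ≤ b) :
    ∃ k : ℂ → ℂ, (∀ w, ‖w‖ ≤ R - b → ‖k w‖ ≤ R ∧ k w + e (k w) = w) ∧
      (∀ w w', ‖w‖ ≤ R - b → ‖w'‖ ≤ R - b → ‖k w - k w'‖ ≤ 2 * ‖w - w'‖) ∧
      DifferentiableOn ℂ k (ball 0 (R - b)) := by
  have hex : ∀ w : ℂ, ∃ z : ℂ, ‖w‖ ≤ R - b → ‖z‖ ≤ R ∧ z + e z = w := by
    intro w
    by_cases h : ‖w‖ ≤ R - b
    · obtain ⟨z, hz, hz2⟩ := near_id_surj hb0 hlip hb h
      exact ⟨z, fun _ => ⟨mem_cball0.mp hz, hz2⟩⟩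
    · exact ⟨0, fun h' => absurd h' h⟩
  choose k hk using hex
  have hL : ∀ w w', ‖w‖ ≤ R - b → ‖w'‖ ≤ R - b → ‖k w - k w'‖ ≤ 2 * ‖w - w'‖ := by
    intro w w' hw hw'
    have h1 := hk w hw
    have h2 := hk w' hw'
    have h3 := hlip (k w) (mem_cball0.mpr h1.1) (k w') (mem_cball0.mpr h2.1)
    have h4 : k w - k w' = (w - w') - (e (k w) - e (k w')) := by
      linear_combination (h1.2 - h2.2)
    have h5 : ‖k w - k w'‖ ≤ ‖w - w'‖ + ‖e (k w) - e (k w')‖ := by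
      rw [h4]; exact norm_sub_le _ _
    linarith
  refine ⟨k, hk, hL, ?_⟩
  intro w hw
  apply DifferentiableAt.differentiableWithinAt
  have hw' : ‖w‖ < R - b := mem_ball0.mp hw
  have h1 := hk w hw'.le
  have hcont : ContinuousAt k w := by
    rw [Metric.continuousAt_iff]
    intro ε hε
    refine ⟨min (ε / 2) (R - b - ‖w‖), lt_min (by linarith) (by linarith), ?_⟩
    intro x hx
    rw [dist_eq_norm] at hx
    have hx1 : ‖x - w‖ < ε / 2 := lt_of_lt_of_le hx (min_le_left _ _)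
    have hx2 : ‖x - w‖ < R - b - ‖w‖ := lt_of_lt_of_le hx (min_le_right _ _)
    have hx3 : ‖x‖ ≤ R - b := by
      calc ‖x‖ = ‖(x - w) + w‖ := by ring_nf
        _ ≤ ‖x - w‖ + ‖w‖ := norm_add_le _ _
        _ ≤ R - b := by linarith
    rw [dist_eq_norm]
    have := hL x w hx3 hw'.le
    linarith
  have hd1 : HasDerivAt (fun z => z + e z) (1 + deriv e (k w)) (k w) :=
    (hasDerivAt_id _).add (hd _ (mem_cball0.mpr h1.1)).hasDerivAt
  have hne : (1 + deriv e (k w)) ≠ 0 := by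
    intro h
    have h2 : deriv e (k w) = -1 := by linear_combination h
    have h3 := hder _ (mem_cball0.mpr h1.1)
    rw [h2] at h3
    simp at h3
    norm_num at h3
  have hev : ∀ᶠ y in 𝓝 w, (fun z => z + e z) (k y) = y := by
    filter_upwards [isOpen_ball.mem_nhds hw] with y hy
    exact (hk y (mem_ball0.mp hy).le).2
  exact (HasDerivAt.of_local_left_inverse hcont hd1 hne hev).differentiableAt

end Pool.Agent.TH231
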