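import Mathlib

set_option autoImplicit false

namespace Pool.Agent.TH231

open Metric Filter Topology Complex Asymptotics

/-- Taylor coefficient at `0`. -/
noncomputable def tc (f : ℂ → ℂ) (j : ℕ) : ℂ := iteratedDeriv j f 0 / (j.factorial : ℂ)

lemma tc_zero (f : ℂ → ℂ) : tc f 0 = f 0 := by simp [tc]

lemma tc_one (f : ℂ → ℂ) : tc f 1 = deriv f 0 := by simp [tc, iteratedDeriv_one]

lemma hasSum_tc {f : ℂ → ℂ} {R : ℝ} (hf : DifferentiableOn ℂ f (ball 0 R)) {z : ℂ}
    (hz : z ∈ ball (0 : ℂ) R) : HasSum (fun j => tc f j * z ^ j) (f z) := by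
  have h := Complex.hasSum_taylorSeries_on_ball hf hz
  have e : (fun j => tc f j * z ^ j) =
      fun n : ℕ => ((n.factorial : ℂ))⁻¹ • (z - 0) ^ n • iteratedDeriv n f 0 := by
    funext j
    simp only [tc, sub_zero, smul_eq_mul]
    ring
  rw [e]
  exact h

lemma tc_unique {f : ℂ → ℂ} {a : ℕ → ℂ}
    (h : ∀ᶠ z in 𝓝 (0 : ℂ), HasSum (fun j => a j * z ^ j) (f z)) (j : ℕ) : tc f j = a j := by
  have h1 : HasFPowerSeriesAt f (FormalMultilinearSeries.ofScalars ℂ a) 0 := by
    rw [hasFPowerSeriesAt_iff]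
    filter_upwards [h] with z hz
    rw [zero_add]
    have e : (fun n => z ^ n • (FormalMultilinearSeries.ofScalars ℂ a).coeff n)
        = (fun j => a j * z ^ j) := by
      funext j
      rw [FormalMultilinearSeries.coeff_ofScalars, smul_eq_mul, mul_comm]
    rw [e]
    exact hz
  obtain ⟨r, hr⟩ := h1
  have h2 := hr.factorial_smul (1 : ℂ) j
  rw [← iteratedDeriv_eq_iteratedFDeriv] at h2
  have h3 : (FormalMultilinearSeries.ofScalars ℂ a j fun _ => (1 : ℂ)) = a j := by
    have := FormalMultilinearSeries.coeff_ofScalars (𝕜 := ℂ) (p := a) (n := j)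
    exact this
  rw [h3] at h2
  have h4 : (j.factorial : ℂ) ≠ 0 := by exact_mod_cast j.factorial_ne_zero
  rw [tc, ← h2, nsmul_eq_mul]
  field_simp

lemma norm_tc_le {f : ℂ → ℂ} {R C : ℝ} (hR : 0 < R) (hf : DifferentiableOn ℂ f (ball 0 R))
    (hC : ∀ z ∈ ball (0 : ℂ) R, ‖f z‖ ≤ C) (j : ℕ) : ‖tc f j‖ ≤ C / R ^ j := by
  have key : ∀ r : ℝ, 0 < r → r < R → ‖tc f j‖ ≤ C / r ^ j := by
    intro r hr hrR
    have h1 : DiffContOnCl ℂ f (ball 0 r) := by
      apply DifferentiableOn.diffContOnCl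
      apply hf.mono
      intro z hz
      have := closure_ball_subset_closedBall hz
      rw [mem_closedBall, dist_zero_right] at this
      rw [mem_ball, dist_zero_right]
      linarith
    have h2 := Complex.norm_iteratedDeriv_le_of_forall_mem_sphere_norm_le j hr h1 (C := C)
      (fun z hz => hC z (by
        rw [mem_sphere, dist_zero_right] at hz
        rw [mem_ball, dist_zero_right]; linarith))
    rw [tc, norm_div, Complex.norm_natCast]
    have h3 : (0 : ℝ) < (j.factorial : ℝ) := by exact_mod_cast j.factorial_pos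
    rw [div_le_iff₀ h3]
    calc ‖iteratedDeriv j f 0‖ ≤ j.factorial * C / r ^ j := h2
      _ = C / r ^ j * j.factorial := by ring
  have h5 : Tendsto (fun r : ℝ => C / r ^ j) (𝓝[<] R) (𝓝 (C / R ^ j)) := by
    have : ContinuousAt (fun r : ℝ => C / r ^ j) R := by
      apply ContinuousAt.div continuousAt_const (by fun_prop) (by positivity)
    exact this.tendsto.mono_left nhdsWithin_le_nhds
  refine ge_of_tendsto h5 ?_
  have h6 : Set.Ioo 0 R ∈ 𝓝[<] R := Ioo_mem_nhdsLT hR
  filter_upwards [h6] with r hr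
  exact key r hr.1 hr.2

lemma tc_sub {f g : ℂ → ℂ} (hf : AnalyticAt ℂ f 0) (hg : AnalyticAt ℂ g 0) (j : ℕ) :
    tc (fun z => f z - g z) j = tc f j - tc g j := by
  obtain ⟨r, hr, hfr⟩ := Metric.eventually_nhds_iff_ball.mp hf.eventually_analyticAt
  obtain ⟨s, hs, hgs⟩ := Metric.eventually_nhds_iff_ball.mp hg.eventually_analyticAt
  apply tc_unique
  filter_upwards [ball_mem_nhds (0 : ℂ) hr, ball_mem_nhds (0 : ℂ) hs] with z hz1 hz2
  have h1 := hasSum_tc (fun w hw => (hfr w hw).differentiableAt.differentiableWithinAt) hz1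
  have h2 := hasSum_tc (fun w hw => (hgs w hw).differentiableAt.differentiableWithinAt) hz2
  have e : (fun j => (tc f j - tc g j) * z ^ j) = fun j => tc f j * z ^ j - tc g j * z ^ j := by
    funext j; ring
  rw [e]
  exact h1.sub h2

lemma tc_add {f g : ℂ → ℂ} (hf : AnalyticAt ℂ f 0) (hg : AnalyticAt ℂ g 0) (j : ℕ) :
    tc (fun z => f z + g z) j = tc f j + tc g j := by
  obtain ⟨r, hr, hfr⟩ := Metric.eventually_nhds_iff_ball.mp hf.eventually_analyticAt
  obtain ⟨s, hs, hgs⟩ := Metric.eventually_nhds_iff_ball.mp hg.eventually_analyticAt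
  apply tc_unique
  filter_upwards [ball_mem_nhds (0 : ℂ) hr, ball_mem_nhds (0 : ℂ) hs] with z hz1 hz2
  have h1 := hasSum_tc (fun w hw => (hfr w hw).differentiableAt.differentiableWithinAt) hz1
  have h2 := hasSum_tc (fun w hw => (hgs w hw).differentiableAt.differentiableWithinAt) hz2
  have e : (fun j => (tc f j + tc g j) * z ^ j) = fun j => tc f j * z ^ j + tc g j * z ^ j := by
    funext j; ring
  rw [e]
  exact h1.add h2

lemma tc_const_mul {f : ℂ → ℂ} (hf : AnalyticAt ℂ f 0) (c : ℂ) (j : ℕ) :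
    tc (fun z => c * f z) j = c * tc f j := by
  obtain ⟨r, hr, hfr⟩ := Metric.eventually_nhds_iff_ball.mp hf.eventually_analyticAt
  apply tc_unique
  filter_upwards [ball_mem_nhds (0 : ℂ) hr] with z hz1
  have h1 := hasSum_tc (fun w hw => (hfr w hw).differentiableAt.differentiableWithinAt) hz1
  have e : (fun j => (c * tc f j) * z ^ j) = fun j => c * (tc f j * z ^ j) := by
    funext j; ring
  rw [e]
  exact h1.mul_left c

lemma tc_comp_mul {f : ℂ → ℂ} (hf : AnalyticAt ℂ f 0) (c : ℂ) (j : ℕ) :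
    tc (fun z => f (c * z)) j = c ^ j * tc f j := by
  obtain ⟨r, hr, hfr⟩ := Metric.eventually_nhds_iff_ball.mp hf.eventually_analyticAt
  apply tc_unique
  have h0 : Tendsto (fun z : ℂ => c * z) (𝓝 0) (𝓝 0) := by
    have : ContinuousAt (fun z : ℂ => c * z) 0 := by fun_prop
    simpa using this.tendsto
  filter_upwards [h0.eventually (ball_mem_nhds (0 : ℂ) hr)] with z hz1
  have h1 := hasSum_tc (fun w hw => (hfr w hw).differentiableAt.differentiableWithinAt) hz1
  have e : (fun j => (c ^ j * tc f j) * z ^ j) = fun j => tc f j * (c * z) ^ j := by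
    funext j; ring
  rw [e]
  exact h1

lemma tc_congr {f g : ℂ → ℂ} (h : f =ᶠ[𝓝 0] g) (j : ℕ) : tc f j = tc g j := by
  unfold tc
  rw [h.iteratedDeriv_eq]

lemma tc_id_zero_of_ge_two (c : ℂ) {j : ℕ} (hj : 2 ≤ j) : tc (fun z => c * z) j = 0 := by
  apply (tc_unique (a := fun j => if j = 1 then c else 0) ?_ j).trans (by simp; omega)
  filter_upwards with z
  have := hasSum_single (f := fun j : ℕ => (if j = 1 then c else 0) * z ^ j) 1 (by
    intro b hb; simp [hb])
  simpa using this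

lemma tc_eq_zero_iff_bigO {f : ℂ → ℂ} (hf : AnalyticAt ℂ f 0) (N : ℕ) :
    (∀ j < N, tc f j = 0) ↔ f =O[𝓝 0] (fun z : ℂ => z ^ N) := by
  have h1 : (∀ j < N, tc f j = 0) ↔ (∀ j < N, iteratedDeriv j f 0 = 0) := by
    have : ∀ j : ℕ, (j.factorial : ℂ) ≠ 0 := fun j => by exact_mod_cast j.factorial_ne_zero
    simp [tc, this]
  rw [h1, ← natCast_le_analyticOrderAt_iff_iteratedDeriv_eq_zero hf]
  constructor
  · intro h
    rw [natCast_le_analyticOrderAt hf] at h
    obtain ⟨g, hg, hfg⟩ := h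
    have h2 : f =ᶠ[𝓝 0] fun z => z ^ N * g z := by
      filter_upwards [hfg] with z hz
      simpa using hz
    refine h2.trans_isBigO ?_
    have h3 : (fun z : ℂ => z ^ N * g z) =O[𝓝 0] (fun z : ℂ => z ^ N * 1) :=
      (isBigO_refl _ _).mul (hg.continuousAt.norm.isBoundedUnder_le.isBigO_one ℂ)
    simpa using h3
  · intro h
    by_contra hlt
    push Not at hlt
    obtain ⟨n, hn⟩ : ∃ n : ℕ, analyticOrderAt f 0 = n := by
      have : analyticOrderAt f 0 ≠ ⊤ := ne_top_of_lt hlt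
      exact ⟨_, (ENat.natCast_toNat this).symm⟩
    rw [hn] at hlt
    have hnN : n < N := by exact_mod_cast hlt
    rw [hf.analyticOrderAt_eq_natCast] at hn
    obtain ⟨g, hg, hg0, hfg⟩ := hn
    have h2 : f =ᶠ[𝓝 0] fun z => z ^ n * g z := by
      filter_upwards [hfg] with z hz
      simpa using hz
    obtain ⟨C, hC⟩ := h.bound
    -- |g z| ≤ C |z|^{N-n}
    have h3 : ∀ᶠ z in 𝓝[≠] (0 : ℂ), ‖g z‖ ≤ C * ‖z‖ ^ (N - n) := by
      filter_upwards [hC.filter_mono nhdsWithin_le_nhds, h2.filter_mono nhdsWithin_le_nhds,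
        self_mem_nhdsWithin] with z h4 h5 h6
      have h7 : 0 < ‖z‖ := norm_pos_iff.mpr h6
      rw [h5, norm_mul, norm_pow, norm_pow] at h4
      have h8 : ‖z‖ ^ N = ‖z‖ ^ n * ‖z‖ ^ (N - n) := by rw [← pow_add]; congr 1; omega
      rw [h8] at h4
      have h9 : 0 < ‖z‖ ^ n := by positivity
      nlinarith
    have h4 : Tendsto (fun z : ℂ => ‖g z‖) (𝓝[≠] 0) (𝓝 ‖g 0‖) :=
      (hg.continuousAt.norm.tendsto).mono_left nhdsWithin_le_nhds
    have h5 : Tendsto (fun z : ℂ => C * ‖z‖ ^ (N - n)) (𝓝[≠] 0) (𝓝 0) := by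
      have : ContinuousAt (fun z : ℂ => C * ‖z‖ ^ (N - n)) 0 := by fun_prop
      have h6 := this.tendsto.mono_left (nhdsWithin_le_nhds (s := {0}ᶜ))
      simpa [show N - n ≠ 0 by omega] using h6
    have h6 := le_of_tendsto_of_tendsto h4 h5 h3
    exact hg0 (norm_le_zero_iff.mp h6)

end Pool.Agent.TH231
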