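import Mathlib

set_option autoImplicit false

namespace Pool.Agent.TH231

open Polynomial Finset

/-- truncated weighted sum of absolute values of coefficients -/
noncomputable def wS (r : ℝ) (K : ℕ) (p : ℂ[X]) : ℝ := ∑ i ∈ range K, ‖p.coeff i‖ * r ^ i

lemma wS_nonneg {r : ℝ} (hr : 0 ≤ r) (K : ℕ) (p : ℂ[X]) : 0 ≤ wS r K p :=
  Finset.sum_nonneg fun _ _ => by positivity

lemma wS_add_le {r : ℝ} (hr : 0 ≤ r) (K : ℕ) (p q : ℂ[X]) :
    wS r K (p + q) ≤ wS r K p + wS r K q := by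
  unfold wS
  rw [← Finset.sum_add_distrib]
  refine Finset.sum_le_sum fun i _ => ?_
  rw [coeff_add, ← add_mul]
  exact mul_le_mul_of_nonneg_right (norm_add_le _ _) (by positivity)

lemma wS_sum_le {ι : Type*} {r : ℝ} (hr : 0 ≤ r) (K : ℕ) (s : Finset ι) (p : ι → ℂ[X]) :
    wS r K (∑ i ∈ s, p i) ≤ ∑ i ∈ s, wS r K (p i) := by
  classical
  induction s using Finset.induction_on with
  | empty => simp [wS]
  | insert a s ha ih =>
    rw [Finset.sum_insert ha, Finset.sum_insert ha]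
    exact (wS_add_le hr K _ _).trans (by linarith)

lemma sum_antidiag_le {K : ℕ} (f g : ℕ → ℝ) (hf : ∀ i, 0 ≤ f i) (hg : ∀ i, 0 ≤ g i) :
    ∑ n ∈ range K, ∑ x ∈ antidiagonal n, f x.1 * g x.2
      ≤ (∑ i ∈ range K, f i) * (∑ j ∈ range K, g j) := by
  classical
  rw [Finset.sum_mul_sum, ← Finset.sum_product']
  set s := (range K ×ˢ range K).filter (fun x => x.1 + x.2 < K) with hs
  have h1 : ∑ n ∈ range K, ∑ x ∈ antidiagonal n, f x.1 * g x.2 = ∑ x ∈ s, f x.1 * g x.2 := by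
    have hmaps : ∀ x ∈ s, x.1 + x.2 ∈ range K := by
      intro x hx
      simp only [hs, Finset.mem_filter] at hx
      exact Finset.mem_range.mpr hx.2
    rw [← Finset.sum_fiberwise_of_maps_to hmaps]
    refine Finset.sum_congr rfl fun n hn => ?_
    refine Finset.sum_congr ?_ fun _ _ => rfl
    ext x
    simp only [hs, Finset.mem_filter, Finset.mem_product, Finset.mem_range,
      Finset.HasAntidiagonal.mem_antidiagonal] at hn ⊢
    constructor
    · intro h; omega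
    · intro h; omega
  rw [h1]
  exact Finset.sum_le_sum_of_subset_of_nonneg (Finset.filter_subset _ _)
    fun x _ _ => mul_nonneg (hf _) (hg _)

lemma wS_mul_le {r : ℝ} (hr : 0 ≤ r) (K : ℕ) (p q : ℂ[X]) :
    wS r K (p * q) ≤ wS r K p * wS r K q := by
  unfold wS
  refine le_trans ?_ (sum_antidiag_le (fun i => ‖p.coeff i‖ * r ^ i) (fun i => ‖q.coeff i‖ * r ^ i)
    (fun _ => by positivity) (fun _ => by positivity))
  refine Finset.sum_le_sum fun n _ => ?_
  rw [coeff_mul]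
  calc ‖∑ x ∈ antidiagonal n, p.coeff x.1 * q.coeff x.2‖ * r ^ n
      ≤ (∑ x ∈ antidiagonal n, ‖p.coeff x.1 * q.coeff x.2‖) * r ^ n :=
        mul_le_mul_of_nonneg_right (norm_sum_le _ _) (by positivity)
    _ = ∑ x ∈ antidiagonal n, (‖p.coeff x.1‖ * r ^ x.1) * (‖q.coeff x.2‖ * r ^ x.2) := by
        rw [Finset.sum_mul]
        refine Finset.sum_congr rfl fun x hx => ?_
        rw [Finset.HasAntidiagonal.mem_antidiagonal] at hx
        rw [norm_mul, ← hx, pow_add]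
        ring

lemma wS_one_le {r : ℝ} (K : ℕ) : wS r K 1 ≤ 1 := by
  unfold wS
  rcases Nat.eq_zero_or_pos K with h | h
  · simp [h]
  · rw [Finset.sum_eq_single_of_mem 0 (Finset.mem_range.mpr h)]
    · simp
    · intro i _ hi
      simp [coeff_one, hi]

lemma wS_pow_le {r : ℝ} (hr : 0 ≤ r) (K : ℕ) (p : ℂ[X]) (n : ℕ) :
    wS r K (p ^ n) ≤ (wS r K p) ^ n := by
  induction n with
  | zero => simpa using wS_one_le K
  | succ n ih =>
    rw [pow_succ, pow_succ]
    exact (wS_mul_le hr K _ _).trans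
      (mul_le_mul_of_nonneg_right ih (wS_nonneg hr K p))

lemma wS_C_mul_X_pow_le {r : ℝ} (hr : 0 ≤ r) (K : ℕ) (c : ℂ) (j : ℕ) :
    wS r K (C c * X ^ j) ≤ ‖c‖ * r ^ j := by
  unfold wS
  have : ∀ i ∈ range K, ‖(C c * X ^ j : ℂ[X]).coeff i‖ * r ^ i
      = if i = j then ‖c‖ * r ^ j else 0 := by
    intro i _
    rw [coeff_C_mul_X_pow]
    split_ifs with h
    · rw [h]
    · simp
  rw [Finset.sum_congr rfl this, Finset.sum_ite_eq']
  split_ifs
  · exact le_rfl
  · positivity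

/-- The nonlinear term in the conjugacy equation. -/
noncomputable def gN (U : ℕ → ℂ) (N : ℕ) (E : ℂ[X]) : ℂ[X] :=
  ∑ j ∈ Icc 1 N, C (U j) * X ^ j * (1 + E) ^ (j + 1)

lemma gN_dvd (U : ℕ → ℂ) (N k : ℕ) {E E' : ℂ[X]} (h : X ^ k ∣ E - E') :
    X ^ (k + 1) ∣ gN U N E - gN U N E' := by
  unfold gN
  rw [← Finset.sum_sub_distrib]
  refine Finset.dvd_sum fun j hj => ?_
  rw [Finset.mem_Icc] at hj
  rw [← mul_sub]
  have h1 : E - E' ∣ (1 + E) ^ (j + 1) - (1 + E') ^ (j + 1) := by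
    have := sub_dvd_pow_sub_pow (1 + E) (1 + E') (j + 1)
    simpa using this
  have h2 : X ^ k ∣ (1 + E) ^ (j + 1) - (1 + E') ^ (j + 1) := h.trans h1
  have h3 : (X : ℂ[X]) ∣ C (U j) * X ^ j := by
    refine Dvd.dvd.mul_left ?_ _
    exact dvd_pow_self X (by omega)
  rw [pow_succ']
  exact mul_dvd_mul h3 h2

lemma wS_gN_le {r b : ℝ} (hr : 0 ≤ r) (hb : 0 ≤ b) (U : ℕ → ℂ) (N K : ℕ) {E : ℂ[X]}
    (hE : wS r K E ≤ b) :
    wS r K (gN U N E) ≤ ∑ j ∈ Icc 1 N, ‖U j‖ * r ^ j * (1 + b) ^ (j + 1) := by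
  unfold gN
  refine (wS_sum_le hr K _ _).trans (Finset.sum_le_sum fun j _ => ?_)
  refine (wS_mul_le hr K _ _).trans ?_
  have h1 : wS r K (1 + E) ≤ 1 + b :=
    (wS_add_le hr K _ _).trans (add_le_add (wS_one_le K) hE)
  have h2 : wS r K ((1 + E) ^ (j + 1)) ≤ (1 + b) ^ (j + 1) :=
    (wS_pow_le hr K _ _).trans (pow_le_pow_left₀ (wS_nonneg hr K _) h1 _)
  exact mul_le_mul (wS_C_mul_X_pow_le hr K _ _) h2 (wS_nonneg hr K _) (by positivity)

/-- recursive construction of the normalising polynomial -/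
noncomputable def Ep (U m : ℕ → ℂ) (N : ℕ) : ℕ → ℂ[X]
  | 0 => 0
  | (k + 1) => Ep U m N k + C ((gN U N (Ep U m N k)).coeff k / m k) * X ^ k

lemma Ep_coeff_ge (U m : ℕ → ℂ) (N k : ℕ) : ∀ i, k ≤ i → (Ep U m N k).coeff i = 0 := by
  induction k with
  | zero => intro i _; simp [Ep]
  | succ k ih =>
    intro i hi
    rw [Ep, coeff_add, ih i (by omega), coeff_C_mul_X_pow, if_neg (by omega), add_zero]

lemma Ep_dvd (U m : ℕ → ℂ) (N : ℕ) {k K : ℕ} (h : k ≤ K) :
    X ^ k ∣ Ep U m N K - Ep U m N k := by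
  induction K, h using Nat.le_induction with
  | base => simp
  | succ K hK ih =>
    have : Ep U m N (K + 1) - Ep U m N k = (Ep U m N K - Ep U m N k)
        + C ((gN U N (Ep U m N K)).coeff K / m K) * X ^ K := by
      rw [Ep]; ring
    rw [this]
    refine dvd_add ih ?_
    exact Dvd.dvd.mul_left (pow_dvd_pow X hK) _

lemma coeff_eq_of_dvd {p q : ℂ[X]} {k i : ℕ} (h : X ^ k ∣ p - q) (hi : i < k) :
    p.coeff i = q.coeff i := by
  have := (X_pow_dvd_iff.mp h) i hi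
  rw [coeff_sub, sub_eq_zero] at this
  exact this

lemma Ep_coeff (U m : ℕ → ℂ) (N : ℕ) {i K : ℕ} (h : i < K) :
    (Ep U m N K).coeff i = (gN U N (Ep U m N K)).coeff i / m i := by
  have h1 : (Ep U m N K).coeff i = (Ep U m N (i + 1)).coeff i :=
    coeff_eq_of_dvd (Ep_dvd U m N (show i + 1 ≤ K by omega)) (by omega)
  have h2 : (gN U N (Ep U m N K)).coeff i = (gN U N (Ep U m N i)).coeff i :=
    coeff_eq_of_dvd (gN_dvd U N i (Ep_dvd U m N (show i ≤ K by omega))) (by omega)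
  rw [h1, h2, Ep, coeff_add, Ep_coeff_ge U m N i i le_rfl, coeff_C_mul_X_pow, if_pos rfl, zero_add]

lemma gN_coeff_zero (U : ℕ → ℂ) (N : ℕ) (E : ℂ[X]) : (gN U N E).coeff 0 = 0 := by
  unfold gN
  rw [finsetSum_coeff]
  refine Finset.sum_eq_zero fun j hj => ?_
  rw [Finset.mem_Icc] at hj
  rw [mul_coeff_zero, mul_coeff_zero, coeff_X_pow, if_neg (by omega)]
  simp

lemma wS_Ep_le {r b ω : ℝ} (hr : 0 ≤ r) (hb : 0 ≤ b) (hω : 0 < ω) (U m : ℕ → ℂ) (N : ℕ)
    (hm : ∀ k, 1 ≤ k → k < N → ω ≤ ‖m k‖)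
    (hU : ∑ j ∈ Icc 1 N, ‖U j‖ * r ^ j * (1 + b) ^ (j + 1) ≤ ω * b) :
    ∀ K, K ≤ N → wS r K (Ep U m N K) ≤ b := by
  intro K
  induction K with
  | zero => intro _; simp [wS, hb]
  | succ K ih =>
    intro hK
    have ih' := ih (by omega)
    have h0 : wS r (K + 1) (Ep U m N K) ≤ b := by
      unfold wS at ih' ⊢
      rw [Finset.sum_range_succ, Ep_coeff_ge U m N K K le_rfl]
      simpa using ih'
    have h1 : ω * wS r (K + 1) (Ep U m N (K + 1)) ≤ wS r (K + 1) (gN U N (Ep U m N K)) := by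
      unfold wS
      rw [Finset.mul_sum]
      refine Finset.sum_le_sum fun i hi => ?_
      rw [Finset.mem_range] at hi
      have h2 : (Ep U m N (K + 1)).coeff i = (gN U N (Ep U m N K)).coeff i / m i := by
        rw [Ep_coeff U m N hi]
        congr 1
        rcases Nat.lt_or_ge i (K + 1) with h | h
        · exact coeff_eq_of_dvd (gN_dvd U N K (Ep_dvd U m N (show K ≤ K + 1 by omega))) h
        · omega
      rw [h2]
      rcases Nat.eq_zero_or_pos i with h3 | h3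
      · subst h3
        rw [gN_coeff_zero]
        simp
      · have h4 := hm i h3 (by omega)
        have h5 : 0 < ‖m i‖ := lt_of_lt_of_le hω h4
        rw [norm_div, ← mul_assoc]
        refine mul_le_mul_of_nonneg_right ?_ (by positivity)
        rw [mul_div_assoc', div_le_iff₀ h5, mul_comm]
        exact mul_le_mul_of_nonneg_left h4 (norm_nonneg _)
    have h2 := wS_gN_le hr hb U N (K + 1) h0
    have h3 : ω * wS r (K + 1) (Ep U m N (K + 1)) ≤ ω * b := h1.trans (h2.trans hU)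
    exact le_of_mul_le_mul_left h3 hω

theorem elim {r b ω : ℝ} (hr : 0 ≤ r) (hb : 0 ≤ b) (hω : 0 < ω) (U : ℕ → ℂ) (μ : ℂ) (N : ℕ)
    (hm : ∀ k, 1 ≤ k → k < N → ω ≤ ‖μ ^ k - 1‖)
    (hU : ∑ j ∈ Icc 1 N, ‖U j‖ * r ^ j * (1 + b) ^ (j + 1) ≤ ω * b) :
    ∃ E : ℂ[X], E.coeff 0 = 0 ∧ (∀ z : ℂ, ‖z‖ ≤ r → ‖E.eval z‖ ≤ b) ∧
      X ^ N ∣ E.comp (C μ * X) - E - gN U N E := by
  set m : ℕ → ℂ := fun k => μ ^ k - 1 with hmdef
  refine ⟨Ep U m N N, ?_, ?_, ?_⟩
  · rcases Nat.eq_zero_or_pos N with h | h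
    · subst h; simp [Ep]
    · rw [Ep_coeff U m N h, gN_coeff_zero, zero_div]
  · intro z hz
    have h1 := wS_Ep_le hr hb hω U m N hm hU N le_rfl
    have h2 : (Ep U m N N).natDegree < N + 1 := by
      rw [Nat.lt_succ_iff, natDegree_le_iff_coeff_eq_zero]
      intro i hi
      exact Ep_coeff_ge U m N N i (by omega)
    rw [eval_eq_sum_range' h2, Finset.sum_range_succ, Ep_coeff_ge U m N N N le_rfl, zero_mul,
      add_zero]
    refine (norm_sum_le _ _).trans (le_trans ?_ h1)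
    refine Finset.sum_le_sum fun i _ => ?_
    rw [norm_mul, norm_pow]
    exact mul_le_mul_of_nonneg_left (pow_le_pow_left₀ (norm_nonneg _) hz _) (norm_nonneg _)
  · rw [X_pow_dvd_iff]
    intro i hi
    rw [coeff_sub, coeff_sub, comp_C_mul_X_coeff, Ep_coeff U m N hi]
    rcases Nat.eq_zero_or_pos i with h3 | h3
    · subst h3; simp [gN_coeff_zero]
    · have h4 := hm i h3 hi
      have h5 : m i ≠ 0 := by
        intro h
        rw [hmdef] at h
        simp only at h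
        rw [h, norm_zero] at h4
        linarith
      have h6 : μ ^ i = m i + 1 := by rw [hmdef]; ring
      rw [h6]
      field_simp
      ring

end Pool.Agent.TH231
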