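import Mathlib
import Pool.Agent.TH231.Coef
import Pool.Agent.TH231.Elim
import Pool.Agent.TH231.Basic

set_option autoImplicit false

namespace Pool.Agent.TH231

open Metric Filter Topology Complex Asymptotics Set

/-- the standing data of a stage -/
structure St (lam : ℂ) (N : ℕ) (f : ℂ → ℂ) : Prop where
  diff : DifferentiableOn ℂ f (ball 0 1)
  bd : ∀ z ∈ ball (0 : ℂ) 1, ‖f z - lam * z‖ ≤ 1 / 10 * ‖z‖ ^ (N + 1)
  hd : deriv f 0 = lam
  nocyc : ∀ z ∈ ball (0 : ℂ) 1, ∀ k, 1 ≤ k → (∀ j < k, f^[j] z ∈ ball (0 : ℂ) 1) →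
    f^[k] z = z → z = 0

lemma St.zero {lam : ℂ} {N : ℕ} {f : ℂ → ℂ} (h : St lam N f) : f 0 = 0 := by
  have := h.bd 0 (mem_ball_self one_pos)
  simpa using this

lemma schwarz_pow {φ : ℂ → ℂ} {R C : ℝ} {N : ℕ} (hd : DifferentiableOn ℂ φ (ball 0 R))
    (hC : ∀ z ∈ ball (0 : ℂ) R, ‖φ z‖ ≤ C) (hO : φ =O[𝓝 0] (fun z : ℂ => z ^ (N + 1)))
    {z : ℂ} (hz : z ∈ ball (0 : ℂ) R) : ‖φ z‖ ≤ C * (‖z‖ / R) ^ (N + 1) := by
  have h0 : φ 0 = 0 := by
    have := hO.eq_zero_imp.self_of_nhds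
    exact this (by simp)
  have h1 : MapsTo φ (ball 0 R) (closedBall (φ 0) C) := by
    intro w hw
    rw [h0, mem_closedBall, dist_zero_right]
    exact hC w hw
  have h2 : (fun w => φ w - φ 0) =o[𝓝 0] (fun w : ℂ => ‖w - 0‖ ^ N) := by
    rw [h0]
    simp only [sub_zero]
    have h3 : (fun z : ℂ => z ^ (N + 1)) =o[𝓝 0] (fun z : ℂ => z ^ N) := by
      have h4 : (fun z : ℂ => z) =o[𝓝 0] (fun _ : ℂ => (1 : ℂ)) := by
        rw [isLittleO_one_iff]; exact tendsto_id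
      have h5 := (isBigO_refl (fun z : ℂ => z ^ N) (𝓝 0)).mul_isLittleO h4
      simpa [pow_succ] using h5
    have h6 := (hO.trans_isLittleO h3).norm_right
    simpa [norm_pow] using h6
  have h3 := Complex.dist_le_mul_div_pow_of_mapsTo_ball_of_isLittleO hd h1 h2 hz
  simpa [h0, dist_zero_right] using h3

lemma iter_bound {lam : ℂ} (hlam : ‖lam‖ = 1) {f : ℂ → ℂ} {r δ : ℝ} (hδ0 : 0 ≤ δ)
    (hδ : ∀ z ∈ ball (0 : ℂ) r, ‖f z - lam * z‖ ≤ δ) (k : ℕ) :
    ∀ z : ℂ, ‖z‖ + k * δ < r →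
      ‖f^[k] z - lam ^ k * z‖ ≤ k * δ ∧ ∀ j ≤ k, f^[j] z ∈ ball (0 : ℂ) r := by
  induction k with
  | zero =>
    intro z hz
    refine ⟨by simp, fun j hj => ?_⟩
    obtain rfl : j = 0 := by omega
    rw [mem_ball0]; simpa using hz
  | succ k ih =>
    intro z hz
    push_cast at hz
    obtain ⟨h1, h2⟩ := ih z (by nlinarith)
    have h3 := hδ _ (h2 k le_rfl)
    have h4 : ‖f^[k + 1] z - lam ^ (k + 1) * z‖ ≤ (k + 1 : ℕ) * δ := by
      rw [Function.iterate_succ_apply']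
      have e : f (f^[k] z) - lam ^ (k + 1) * z
          = (f (f^[k] z) - lam * f^[k] z) + lam * (f^[k] z - lam ^ k * z) := by ring
      rw [e]
      refine (norm_add_le _ _).trans ?_
      rw [norm_mul, hlam, one_mul]
      push_cast
      linarith
    refine ⟨h4, fun j hj => ?_⟩
    rcases Nat.lt_or_ge j (k + 1) with h | h
    · exact h2 j (by omega)
    · obtain rfl : j = k + 1 := by omega
      rw [mem_ball0]
      have e : f^[k + 1] z = (f^[k + 1] z - lam ^ (k + 1) * z) + lam ^ (k + 1) * z := by ring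
      rw [e]
      refine (norm_add_le _ _).trans_lt ?_
      rw [norm_mul, norm_pow, hlam, one_pow, one_mul]
      push_cast at h4
      linarith

lemma iter_diff {lam : ℂ} (hlam : ‖lam‖ = 1) {f : ℂ → ℂ} {r δ : ℝ} (hδ0 : 0 ≤ δ)
    (hf : DifferentiableOn ℂ f (ball 0 r))
    (hδ : ∀ z ∈ ball (0 : ℂ) r, ‖f z - lam * z‖ ≤ δ) (k : ℕ) :
    DifferentiableOn ℂ (f^[k]) (ball 0 (r - k * δ)) := by
  induction k with
  | zero => exact differentiableOn_id
  | succ k ih =>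
    have h1 : ball (0 : ℂ) (r - (k + 1 : ℕ) * δ) ⊆ ball 0 (r - k * δ) := by
      apply ball_subset_ball
      push_cast
      linarith
    rw [Function.iterate_succ']
    refine hf.comp (ih.mono h1) ?_
    intro z hz
    rw [mem_ball0] at hz
    refine (iter_bound hlam hδ0 hδ (k + 1) z (by linarith)).2 k (by omega)

lemma tc_poly (p : Polynomial ℂ) (j : ℕ) : tc (fun z => p.eval z) j = p.coeff j := by
  apply tc_unique
  filter_upwards with z
  have h : HasSum (fun j => p.coeff j * z ^ j) (∑ j ∈ p.support, p.coeff j * z ^ j) :=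
    hasSum_sum_of_ne_finset_zero (by
      intro b hb
      rw [Polynomial.notMem_support_iff.mp hb, zero_mul])
  rw [Polynomial.eval_eq_sum, Polynomial.sum_def]
  exact h

lemma poly_bigO {p : Polynomial ℂ} {N : ℕ} (h : Polynomial.X ^ N ∣ p) :
    (fun z : ℂ => p.eval z) =O[𝓝 0] (fun z : ℂ => z ^ N) := by
  obtain ⟨q, rfl⟩ := h
  have h1 : (fun z : ℂ => (Polynomial.X ^ N * q).eval z) = fun z : ℂ => z ^ N * q.eval z := by
    funext z; simp
  rw [h1]
  have h2 : (fun z : ℂ => z ^ N * q.eval z) =O[𝓝 0] (fun z : ℂ => z ^ N * 1) :=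
    (isBigO_refl _ _).mul (q.continuous.continuousAt.norm.isBoundedUnder_le.isBigO_one ℂ)
  simpa using h2

end Pool.Agent.TH231
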