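import Mathlib
import Pool.Agent.TH231.Conj

set_option autoImplicit false

namespace Pool.Agent.TH231

open Metric Filter Topology Complex Asymptotics Set

/-- the conjugated map `F ∘ h₀` agrees with `h₀ (μ ·)` to order `N + 1`. -/
lemma order_main {F : ℂ → ℂ} {μ : ℂ} (hμ : μ ≠ 0) (hF : AnalyticAt ℂ F 0) (hF0 : F 0 = 0)
    (hFd : deriv F 0 = μ) {N : ℕ} {E : Polynomial ℂ}
    (hE : Polynomial.X ^ N ∣ E.comp (Polynomial.C μ * Polynomial.X) - E
      - gN (tc (fun w => dslope F 0 w / μ - 1)) N E) :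
    (fun z : ℂ => F (z * (1 + E.eval z)) - (μ * z) * (1 + E.eval (μ * z)))
      =O[𝓝 0] (fun z : ℂ => z ^ (N + 1)) := by
  set U : ℂ → ℂ := fun w => dslope F 0 w / μ - 1 with hU
  set a : ℕ → ℂ := tc U with ha
  have hUan : AnalyticAt ℂ U 0 := by
    have h1 : AnalyticAt ℂ (dslope F 0) 0 := by
      obtain ⟨p, hp⟩ := hF
      exact ⟨_, hp.has_fpower_series_dslope_fslope⟩
    exact (h1.div analyticAt_const hμ).sub analyticAt_const
  have hU0 : a 0 = 0 := by
    rw [ha, tc_zero, hU]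
    simp only [dslope_same, hFd]
    field_simp
    ring
  have hFU : ∀ w, F w = μ * w * (1 + U w) := by
    intro w
    have h1 : F w = w * dslope F 0 w := by
      have := sub_smul_dslope F 0 w
      simp only [sub_zero, smul_eq_mul, hF0] at this
      exact this.symm
    rw [h1, hU]
    field_simp
    ring
  -- truncation
  set T : Polynomial ℂ := ∑ j ∈ Finset.Icc 1 N, Polynomial.C (a j) * Polynomial.X ^ j with hT
  have hTc : ∀ j, j < N + 1 → T.coeff j = a j := by
    intro j hj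
    rw [hT, Polynomial.finsetSum_coeff]
    simp only [Polynomial.coeff_C_mul_X_pow]
    rw [Finset.sum_ite_eq]
    split_ifs with h
    · rfl
    · rw [Finset.mem_Icc] at h
      obtain rfl : j = 0 := by omega
      exact hU0.symm
  have hV : (fun w : ℂ => U w - T.eval w) =O[𝓝 0] (fun w : ℂ => w ^ (N + 1)) := by
    have hTan : AnalyticAt ℂ (fun w : ℂ => T.eval w) 0 := by
      exact T.differentiable.analyticAt 0
    refine (tc_eq_zero_iff_bigO (f := fun w => U w - T.eval w) (hUan.sub hTan) (N + 1)).mp ?_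
    intro j hj
    have h1 := tc_sub hUan hTan j
    rw [tc_poly, hTc j hj] at h1
    rw [sub_self] at h1
    exact h1
  set h0 : ℂ → ℂ := fun z => z * (1 + E.eval z) with hh0
  have hh0c : Tendsto h0 (𝓝 0) (𝓝 0) := by
    have : ContinuousAt h0 0 := by fun_prop
    simpa [hh0] using this.tendsto
  have hh0O : h0 =O[𝓝 0] (fun z : ℂ => z) := by
    have h2 : (fun z : ℂ => z * (1 + E.eval z)) =O[𝓝 0] (fun z : ℂ => z * 1) := by
      refine (isBigO_refl _ _).mul ?_
      have : ContinuousAt (fun z : ℂ => 1 + E.eval z) 0 := by fun_prop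
      exact this.norm.isBoundedUnder_le.isBigO_one ℂ
    simpa using h2
  have hV2 : (fun z : ℂ => U (h0 z) - T.eval (h0 z)) =O[𝓝 0] (fun z : ℂ => z ^ (N + 1)) :=
    (hV.comp_tendsto hh0c).trans (hh0O.pow (N + 1))
  have hid : ∀ z : ℂ, F (z * (1 + E.eval z)) - (μ * z) * (1 + E.eval (μ * z))
      = -(μ * z) * (E.comp (Polynomial.C μ * Polynomial.X) - E - gN a N E).eval z
        + μ * h0 z * (U (h0 z) - T.eval (h0 z)) := by
    intro z
    have h1 : T.eval (h0 z) * (1 + E.eval z) = (gN a N E).eval z := by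
      rw [hT, gN, Polynomial.eval_finsetSum, Polynomial.eval_finsetSum, Finset.sum_mul]
      refine Finset.sum_congr rfl fun j _ => ?_
      simp only [Polynomial.eval_mul, Polynomial.eval_C, Polynomial.eval_pow, Polynomial.eval_X,
        Polynomial.eval_add, Polynomial.eval_one, hh0, mul_pow]
      ring
    rw [show z * (1 + E.eval z) = h0 z from rfl, hFU (h0 z)]
    simp only [Polynomial.eval_sub, Polynomial.eval_comp, Polynomial.eval_mul, Polynomial.eval_C,
      Polynomial.eval_X]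
    rw [← h1]
    simp only [hh0]
    ring
  have hfun : (fun z : ℂ => F (z * (1 + E.eval z)) - (μ * z) * (1 + E.eval (μ * z)))
      = fun z => -(μ * z) * (E.comp (Polynomial.C μ * Polynomial.X) - E - gN a N E).eval z
        + μ * h0 z * (U (h0 z) - T.eval (h0 z)) := funext hid
  rw [hfun]
  refine IsBigO.add ?_ ?_
  · have h1 := poly_bigO hE
    have h2 : (fun z : ℂ => -(μ * z)) =O[𝓝 0] (fun z : ℂ => z) := by
      have : (fun z : ℂ => -(μ * z)) = fun z => (-μ) * z := by funext z; ring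
      rw [this]
      exact isBigO_const_mul_self _ _ _
    have h3 := h2.mul h1
    refine h3.congr_right ?_
    intro z; ring
  · have h1 : (fun z : ℂ => μ * h0 z) =O[𝓝 0] (fun _ : ℂ => (1 : ℂ)) := by
      have : ContinuousAt (fun z => μ * h0 z) 0 := by
        rw [hh0]; fun_prop
      exact this.norm.isBoundedUnder_le.isBigO_one ℂ
    have h3 := h1.mul hV2
    refine h3.congr_right ?_
    intro z; ring

/-- iterating a semiconjugacy near a common fixed point -/
lemma semiconj_iter_near {f f1 h0 : ℂ → ℂ} (hf1c : ContinuousAt f1 0) (hf10 : f1 0 = 0)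
    (hconj : ∀ᶠ z in 𝓝 (0 : ℂ), h0 (f1 z) = f (h0 z)) (q : ℕ) :
    ∀ᶠ z in 𝓝 (0 : ℂ), h0 (f1^[q] z) = f^[q] (h0 z) := by
  induction q with
  | zero => simp
  | succ q ih =>
    have hit : ContinuousAt (f1^[q]) 0 := hf1c.iterate hf10 q
    have hit0 : f1^[q] 0 = 0 := Function.iterate_fixed hf10 q
    have h1 : Tendsto (f1^[q]) (𝓝 0) (𝓝 0) := by
      have := hit.tendsto
      rwa [hit0] at this
    filter_upwards [ih, h1.eventually hconj] with z h2 h3
    rw [Function.iterate_succ_apply', Function.iterate_succ_apply', h3, h2]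

lemma order_conj {f f1 h0 : ℂ → ℂ} {lam : ℂ} (hlam : lam ≠ 0) (q : ℕ) {N : ℕ}
    (hf1 : AnalyticAt ℂ f1 0) (hf10 : f1 0 = 0)
    (hconj : ∀ᶠ z in 𝓝 (0 : ℂ), h0 (f1 z) = f (h0 z))
    (hlow : ∀ᶠ p in 𝓝 ((0 : ℂ), (0 : ℂ)), ‖p.1 - p.2‖ ≤ 2 * ‖h0 p.1 - h0 p.2‖)
    (hA : (fun z : ℂ => f^[q] (h0 z) - h0 (lam ^ q * z)) =O[𝓝 0] (fun z : ℂ => z ^ (N + 1)))
    (hres : ∀ k, 1 ≤ k → k < N → (lam ^ q) ^ k ≠ 1) :
    ∀ j, 2 ≤ j → j ≤ N → tc f1 j = 0 := by
  set μ : ℂ := lam ^ q with hμ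
  have hμ0 : μ ≠ 0 := pow_ne_zero _ hlam
  set F1 : ℂ → ℂ := f1^[q] with hF1
  have hF1an : AnalyticAt ℂ F1 0 := by
    rw [hF1]
    clear hA hres hF1 hconj hlow
    induction q with
    | zero => exact analyticAt_id
    | succ q ih =>
      rw [Function.iterate_succ']
      have h1 : f1^[q] 0 = 0 := Function.iterate_fixed hf10 q
      have ih' := ih rfl (pow_ne_zero _ hlam)
      refine AnalyticAt.comp ?_ ih'
      rw [h1]; exact hf1
  have hF10 : F1 0 = 0 := Function.iterate_fixed hf10 q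
  have hmulT : Tendsto (fun z : ℂ => μ * z) (𝓝 0) (𝓝 0) := by
    have : ContinuousAt (fun z : ℂ => μ * z) 0 := by fun_prop
    simpa using this.tendsto
  have hF1T : Tendsto F1 (𝓝 0) (𝓝 0) := by
    have := hF1an.continuousAt.tendsto
    rwa [hF10] at this
  have hf1T : Tendsto f1 (𝓝 0) (𝓝 0) := by
    have := hf1.continuousAt.tendsto
    rwa [hf10] at this
  -- F1 z = μ z + O(z^{N+1})
  have hB : (fun z : ℂ => F1 z - μ * z) =O[𝓝 0] (fun z : ℂ => z ^ (N + 1)) := by
    have h1 := semiconj_iter_near hf1.continuousAt hf10 hconj q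
    have h2 : ∀ᶠ z in 𝓝 (0 : ℂ), ‖F1 z - μ * z‖ ≤ 2 * ‖f^[q] (h0 z) - h0 (μ * z)‖ := by
      have h3 : Tendsto (fun z : ℂ => (F1 z, μ * z)) (𝓝 0) (𝓝 ((0 : ℂ), (0 : ℂ))) :=
        hF1T.prodMk_nhds hmulT
      filter_upwards [h1, h3.eventually hlow] with z h4 h5
      rw [← h4]
      exact h5
    exact (IsBigO.of_bound 2 h2).trans hA
  -- f1 (μ z) - μ f1 z
  have hC : (fun z : ℂ => f1 (μ * z) - μ * f1 z) =O[𝓝 0] (fun z : ℂ => z ^ (N + 1)) := by
    have h1 : (fun z : ℂ => f1 (μ * z) - f1 (F1 z)) =O[𝓝 0] (fun z : ℂ => z ^ (N + 1)) := by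
      have h2 := (hf1.hasStrictDerivAt).isBigO_sub
      have h3 : Tendsto (fun z : ℂ => (μ * z, F1 z)) (𝓝 0) (𝓝 ((0 : ℂ), (0 : ℂ))) :=
        hmulT.prodMk_nhds hF1T
      have h4 := h2.comp_tendsto h3
      have h5 : (fun z : ℂ => μ * z - F1 z) =O[𝓝 0] (fun z : ℂ => z ^ (N + 1)) := by
        have := hB.neg_left
        refine this.congr_left ?_
        intro z; ring
      exact h4.trans h5
    have h2 : (fun z : ℂ => F1 (f1 z) - μ * f1 z) =O[𝓝 0] (fun z : ℂ => z ^ (N + 1)) := by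
      have h3 := hB.comp_tendsto hf1T
      have h4 : f1 =O[𝓝 0] (fun z : ℂ => z) := by
        have := (hf1.differentiableAt).isBigO_sub
        simpa [hf10] using this
      exact h3.trans (h4.pow (N + 1))
    refine (h1.add h2).congr_left ?_
    intro z
    have h3 : f1 (F1 z) = F1 (f1 z) := by
      rw [hF1, ← Function.iterate_succ_apply' f1 q z, ← Function.iterate_succ_apply f1 q z]
    rw [h3]; ring
  have hCan : AnalyticAt ℂ (fun z : ℂ => f1 (μ * z) - μ * f1 z) 0 := by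
    have h1 : AnalyticAt ℂ (fun z : ℂ => f1 (μ * z)) 0 := by
      refine AnalyticAt.fun_comp ?_ (by fun_prop)
      simpa using hf1
    exact h1.sub (analyticAt_const.mul hf1)
  have hD := (tc_eq_zero_iff_bigO hCan (N + 1)).mpr hC
  intro j hj2 hjN
  have h1 := hD j (by omega)
  have h2 : AnalyticAt ℂ (fun z : ℂ => f1 (μ * z)) 0 := by
    refine AnalyticAt.fun_comp ?_ (by fun_prop)
    simpa using hf1
  have h2' : AnalyticAt ℂ (fun z : ℂ => μ * f1 z) 0 := analyticAt_const.mul hf1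
  rw [tc_sub h2 h2', tc_comp_mul hf1, tc_const_mul hf1] at h1
  have h3 : μ ^ j - μ ≠ 0 := by
    have h4 := hres (j - 1) (by omega) (by omega)
    have h5 : μ ^ j = μ ^ (j - 1) * μ := by
      rw [← pow_succ]; congr 1; omega
    rw [h5]
    intro h6
    have h7 : (μ ^ (j - 1) - 1) * μ = 0 := by linear_combination h6
    rcases mul_eq_zero.mp h7 with h8 | h8
    · exact h4 (by linear_combination h8)
    · exact hμ0 h8
  have h6 : (μ ^ j - μ) * tc f1 j = 0 := by linear_combination h1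
  rcases mul_eq_zero.mp h6 with h7 | h7
  · exact absurd h7 h3
  · exact h7

end Pool.Agent.TH231
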