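import Mathlib
import Pool.Agent.TH231.Conj2

set_option autoImplicit false

namespace Pool.Agent.TH231

open Metric Filter Topology Complex Asymptotics Set

lemma geom_bound {s x : ℝ} (hs : 0 < s) (hx0 : 0 ≤ x) (hx : x ≤ 1 - s) (N : ℕ) :
    ∑ j ∈ Finset.Icc 1 N, x ^ j ≤ 1 / s := by
  have h1 : ∀ N : ℕ, ∑ j ∈ Finset.Icc 1 N, x ^ j ≤ (1 - x ^ N) / s := by
    intro N
    induction N with
    | zero => simp
    | succ N ih =>
      rw [Finset.sum_Icc_succ_top (by omega)]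
      have h2 : x ^ (N + 1) ≤ (x ^ N - x ^ (N + 1)) / s := by
        rw [le_div_iff₀ hs]
        have h3 : 0 ≤ x ^ N := pow_nonneg hx0 N
        have h4 : x * s ≤ 1 - x := by nlinarith
        have h5 := mul_le_mul_of_nonneg_left h4 h3
        rw [pow_succ]
        linarith
      calc _ ≤ (1 - x ^ N) / s + (x ^ N - x ^ (N + 1)) / s := add_le_add ih h2
        _ = _ := by ring
  refine (h1 N).trans ?_
  gcongr
  linarith [pow_nonneg hx0 N]

theorem conj_step {lam : ℂ} (hlam : ‖lam‖ = 1) {f : ℂ → ℂ} {N0 : ℕ} (hf : St lam N0 f)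
    {q N : ℕ} (hq : 1 ≤ q) {s δ M ω : ℝ} (hs0 : 0 < s) (hs : s ≤ 1 / 100)
    (hδ0 : 0 ≤ δ) (hδ : ∀ z ∈ ball (0 : ℂ) (1 - s), ‖f z - lam * z‖ ≤ δ)
    (hqδ : q * δ ≤ s / 10) (hM0 : 0 ≤ M)
    (hM : ∀ z ∈ ball (0 : ℂ) (1 - 6 * s), ‖f^[q] z - lam ^ q * z‖ ≤ M * ‖z‖)
    (hω : 0 < ω) (hω' : ∀ k, 1 ≤ k → k < N → ω ≤ ‖(lam ^ q) ^ k - 1‖)
    (hMω : M ≤ ω * s ^ 2 / 40) :
    ∃ h g : ℂ → ℂ, Differentiable ℂ h ∧ MapsTo h (ball 0 1) (ball 0 1) ∧
      InjOn h (ball 0 1) ∧ h 0 = 0 ∧ deriv h 0 = ((1 - 11 * s : ℝ) : ℂ) ∧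
      (∀ z ∈ ball (0 : ℂ) 1, ‖h z - z‖ ≤ 12 * s) ∧ St lam N g ∧
      (∀ z ∈ ball (0 : ℂ) 1, f (h z) = h (g z)) := by
  have hf0 := hf.zero
  have hlam0 : lam ≠ 0 := by rw [← norm_pos_iff, hlam]; exact one_pos
  have hq1 : (1 : ℝ) ≤ q := by exact_mod_cast hq
  have hδs : δ ≤ s / 10 := le_trans (by nlinarith) hqδ
  set μ : ℂ := lam ^ q with hμdef
  have hμn : ‖μ‖ = 1 := by rw [hμdef, norm_pow, hlam, one_pow]
  have hμ0 : μ ≠ 0 := pow_ne_zero _ hlam0
  set F : ℂ → ℂ := f^[q] with hFdef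
  have hfd1 : DifferentiableOn ℂ f (ball 0 (1 - s)) := hf.diff.mono (ball_subset_ball (by linarith))
  have hFd : DifferentiableOn ℂ F (ball 0 (1 - 6 * s)) := by
    refine (iter_diff hlam hδ0 hfd1 hδ q).mono (ball_subset_ball ?_)
    linarith
  have hF0 : F 0 = 0 := Function.iterate_fixed hf0 q
  have hfda : DifferentiableAt ℂ f 0 := hf.diff.differentiableAt (ball_mem_nhds _ one_pos)
  have hFder : HasDerivAt F μ 0 := by
    have h1 : HasDerivAt f lam 0 := by
      have := hfda.hasDerivAt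
      rwa [hf.hd] at this
    exact h1.iterate 0 hf0 q
  have hball6 : ball (0 : ℂ) (1 - 6 * s) ∈ 𝓝 (0 : ℂ) := ball_mem_nhds _ (by linarith)
  have hFan : AnalyticAt ℂ F 0 := hFd.analyticAt hball6
  -- the function U
  set U : ℂ → ℂ := fun w => dslope F 0 w / μ - 1 with hU
  have hUd : DifferentiableOn ℂ U (ball 0 (1 - 6 * s)) := by
    have h1 : DifferentiableOn ℂ (dslope F 0) (ball 0 (1 - 6 * s)) :=
      (Complex.differentiableOn_dslope hball6).mpr hFd
    exact (h1.div_const μ).sub_const 1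
  have hUb : ∀ w ∈ ball (0 : ℂ) (1 - 6 * s), ‖U w‖ ≤ M := by
    intro w hw
    by_cases hw0 : w = 0
    · rw [hw0, hU]
      simp only [dslope_same, hFder.deriv]
      rw [div_self hμ0]
      simpa using hM0
    · have h1 : U w = (F w - μ * w) / (μ * w) := by
        rw [hU]
        simp only
        rw [dslope_of_ne _ hw0, slope_def_field, hF0]
        field_simp
        ring
      rw [h1, norm_div, norm_mul, hμn, one_mul]
      rw [div_le_iff₀ (norm_pos_iff.mpr hw0)]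
      exact hM w hw
  have hUc : ∀ j, ‖tc U j‖ ≤ M / (1 - 6 * s) ^ j := fun j => norm_tc_le (by linarith) hUd hUb j
  -- elimination
  set b : ℝ := s / 20 with hb
  have hb0 : 0 ≤ b := by rw [hb]; linarith
  have hr8 : (0 : ℝ) ≤ 1 - 8 * s := by linarith
  have hsum : ∑ j ∈ Finset.Icc 1 N, ‖tc U j‖ * (1 - 8 * s) ^ j * (1 + b) ^ (j + 1) ≤ ω * b := by
    set x : ℝ := (1 - 8 * s) * (1 + b) / (1 - 6 * s) with hx
    have h6 : (0 : ℝ) < 1 - 6 * s := by linarith
    have hx0 : 0 ≤ x := by rw [hx]; positivity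
    have hxs : x ≤ 1 - s := by
      rw [hx, div_le_iff₀ h6, hb]
      nlinarith
    have h1 : ∀ j ∈ Finset.Icc 1 N, ‖tc U j‖ * (1 - 8 * s) ^ j * (1 + b) ^ (j + 1)
        ≤ M * (1 + b) * x ^ j := by
      intro j _
      have h2 : M / (1 - 6 * s) ^ j * (1 - 8 * s) ^ j * (1 + b) ^ (j + 1)
          = M * (1 + b) * x ^ j := by
        rw [hx, div_pow, mul_pow, pow_succ]
        ring
      rw [← h2]
      gcongr
      exact hUc j
    refine (Finset.sum_le_sum h1).trans ?_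
    rw [← Finset.mul_sum]
    have h3 := geom_bound hs0 hx0 hxs N
    have h4 : 0 ≤ M * (1 + b) := by positivity
    calc M * (1 + b) * ∑ j ∈ Finset.Icc 1 N, x ^ j ≤ M * (1 + b) * (1 / s) :=
          mul_le_mul_of_nonneg_left h3 h4
      _ ≤ M * 2 * (1 / s) := by
          have : (1 : ℝ) + b ≤ 2 := by rw [hb]; linarith
          gcongr
      _ ≤ (ω * s ^ 2 / 40) * 2 * (1 / s) := by gcongr
      _ = ω * b := by rw [hb]; field_simp; ring
  obtain ⟨E, hE0, hEb, hEdvd⟩ := elim hr8 hb0 hω (tc U) μ N hω' hsum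
  -- the near-identity map
  set e : ℂ → ℂ := fun z => z * E.eval z with he
  have hEd : Differentiable ℂ (fun z : ℂ => E.eval z) := E.differentiable
  have hed : Differentiable ℂ e := differentiable_id.mul hEd
  have heb : ∀ z : ℂ, ‖z‖ ≤ 1 - 8 * s → ‖e z‖ ≤ b := by
    intro z hz
    rw [he]
    simp only
    rw [norm_mul]
    calc ‖z‖ * ‖E.eval z‖ ≤ 1 * b := by
          gcongr
          · linarith
          · exact hEb z hz
      _ = b := one_mul _
  have heb' : ∀ z ∈ ball (0 : ℂ) (1 - 8 * s), ‖e z‖ ≤ b := fun z hz =>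
    heb z (mem_ball0.mp hz).le
  set R : ℝ := 1 - 9 * s with hR
  have hRsub : ∀ x ∈ closedBall (0 : ℂ) R, x ∈ ball (0 : ℂ) (1 - 8 * s - s / 2) := by
    intro x hx
    rw [mem_cball0] at hx
    rw [mem_ball0]
    linarith
  have hbs : b / (s / 2) = 1 / 10 := by rw [hb]; field_simp; norm_num
  have hlip : ∀ x ∈ closedBall (0 : ℂ) R, ∀ y ∈ closedBall (0 : ℂ) R,
      ‖e x - e y‖ ≤ 1 / 2 * ‖x - y‖ := by
    intro x hx y hy
    have := lip_bound (half_pos hs0) hed.differentiableOn heb' (hRsub x hx) (hRsub y hy)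
    rw [hbs] at this
    nlinarith [norm_nonneg (x - y)]
  have hder : ∀ x ∈ closedBall (0 : ℂ) R, ‖deriv e x‖ ≤ 1 / 2 := by
    intro x hx
    have := deriv_bound (half_pos hs0) hed.differentiableOn heb' (hRsub x hx)
    rw [hbs] at this
    linarith
  have hebR : ∀ x ∈ closedBall (0 : ℂ) R, ‖e x‖ ≤ b := by
    intro x hx
    rw [mem_cball0] at hx
    exact heb x (by linarith)
  obtain ⟨k, hk1, hk2, hk3⟩ := exists_inverse hb0 (fun x _ => hed x) hlip hder hebR
  set h0 : ℂ → ℂ := fun z => z * (1 + E.eval z) with hh0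
  have hh0e : ∀ z, h0 z = z + e z := by intro z; rw [hh0, he]; ring
  have hh0d : Differentiable ℂ h0 := differentiable_id.mul ((differentiable_const 1).add hEd)
  have hlow : ∀ x ∈ closedBall (0 : ℂ) R, ∀ y ∈ closedBall (0 : ℂ) R,
      ‖x - y‖ ≤ 2 * ‖h0 x - h0 y‖ := by
    intro x hx y hy
    have h1 := hlip x hx y hy
    have h2 : x - y = (h0 x - h0 y) - (e x - e y) := by rw [hh0e, hh0e]; ring
    have h3 : ‖x - y‖ ≤ ‖h0 x - h0 y‖ + ‖e x - e y‖ := by
      conv_lhs => rw [h2]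
      exact norm_sub_le _ _
    linarith
  set f1 : ℂ → ℂ := fun z => k (f (h0 z)) with hf1
  set ρ : ℝ := 1 - 11 * s with hρ
  have hρ0 : 0 < ρ := by rw [hρ]; linarith
  -- estimates on the ball of radius ρ
  have hh0n : ∀ z : ℂ, ‖z‖ < ρ → ‖h0 z‖ < ρ + b := by
    intro z hz
    rw [hh0e]
    refine (norm_add_le _ _).trans_lt ?_
    have := heb z (by linarith)
    linarith
  have hfh0 : ∀ z : ℂ, ‖z‖ < ρ → ‖f (h0 z) - lam * h0 z‖ ≤ δ := by
    intro z hz
    have h1 := hh0n z hz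
    exact hδ _ (mem_ball0.mpr (by linarith))
  have hfh0n : ∀ z : ℂ, ‖z‖ < ρ → ‖f (h0 z)‖ < R - b := by
    intro z hz
    have h1 := hh0n z hz
    have h2 := hfh0 z hz
    have h3 : f (h0 z) = (f (h0 z) - lam * h0 z) + lam * h0 z := by ring
    rw [h3]
    refine (norm_add_le _ _).trans_lt ?_
    rw [norm_mul, hlam, one_mul]
    linarith
  have hf1spec : ∀ z : ℂ, ‖z‖ < ρ → ‖f1 z‖ ≤ R ∧ h0 (f1 z) = f (h0 z) := by
    intro z hz
    have h1 := hk1 (f (h0 z)) (hfh0n z hz).le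
    refine ⟨h1.1, ?_⟩
    rw [hh0e]
    exact h1.2
  have hf1d : DifferentiableOn ℂ f1 (ball 0 ρ) := by
    have h1 : DifferentiableOn ℂ (fun z => f (h0 z)) (ball 0 ρ) := by
      refine hf.diff.comp hh0d.differentiableOn ?_
      intro z hz
      rw [mem_ball0] at hz ⊢
      have := hh0n z hz
      linarith
    refine hk3.comp h1 ?_
    intro z hz
    rw [mem_ball0] at hz ⊢
    exact hfh0n z hz
  have hf10 : f1 0 = 0 := by
    have h1 := hf1spec 0 (by simpa using hρ0)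
    have h2 : h0 0 = 0 := by simp [hh0]
    rw [h2, hf0] at h1
    have h3 := hlow (f1 0) (mem_cball0.mpr h1.1) 0 (mem_cball0.mpr (by simp; linarith))
    rw [h1.2, h2] at h3
    simpa using h3
  have hf1b : ∀ z : ℂ, ‖z‖ < ρ → ‖f1 z - lam * z‖ ≤ s / 5 := by
    intro z hz
    have h1 := hf1spec z hz
    have h2 : f1 z - lam * z = -(e (f1 z)) + (f (h0 z) - lam * h0 z) + lam * e z := by
      have h3 : h0 (f1 z) = f1 z + e (f1 z) := hh0e _
      rw [h1.2] at h3
      rw [h3, hh0e z]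
      ring
    rw [h2]
    refine (norm_add_le _ _).trans ?_
    refine (add_le_add_left (norm_add_le _ _) _).trans ?_
    rw [norm_neg, norm_mul lam (e z), hlam, one_mul]
    have h4 := hebR (f1 z) (mem_cball0.mpr h1.1)
    have h5 := heb z (by linarith)
    have h6 := hfh0 z hz
    rw [hb] at h4 h5
    linarith
  have hρball : ball (0 : ℂ) ρ ∈ 𝓝 (0 : ℂ) := ball_mem_nhds _ hρ0
  have hf1an : AnalyticAt ℂ f1 0 := hf1d.analyticAt hρball
  have hconj : ∀ᶠ z in 𝓝 (0 : ℂ), h0 (f1 z) = f (h0 z) := by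
    filter_upwards [hρball] with z hz
    exact (hf1spec z (mem_ball0.mp hz)).2
  have hlow' : ∀ᶠ p in 𝓝 ((0 : ℂ), (0 : ℂ)), ‖p.1 - p.2‖ ≤ 2 * ‖h0 p.1 - h0 p.2‖ := by
    have h1 : closedBall (0 : ℂ) R ∈ 𝓝 (0 : ℂ) := closedBall_mem_nhds _ (by linarith)
    filter_upwards [prod_mem_nhds h1 h1] with p hp
    exact hlow p.1 hp.1 p.2 hp.2
  have hord := order_main hμ0 hFan hF0 hFder.deriv hEdvd
  have htc := order_conj (f := f) (h0 := h0) hlam0 q (N := N) hf1an hf10 hconj hlow' hord (by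
    intro j hj1 hj2 hj3
    have := hω' j hj1 hj2
    rw [hj3, sub_self, norm_zero] at this
    linarith)
  -- derivative of f1 at 0
  have hh0der : HasDerivAt h0 1 0 := by
    have h1 : HasDerivAt (fun z : ℂ => z * (1 + E.eval z)) (1 * (1 + E.eval 0)
        + 0 * deriv (fun z : ℂ => 1 + E.eval z) 0) 0 := by
      refine HasDerivAt.mul (hasDerivAt_id _) ?_
      exact ((differentiable_const 1).add hEd 0).hasDerivAt
    have h2 : E.eval 0 = 0 := by rw [← Polynomial.coeff_zero_eq_eval_zero]; exact hE0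
    rw [h2] at h1
    simpa using h1
  have hf1der : HasDerivAt f1 lam 0 := by
    have h1 : HasDerivAt f1 (deriv f1 0) 0 := hf1an.differentiableAt.hasDerivAt
    have h2 : HasDerivAt (fun z => h0 (f1 z)) (1 * deriv f1 0) 0 := by
      have h3 : HasDerivAt h0 1 (f1 0) := by rw [hf10]; exact hh0der
      exact h3.comp 0 h1
    have h3 : HasDerivAt (fun z => f (h0 z)) (lam * 1) 0 := by
      have h4 : HasDerivAt f lam (h0 0) := by
        have h5 : h0 0 = 0 := by simp [hh0]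
        rw [h5]
        have := hfda.hasDerivAt
        rwa [hf.hd] at this
      exact h4.comp 0 hh0der
    have h4 : HasDerivAt (fun z => h0 (f1 z)) (lam * 1) 0 := h3.congr_of_eventuallyEq hconj
    have h5 := h2.unique h4
    rw [one_mul, mul_one] at h5
    rw [← h5]
    exact h1
  -- rescale
  have hρc : (ρ : ℂ) ≠ 0 := by exact_mod_cast hρ0.ne'
  set g : ℂ → ℂ := fun z => f1 (ρ * z) / ρ with hg
  set h : ℂ → ℂ := fun z => h0 (ρ * z) with hh
  have hscale : ∀ z ∈ ball (0 : ℂ) 1, ‖(ρ : ℂ) * z‖ < ρ := by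
    intro z hz
    rw [mem_ball0] at hz
    rw [norm_mul, Complex.norm_real, Real.norm_eq_abs, abs_of_pos hρ0]
    nlinarith
  have hscale2 : ∀ z ∈ ball (0 : ℂ) 1, (ρ : ℂ) * z ∈ closedBall (0 : ℂ) R := by
    intro z hz
    rw [mem_cball0]
    have := hscale z hz
    linarith
  have hhd : Differentiable ℂ h := hh0d.comp (by fun_prop)
  have hhmaps : MapsTo h (ball 0 1) (ball 0 1) := by
    intro z hz
    rw [mem_ball0]
    have := hh0n _ (hscale z hz)
    linarith
  have hhinj : InjOn h (ball 0 1) := by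
    intro x hx y hy hxy
    have h1 := hlow _ (hscale2 x hx) _ (hscale2 y hy)
    have h2 : h0 (ρ * x) = h0 (ρ * y) := hxy
    rw [h2, sub_self, norm_zero, mul_zero] at h1
    have h3 : (ρ : ℂ) * x - ρ * y = 0 := norm_le_zero_iff.mp h1
    have h4 : (ρ : ℂ) * (x - y) = 0 := by rw [mul_sub]; exact h3
    rcases mul_eq_zero.mp h4 with h5 | h5
    · exact absurd h5 hρc
    · exact sub_eq_zero.mp h5
  have hh00 : h 0 = 0 := by simp [hh, hh0]
  have hrel : ∀ z ∈ ball (0 : ℂ) 1, f (h z) = h (g z) := by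
    intro z hz
    have h1 := (hf1spec _ (hscale z hz)).2
    show f (h0 (ρ * z)) = h0 (ρ * (f1 (ρ * z) / ρ))
    rw [mul_div_cancel₀ _ hρc, h1]
  have hmulan : AnalyticAt ℂ (fun z : ℂ => (ρ : ℂ) * z) 0 := by fun_prop
  have hgd : DifferentiableOn ℂ g (ball 0 1) := by
    refine DifferentiableOn.div_const ?_ _
    refine hf1d.comp (by fun_prop) ?_
    intro z hz
    exact mem_ball0.mpr (hscale z hz)
  have hg0 : g 0 = 0 := by simp [hg, hf10]
  have hgan : AnalyticAt ℂ g 0 := hgd.analyticAt (ball_mem_nhds _ one_pos)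
  have hgder : HasDerivAt g lam 0 := by
    have h1 : HasDerivAt (fun z : ℂ => (ρ : ℂ) * z) ρ 0 := by
      simpa using (hasDerivAt_id (0 : ℂ)).const_mul (ρ : ℂ)
    have h2 : HasDerivAt f1 lam ((ρ : ℂ) * 0) := by rw [mul_zero]; exact hf1der
    have h3 := (h2.comp (0 : ℂ) h1).div_const (ρ : ℂ)
    rw [mul_div_assoc, div_self hρc, mul_one] at h3
    exact h3
  have hgtc : ∀ j, 2 ≤ j → j ≤ N → tc g j = 0 := by
    intro j hj1 hj2
    have h1 : tc g j = (ρ : ℂ)⁻¹ * ((ρ : ℂ) ^ j * tc f1 j) := by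
      have h2 : AnalyticAt ℂ (fun z : ℂ => f1 ((ρ : ℂ) * z)) 0 := by
        refine AnalyticAt.fun_comp ?_ hmulan
        simpa using hf1an
      rw [← tc_comp_mul hf1an, ← tc_const_mul h2]
      congr 1
      funext z
      rw [hg]
      simp only
      rw [div_eq_inv_mul]
    rw [h1, htc j hj1 hj2]
    simp
  have hgO : (fun z : ℂ => g z - lam * z) =O[𝓝 0] (fun z : ℂ => z ^ (N + 1)) := by
    have hlan : AnalyticAt ℂ (fun z : ℂ => lam * z) 0 := by fun_prop
    refine (tc_eq_zero_iff_bigO (hgan.sub hlan) (N + 1)).mp ?_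
    intro j hj
    have h1 : tc (fun z => g z - lam * z) j = 0 := by
      rw [tc_sub hgan hlan]
      rcases Nat.lt_or_ge j 2 with h2 | h2
      · interval_cases j
        · rw [tc_zero, tc_zero, hg0]; simp
        · rw [tc_one, tc_one, hgder.deriv]
          have : HasDerivAt (fun z : ℂ => lam * z) lam 0 := by
            simpa using (hasDerivAt_id (0 : ℂ)).const_mul lam
          rw [this.deriv, sub_self]
      · rw [hgtc j h2 (by omega), tc_id_zero_of_ge_two lam h2, sub_zero]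
    exact h1
  have hgb1 : ∀ z ∈ ball (0 : ℂ) 1, ‖g z - lam * z‖ ≤ 1 / 10 := by
    intro z hz
    have h1 := hf1b _ (hscale z hz)
    have h2 : g z - lam * z = (f1 (ρ * z) - lam * (ρ * z)) / ρ := by
      rw [hg]; field_simp
    rw [h2, norm_div, Complex.norm_real, Real.norm_eq_abs, abs_of_pos hρ0, div_le_iff₀ hρ0]
    rw [hρ]
    linarith
  have hgb : ∀ z ∈ ball (0 : ℂ) 1, ‖g z - lam * z‖ ≤ 1 / 10 * ‖z‖ ^ (N + 1) := by
    intro z hz
    have h1 := schwarz_pow (hgd.sub (by fun_prop : DifferentiableOn ℂ (fun z : ℂ => lam * z) _))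
      hgb1 hgO hz
    simpa using h1
  refine ⟨h, g, hhd, hhmaps, hhinj, hh00, ?_, ?_, ⟨hgd, hgb, hgder.deriv, ?_⟩, hrel⟩
  · have h1 : HasDerivAt (fun z : ℂ => (ρ : ℂ) * z) ρ 0 := by
      simpa using (hasDerivAt_id (0 : ℂ)).const_mul (ρ : ℂ)
    have h2 : HasDerivAt h0 1 ((ρ : ℂ) * 0) := by rw [mul_zero]; exact hh0der
    have h3 := h2.comp (0 : ℂ) h1
    rw [one_mul] at h3
    exact h3.deriv
  · intro z hz
    have h1 : h z - z = e (ρ * z) + (ρ - 1) * z := by
      show h0 (ρ * z) - z = _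
      rw [hh0e]; ring
    rw [h1]
    refine (norm_add_le _ _).trans ?_
    have h2 := hebR _ (hscale2 z hz)
    have h3 : ‖((ρ : ℂ) - 1) * z‖ ≤ 11 * s := by
      have h4 : ((ρ : ℂ) - 1) = ((-(11 * s) : ℝ) : ℂ) := by rw [hρ]; push_cast; ring
      rw [h4, norm_mul, Complex.norm_real, Real.norm_eq_abs, abs_neg, abs_of_pos (by linarith)]
      have h5 := (mem_ball0.mp hz).le
      nlinarith
    rw [hb] at h2
    linarith
  · intro z hz m hm hj hper
    have h1 : ∀ j ≤ m, f^[j] (h z) = h (g^[j] z) := by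
      intro j hjm
      induction j with
      | zero => rfl
      | succ j ih =>
        rw [Function.iterate_succ_apply', Function.iterate_succ_apply', ih (by omega)]
        exact hrel _ (hj j (by omega))
    have h2 := hf.nocyc (h z) (hhmaps hz) m hm (fun j hjm => by
      rw [h1 j hjm.le]
      exact hhmaps (hj j hjm)) (by rw [h1 m le_rfl, hper])
    exact hhinj hz (mem_ball_self one_pos) (by rw [h2, hh00])

end Pool.Agent.TH231
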