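import Mathlib
import Pool.Agent.TH231.Conj

set_option autoImplicit false

namespace Pool.Agent.TH231

open Metric Filter Topology Complex Asymptotics Set

/-- logarithm of a zero-free function on a disc -/
lemma exists_log_ball {g : ℂ → ℂ} {R : ℝ} (hR : 0 < R) (hd : DifferentiableOn ℂ g (ball 0 R))
    (hz : ∀ z ∈ ball (0 : ℂ) R, g z ≠ 0) :
    ∃ G : ℂ → ℂ, DifferentiableOn ℂ G (ball 0 R) ∧ G 0 = 0 ∧
      ∀ z ∈ ball (0 : ℂ) R, g z = g 0 * exp (G z) := by
  have hda : ∀ z ∈ ball (0 : ℂ) R, DifferentiableAt ℂ g z := fun z hz =>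
    hd.differentiableAt (isOpen_ball.mem_nhds hz)
  have hd' : DifferentiableOn ℂ (deriv g) (ball 0 R) := hd.deriv isOpen_ball
  have h1 : DifferentiableOn ℂ (fun z => deriv g z / g z) (ball 0 R) := hd'.div hd hz
  obtain ⟨G, hG0, hG⟩ := (h1.isExactOn_ball).with_val_at 0 0
  refine ⟨G, fun z hz => (hG z hz).differentiableAt.differentiableWithinAt, hG0, ?_⟩
  have h2 : ∀ z ∈ ball (0 : ℂ) R, HasDerivAt (fun z => g z * exp (-G z)) 0 z := by
    intro z hzR
    have h3 := (hda z hzR).hasDerivAt.mul ((hG z hzR).neg.cexp)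
    refine h3.congr_deriv ?_
    have := hz z hzR
    simp only [Pi.neg_apply]
    field_simp
    ring
  have h3 : ∀ z ∈ ball (0 : ℂ) R, g z * exp (-G z) = g 0 * exp (-G 0) := by
    intro z hzR
    refine isOpen_ball.is_const_of_deriv_eq_zero (convex_ball 0 R).isPreconnected
      (fun w hw => (h2 w hw).differentiableAt.differentiableWithinAt)
      (fun w hw => (h2 w hw).deriv) hzR (mem_ball_self hR)
  intro z hzR
  have h4 := h3 z hzR
  rw [hG0, neg_zero, exp_zero, mul_one, exp_neg] at h4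
  have h5 : exp (G z) ≠ 0 := exp_ne_zero _
  field_simp at h4
  rw [mul_comm]
  exact h4

/-- a branch of logarithm close to `0` at one point stays the principal one -/
lemma branch_bound {A τ : ℂ → ℂ} {R t : ℝ} (hR : 0 < R) (hA : DifferentiableOn ℂ A (ball 0 R))
    (hτ : DifferentiableOn ℂ τ (ball 0 R)) (hA0 : A 0 = 0) (ht : t ≤ 1 / 2)
    (hb : ∀ z ∈ ball (0 : ℂ) R, ‖τ z‖ ≤ t)
    (he : ∀ z ∈ ball (0 : ℂ) R, exp (A z) = 1 + τ z) :
    ∀ z ∈ ball (0 : ℂ) R, ‖A z‖ ≤ 3 / 2 * t := by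
  have hslit : ∀ z ∈ ball (0 : ℂ) R, 1 + τ z ∈ slitPlane := by
    intro z hz
    have h1 := hb z hz
    apply Complex.mem_slitPlane_of_norm_lt_one
    linarith
  have hLd : DifferentiableOn ℂ (fun z => log (1 + τ z)) (ball 0 R) :=
    ((differentiableOn_const 1).add hτ).clog hslit
  have hH : ∀ z ∈ ball (0 : ℂ) R, exp (A z - log (1 + τ z)) = 1 := by
    intro z hz
    have h1 : 1 + τ z ≠ 0 := Complex.slitPlane_ne_zero (hslit z hz)
    rw [exp_sub, he z hz, exp_log h1, div_self h1]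
  have hHd : DifferentiableOn ℂ (fun z => A z - log (1 + τ z)) (ball 0 R) := hA.sub hLd
  have hHder : ∀ z ∈ ball (0 : ℂ) R, HasDerivAt (fun z => A z - log (1 + τ z)) 0 z := by
    intro z hz
    have h1 := (hHd.differentiableAt (isOpen_ball.mem_nhds hz)).hasDerivAt
    have h2 := h1.cexp
    have h3 : HasDerivAt (fun z => exp (A z - log (1 + τ z))) 0 z := by
      have h4 : (fun z => exp (A z - log (1 + τ z))) =ᶠ[𝓝 z] fun _ => (1 : ℂ) := by
        filter_upwards [isOpen_ball.mem_nhds hz] with w hw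
        exact hH w hw
      exact (hasDerivAt_const z (1 : ℂ)).congr_of_eventuallyEq h4
    have h4 := h2.unique h3
    rw [hH z hz, one_mul] at h4
    rw [← h4]
    exact h1
  have hconst : ∀ z ∈ ball (0 : ℂ) R, A z - log (1 + τ z) = A 0 - log (1 + τ 0) := by
    intro z hz
    exact isOpen_ball.is_const_of_deriv_eq_zero (convex_ball 0 R).isPreconnected
      (fun w hw => (hHder w hw).differentiableAt.differentiableWithinAt)
      (fun w hw => (hHder w hw).deriv) hz (mem_ball_self hR)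
  have hτ0 : τ 0 = 0 := by
    have h1 := he 0 (mem_ball_self hR)
    rw [hA0, exp_zero] at h1
    linear_combination -h1
  intro z hz
  have h1 := hconst z hz
  rw [hA0, hτ0, add_zero, log_one, sub_zero, sub_eq_zero] at h1
  rw [h1]
  have h2 := hb z hz
  refine (Complex.norm_log_one_add_half_le_self (by linarith)).trans (by linarith)

lemma cancel_aux (a X Y : ℝ) (hX : 0 < X) : a / X * (X * Y) = a * Y := by field_simp

theorem star_step {lam : ℂ} (hlam : ‖lam‖ = 1) {f : ℂ → ℂ} {N0 : ℕ} (hf : St lam N0 f)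
    {q N1 : ℕ} (hq : 1 ≤ q) {s δ L c ε : ℝ} (hs0 : 0 < s) (hs : s ≤ 1 / 100)
    (hδ0 : 0 ≤ δ) (hδ : ∀ z ∈ ball (0 : ℂ) (1 - s), ‖f z - lam * z‖ ≤ δ)
    (hqδ : q * δ ≤ s / 10) (hε0 : 0 < ε) (hε : ε ≤ 1 / 4) (hεq : ‖lam ^ q - 1‖ = ε)
    (hL : Real.log (1 / ε) ≤ L) (hL1 : 1 ≤ L) (hc : 0 < c) (hc1 : c ≤ 1)
    (hnr : ∀ k, 1 ≤ k → k < N1 → ¬ q ∣ k → c ≤ ‖lam ^ k - 1‖)
    (κ : ℝ) (hκ : (9 * L * δ / (c * s ^ 2) + 2 * L / s * ((1 - s) ^ q + (1 - s) ^ N1)) / s ≤ κ)
    (hκ1 : κ ≤ 1) :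
    ∀ z ∈ ball (0 : ℂ) (1 - 6 * s), ‖f^[q] z - lam ^ q * z‖ ≤ 2 * κ * ε * ‖z‖ := by
  have hf0 := hf.zero
  have hq1 : (1 : ℝ) ≤ q := by exact_mod_cast hq
  have hδs : δ ≤ s / 10 := le_trans (by nlinarith) hqδ
  set μ : ℂ := lam ^ q with hμdef
  have hμn : ‖μ‖ = 1 := by rw [hμdef, norm_pow, hlam, one_pow]
  have hfd1 : DifferentiableOn ℂ f (ball 0 (1 - s)) := hf.diff.mono (ball_subset_ball (by linarith))
  set R : ℝ := 1 - 2 * s with hR
  have hR0 : 0 < R := by rw [hR]; linarith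
  have hitb : ∀ z ∈ ball (0 : ℂ) R, ‖f^[q] z - μ * z‖ ≤ q * δ ∧
      ∀ j ≤ q, f^[j] z ∈ ball (0 : ℂ) (1 - s) := by
    intro z hz
    rw [mem_ball0] at hz
    exact iter_bound hlam hδ0 hδ q z (by linarith)
  set D : ℂ → ℂ := fun z => f^[q] z - z with hD
  have hDd : DifferentiableOn ℂ D (ball 0 R) := by
    refine DifferentiableOn.sub ?_ differentiableOn_id
    exact (iter_diff hlam hδ0 hfd1 hδ q).mono (ball_subset_ball (by linarith))
  have hD0 : D 0 = 0 := by rw [hD]; simp [Function.iterate_fixed hf0 q]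
  have hDnz : ∀ z ∈ ball (0 : ℂ) R, D z = 0 → z = 0 := by
    intro z hz hDz
    refine hf.nocyc z (ball_subset_ball (by linarith) hz) q hq (fun j hj => ?_)
      (sub_eq_zero.mp hDz)
    exact ball_subset_ball (by linarith) ((hitb z hz).2 j hj.le)
  have hDb : ∀ z ∈ ball (0 : ℂ) R, ‖D z‖ ≤ q * δ + ε := by
    intro z hz
    have h1 : D z = (f^[q] z - μ * z) + (μ - 1) * z := by rw [hD]; ring
    rw [h1]
    refine (norm_add_le _ _).trans ?_
    rw [norm_mul, hεq]
    have h2 := (hitb z hz).1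
    have h3 := mem_ball0.mp hz
    nlinarith
  have hballR : ball (0 : ℂ) R ∈ 𝓝 (0 : ℂ) := ball_mem_nhds _ hR0
  set g : ℂ → ℂ := dslope D 0 with hg
  have hgd : DifferentiableOn ℂ g (ball 0 R) := (Complex.differentiableOn_dslope hballR).mpr hDd
  have hDg : ∀ w, D w = w * g w := by
    intro w
    have := sub_smul_dslope D 0 w
    simp only [sub_zero, smul_eq_mul, hD0] at this
    exact this.symm
  have hfda : DifferentiableAt ℂ f 0 := hf.diff.differentiableAt (ball_mem_nhds _ one_pos)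
  have hg0 : g 0 = μ - 1 := by
    rw [hg, dslope_same]
    have h1 : HasDerivAt f lam 0 := by
      have := hfda.hasDerivAt
      rwa [hf.hd] at this
    exact ((h1.iterate 0 hf0 q).sub (hasDerivAt_id 0)).deriv
  have hg0n : ‖g 0‖ = ε := by rw [hg0, hεq]
  have hgnz : ∀ z ∈ ball (0 : ℂ) R, g z ≠ 0 := by
    intro z hz h
    by_cases hz0 : z = 0
    · rw [hz0] at h
      rw [h, norm_zero] at hg0n
      linarith
    · exact hz0 (hDnz z hz (by rw [hDg, h, mul_zero]))
  have hgb : ∀ z ∈ ball (0 : ℂ) R, ‖g z‖ ≤ 1 := by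
    intro z hz
    have h1 : MapsTo D (ball 0 R) (closedBall (D 0) (q * δ + ε)) := by
      intro w hw
      rw [hD0, mem_cball0]
      exact hDb w hw
    refine (Complex.norm_dslope_le_div_of_mapsTo_ball hDd h1 hz).trans ?_
    rw [div_le_one hR0]
    linarith
  obtain ⟨G, hGd, hG0, hGe⟩ := exists_log_ball hR0 hgd hgnz
  -- real part bound
  have hlogε : 0 < Real.log (1 / ε) := by
    apply Real.log_pos
    rw [one_div]
    exact (one_lt_inv₀ hε0).mpr (by linarith)
  have hGre : ∀ z ∈ ball (0 : ℂ) R, (G z).re ≤ L := by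
    intro z hz
    have h1 := hgb z hz
    rw [hGe z hz, norm_mul, hg0n, Complex.norm_exp] at h1
    have h2 : Real.exp (G z).re ≤ 1 / ε := by
      rw [le_div_iff₀ hε0]; linarith
    have h3 := Real.log_le_log (Real.exp_pos _) h2
    rw [Real.log_exp] at h3
    linarith
  have hL0 : 0 < L := by linarith
  have hGb : ∀ z ∈ ball (0 : ℂ) (1 - 3 * s), ‖G z‖ ≤ 2 * L / s := by
    intro z hz
    rw [mem_ball0] at hz
    have h1 := Complex.borelCaratheodory_zero hL0 hGd (fun w hw => hGre w hw) hR0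
      (mem_ball0.mpr (by linarith : ‖z‖ < R)) hG0
    refine h1.trans ?_
    have h2 : s ≤ R - ‖z‖ := by rw [hR]; linarith
    have h3 : 2 * L * ‖z‖ ≤ 2 * L := by nlinarith [norm_nonneg z]
    exact div_le_div₀ (by linarith) h3 hs0 h2
  have hGd3 : DifferentiableOn ℂ G (ball 0 (1 - 3 * s)) :=
    hGd.mono (ball_subset_ball (by linarith))
  have hGc : ∀ k, ‖tc G k‖ ≤ (2 * L / s) / (1 - 3 * s) ^ k := fun k =>
    norm_tc_le (by linarith) hGd3 hGb k
  -- the perturbation v
  set v : ℂ → ℂ := fun z => f z - lam * z with hv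
  have hvd : DifferentiableOn ℂ v (ball 0 (1 - s)) := hfd1.sub (by fun_prop)
  have hv0 : v 0 = 0 := by rw [hv]; simp [hf0]
  have hvlip : ∀ x ∈ ball (0 : ℂ) (1 - s - 3 / 4 * s), ∀ y ∈ ball (0 : ℂ) (1 - s - 3 / 4 * s),
      ‖v x - v y‖ ≤ 4 / 3 * (δ / s) * ‖x - y‖ := by
    intro x hx y hy
    have h1 := lip_bound (by linarith : 0 < 3 / 4 * s) hvd hδ hx hy
    have h2 : δ / (3 / 4 * s) = 4 / 3 * (δ / s) := by field_simp
    rwa [h2] at h1
  -- the ball of radius 1 - 4s is mapped into the ball of radius 1 - 3s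
  have hfmap : ∀ z ∈ ball (0 : ℂ) (1 - 4 * s), ‖f z‖ < 1 - 4 * s + s / 10 := by
    intro z hz
    have hz' := mem_ball0.mp hz
    have h1 : f z = v z + lam * z := by rw [hv]; ring
    rw [h1]
    refine (norm_add_le _ _).trans_lt ?_
    rw [norm_mul, hlam, one_mul]
    have h2 := hδ z (mem_ball0.mpr (by linarith))
    linarith
  have hfmap' : MapsTo f (ball 0 (1 - 4 * s)) (ball 0 R) := by
    intro z hz
    have := hfmap z hz
    rw [mem_ball0]; linarith
  set τ : ℂ → ℂ := fun z => g (f z) / g z - 1 with hτ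
  have hδs1 : δ / s ≤ 1 / 10 := by rw [div_le_iff₀ hs0]; linarith
  have hδs0 : 0 ≤ δ / s := by positivity
  have hb4R : ball (0 : ℂ) (1 - 4 * s) ⊆ ball 0 R := ball_subset_ball (by linarith)
  have hτb : ∀ z ∈ ball (0 : ℂ) (1 - 4 * s), ‖τ z‖ ≤ 10 / 3 * (δ / s) := by
    intro z hz
    by_cases hz0 : z = 0
    · rw [hz0, hτ]
      simp only [hf0]
      rw [div_self (hgnz 0 (mem_ball_self hR0))]
      simpa using hδs0
    · have hz' := mem_ball0.mp hz
      have hzp : 0 < ‖z‖ := norm_pos_iff.mpr hz0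
      have hgz := hgnz z (hb4R hz)
      have hz4 : z ∈ ball (0 : ℂ) (1 - s - 3 / 4 * s) := mem_ball0.mpr (by linarith)
      have hfq := hitb z (hb4R hz)
      have hfqn : ‖f^[q] z‖ < 1 - s - 3 / 4 * s := by
        have h1 : f^[q] z = (f^[q] z - μ * z) + μ * z := by ring
        rw [h1]
        refine (norm_add_le _ _).trans_lt ?_
        rw [norm_mul, hμn, one_mul]
        linarith [hfq.1]
      have hvz : ‖v z‖ ≤ 4 / 3 * (δ / s) * ‖z‖ := by
        have h1 := hvlip z hz4 0 (mem_ball0.mpr (by rw [norm_zero]; linarith))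
        rwa [hv0, sub_zero, sub_zero] at h1
      have hfz : f z = lam * z + v z := by rw [hv]; ring
      have hfzn : 5 / 6 * ‖z‖ ≤ ‖f z‖ := by
        have h1 : ‖lam * z‖ - ‖v z‖ ≤ ‖f z‖ := by
          rw [hfz]
          have := norm_sub_norm_le (lam * z) (-(v z))
          rw [norm_neg, sub_neg_eq_add] at this
          exact this
        rw [norm_mul, hlam, one_mul] at h1
        nlinarith
      have hfz0 : f z ≠ 0 := by
        rw [← norm_pos_iff]; nlinarith
      have hfqz : f^[q] z = z + z * g z := by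
        have := hDg z
        rw [hD] at this
        simp only at this
        linear_combination this
      have hDf : f z * g (f z) = lam * (z * g z) + (v (f^[q] z) - v z) := by
        rw [← hDg (f z), hD]
        simp only
        rw [← Function.iterate_succ_apply f q z, Function.iterate_succ_apply' f q z]
        have h1 : f (f^[q] z) = lam * f^[q] z + v (f^[q] z) := by rw [hv]; ring
        rw [h1, hfz]
        rw [hfqz]
        ring
      have hη : ‖v (f^[q] z) - v z‖ ≤ 4 / 3 * (δ / s) * (‖z‖ * ‖g z‖) := by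
        have h1 := hvlip _ (mem_ball0.mpr hfqn) z hz4
        have h2 : f^[q] z - z = z * g z := by rw [hfqz]; ring
        rwa [h2, norm_mul] at h1
      have hτe : τ z = ((v (f^[q] z) - v z) - v z * g z) / (f z * g z) := by
        rw [hτ]
        simp only
        rw [eq_div_iff (mul_ne_zero hfz0 hgz)]
        have h1 : (g (f z) / g z - 1) * (f z * g z) = f z * g (f z) - f z * g z := by
          field_simp
        rw [h1, hDf, hfz]
        ring
      rw [hτe, norm_div, norm_mul, div_le_iff₀ (mul_pos (norm_pos_iff.mpr hfz0)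
        (norm_pos_iff.mpr hgz))]
      have hgp : 0 < ‖g z‖ := norm_pos_iff.mpr hgz
      calc ‖(v (f^[q] z) - v z) - v z * g z‖ ≤ ‖v (f^[q] z) - v z‖ + ‖v z * g z‖ :=
            norm_sub_le _ _
        _ ≤ 4 / 3 * (δ / s) * (‖z‖ * ‖g z‖) + 4 / 3 * (δ / s) * ‖z‖ * ‖g z‖ := by
            rw [norm_mul]
            gcongr
        _ ≤ 10 / 3 * (δ / s) * (5 / 6 * ‖z‖ * ‖g z‖) := by
            have : 0 ≤ (δ / s) * (‖z‖ * ‖g z‖) := by positivity
            nlinarith
        _ ≤ 10 / 3 * (δ / s) * (‖f z‖ * ‖g z‖) := by gcongr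
  have hτd : DifferentiableOn ℂ τ (ball 0 (1 - 4 * s)) := by
    have h1 : DifferentiableOn ℂ (fun z => g (f z)) (ball 0 (1 - 4 * s)) :=
      hgd.comp (hf.diff.mono (ball_subset_ball (by linarith))) hfmap'
    exact (h1.div (hgd.mono hb4R) (fun z hz => hgnz z (hb4R hz))).sub_const 1
  set A : ℂ → ℂ := fun z => G (f z) - G z with hA
  have hAd : DifferentiableOn ℂ A (ball 0 (1 - 4 * s)) :=
    (hGd.comp (hf.diff.mono (ball_subset_ball (by linarith))) hfmap').sub (hGd.mono hb4R)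
  have hAb : ∀ z ∈ ball (0 : ℂ) (1 - 4 * s), ‖A z‖ ≤ 3 / 2 * (10 / 3 * (δ / s)) := by
    refine branch_bound (by linarith) hAd hτd (by rw [hA]; simp [hf0]) (by linarith) hτb ?_
    intro z hz
    have hgz := hgnz z (hb4R hz)
    have h1 := hGe z (hb4R hz)
    have h2 := hGe (f z) (hfmap' hz)
    have hg0' : g 0 ≠ 0 := hgnz 0 (mem_ball_self hR0)
    rw [hA, hτ]
    simp only
    rw [exp_sub, h1, h2]
    field_simp
    ring
  set B : ℂ → ℂ := fun z => G (lam * z) - G z with hB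
  have hlammap : ∀ {r : ℝ}, MapsTo (fun z : ℂ => lam * z) (ball 0 r) (ball 0 r) := by
    intro r z hz
    rw [mem_ball0] at hz ⊢
    rw [norm_mul, hlam, one_mul]
    exact hz
  have hBb : ∀ z ∈ ball (0 : ℂ) (1 - 4 * s), ‖B z‖ ≤ 9 * L * δ / s ^ 2 := by
    intro z hz
    have hz' := mem_ball0.mp hz
    have h1 : B z = A z + (G (lam * z) - G (f z)) := by rw [hB, hA]; ring
    have h2 : ‖G (lam * z) - G (f z)‖ ≤ (2 * L / s) / (s / 2) * ‖lam * z - f z‖ := by
      refine lip_bound (by linarith : 0 < s / 2) hGd3 hGb ?_ ?_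
      · rw [mem_ball0, norm_mul, hlam, one_mul]; linarith
      · rw [mem_ball0]; have := hfmap z hz; linarith
    have h3 : ‖lam * z - f z‖ ≤ δ := by
      rw [norm_sub_rev]
      exact hδ z (mem_ball0.mpr (by linarith))
    rw [h1]
    refine (norm_add_le _ _).trans ?_
    have h4 : (2 * L / s) / (s / 2) * ‖lam * z - f z‖ ≤ 4 * L * δ / s ^ 2 := by
      calc (2 * L / s) / (s / 2) * ‖lam * z - f z‖ ≤ (2 * L / s) / (s / 2) * δ := by gcongr
        _ = 4 * L * δ / s ^ 2 := by field_simp; ring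
    have h5 : 3 / 2 * (10 / 3 * (δ / s)) ≤ 5 * L * δ / s ^ 2 := by
      have h6 : 3 / 2 * (10 / 3 * (δ / s)) = 5 * δ * s / s ^ 2 := by field_simp; ring
      rw [h6]
      gcongr ?_ / _
      have h7 : δ * s ≤ δ * L := by gcongr; linarith
      linarith
    calc ‖A z‖ + ‖G (lam * z) - G (f z)‖ ≤ 5 * L * δ / s ^ 2 + 4 * L * δ / s ^ 2 :=
          add_le_add ((hAb z hz).trans h5) (h2.trans h4)
      _ = 9 * L * δ / s ^ 2 := by ring
  have hBd : DifferentiableOn ℂ B (ball 0 (1 - 4 * s)) :=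
    ((hGd.mono hb4R).comp (by fun_prop) hlammap).sub (hGd.mono hb4R)
  have hBc : ∀ k, ‖tc B k‖ ≤ (9 * L * δ / s ^ 2) / (1 - 4 * s) ^ k := fun k =>
    norm_tc_le (by linarith) hBd hBb k
  have hGan : AnalyticAt ℂ G 0 := hGd.analyticAt hballR
  have hBG : ∀ k, tc B k = (lam ^ k - 1) * tc G k := by
    intro k
    have h1 : AnalyticAt ℂ (fun z : ℂ => G (lam * z)) 0 := by
      refine AnalyticAt.fun_comp ?_ (by fun_prop)
      simpa using hGan
    rw [hB, tc_sub h1 hGan, tc_comp_mul hGan]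
    ring
  set K : ℝ := 9 * L * δ / (c * s ^ 2) + 2 * L / s * ((1 - s) ^ q + (1 - s) ^ N1) with hK
  have h1s : (0 : ℝ) < 1 - s := by linarith
  have hKterm : ∀ k, 1 ≤ k → ‖tc G k‖ * (1 - 6 * s) ^ k ≤ K * (1 - s) ^ k := by
    intro k hk
    have hp1 : 0 ≤ 9 * L * δ / (c * s ^ 2) := by positivity
    have hp2 : 0 ≤ 2 * L / s * (1 - s) ^ q := by positivity
    have hp3 : 0 ≤ 2 * L / s * (1 - s) ^ N1 := by positivity
    have hKe : K = 9 * L * δ / (c * s ^ 2) + 2 * L / s * (1 - s) ^ q + 2 * L / s * (1 - s) ^ N1 := by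
      rw [hK]; ring
    have h6 : (0 : ℝ) ≤ 1 - 6 * s := by linarith
    -- generic bound for large exponents
    have hbig : ∀ m, m ≤ k → ‖tc G k‖ * (1 - 6 * s) ^ k ≤ 2 * L / s * (1 - s) ^ m * (1 - s) ^ k := by
      intro m hm
      have h3 : (0 : ℝ) < (1 - 3 * s) ^ k := pow_pos (by linarith) k
      have h4 : (1 - 6 * s) ^ k ≤ (1 - 3 * s) ^ k * ((1 - s) ^ k * (1 - s) ^ k) := by
        rw [← mul_pow, ← mul_pow]
        apply pow_le_pow_left₀ h6
        nlinarith
      have h5 : (1 - s) ^ k ≤ (1 - s) ^ m := pow_le_pow_of_le_one h1s.le (by linarith) hm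
      calc ‖tc G k‖ * (1 - 6 * s) ^ k
          ≤ (2 * L / s) / (1 - 3 * s) ^ k * ((1 - 3 * s) ^ k * ((1 - s) ^ k * (1 - s) ^ k)) := by
            gcongr
            exact hGc k
        _ = 2 * L / s * (1 - s) ^ k * (1 - s) ^ k := by rw [cancel_aux _ _ _ h3]; ring
        _ ≤ 2 * L / s * (1 - s) ^ m * (1 - s) ^ k := by gcongr
    by_cases hk1 : k < N1
    · by_cases hqk : q ∣ k
      · have h3 := hbig q (Nat.le_of_dvd (by omega) hqk)
        refine h3.trans ?_
        rw [hKe]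
        gcongr
        linarith
      · have h3 := hnr k hk hk1 hqk
        have h4 := hBc k
        rw [hBG, norm_mul] at h4
        have h5 : c * ‖tc G k‖ ≤ (9 * L * δ / s ^ 2) / (1 - 4 * s) ^ k :=
          (mul_le_mul_of_nonneg_right h3 (norm_nonneg _)).trans h4
        have h7 : ‖tc G k‖ ≤ (9 * L * δ / (c * s ^ 2)) / (1 - 4 * s) ^ k := by
          rw [← le_div_iff₀' hc] at h5
          refine h5.trans (le_of_eq ?_)
          field_simp
        have h8 : (0 : ℝ) < (1 - 4 * s) ^ k := pow_pos (by linarith) k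
        have h9 : (1 - 6 * s) ^ k ≤ (1 - 4 * s) ^ k * (1 - s) ^ k := by
          rw [← mul_pow]
          apply pow_le_pow_left₀ h6
          nlinarith
        calc ‖tc G k‖ * (1 - 6 * s) ^ k
            ≤ (9 * L * δ / (c * s ^ 2)) / (1 - 4 * s) ^ k * ((1 - 4 * s) ^ k * (1 - s) ^ k) := by
              gcongr
          _ = 9 * L * δ / (c * s ^ 2) * (1 - s) ^ k := cancel_aux _ _ _ h8
          _ ≤ K * (1 - s) ^ k := by
              rw [hKe]
              gcongr
              linarith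
    · have h3 := hbig N1 (by omega)
      refine h3.trans ?_
      rw [hKe]
      gcongr
      linarith
  have hK0 : 0 ≤ K := by rw [hK]; positivity
  have hGsmall : ∀ z ∈ ball (0 : ℂ) (1 - 6 * s), ‖G z‖ ≤ κ := by
    intro z hz
    have hz' := mem_ball0.mp hz
    have h1 := hasSum_tc hGd (ball_subset_ball (by linarith : (1 - 6 * s) ≤ R) hz)
    have h2 : HasSum (fun k : ℕ => K * (1 - s) ^ k) (K * (1 - (1 - s))⁻¹) :=
      (hasSum_geometric_of_lt_one h1s.le (by linarith)).mul_left K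
    have h3 : ∀ k : ℕ, ‖tc G k * z ^ k‖ ≤ K * (1 - s) ^ k := by
      intro k
      rcases Nat.eq_zero_or_pos k with h | h
      · subst h
        rw [tc_zero, hG0]
        simpa using hK0
      · rw [norm_mul, norm_pow]
        refine le_trans ?_ (hKterm k h)
        gcongr
    have h4 : ‖G z‖ ≤ K * (1 - (1 - s))⁻¹ := by
      rw [← h1.tsum_eq]
      exact tsum_of_norm_bounded h2 h3
    refine h4.trans (le_trans (le_of_eq ?_) hκ)
    rw [sub_sub_cancel]
    rfl
  intro z hz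
  have hzR : z ∈ ball (0 : ℂ) R := ball_subset_ball (by linarith) hz
  have h1 := hGsmall z hz
  have h2 := hGe z hzR
  have h3 : f^[q] z - μ * z = z * (g z - g 0) := by
    have h4 := hDg z
    rw [hD] at h4
    simp only at h4
    rw [hg0]
    linear_combination h4
  rw [h3, norm_mul, h2]
  have h4 : g 0 * exp (G z) - g 0 = g 0 * (exp (G z) - 1) := by ring
  rw [h4, norm_mul, hg0n]
  have h5 := Complex.norm_exp_sub_one_le (h1.trans hκ1)
  calc ‖z‖ * (ε * ‖exp (G z) - 1‖) ≤ ‖z‖ * (ε * (2 * κ)) := by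
        gcongr
        linarith
    _ = 2 * κ * ε * ‖z‖ := by ring

end Pool.Agent.TH231
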