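import Mathlib
import Pool.Agent.TH231.Conj3
import Pool.Agent.TH231.Star
import Pool.Agent.TH231.Arith

set_option autoImplicit false

namespace Pool.Agent.TH231

open Metric Filter Topology Complex Asymptotics Set

lemma tendsto_pow_exp_half (n : ℕ) :
    Tendsto (fun x : ℝ => x ^ n * Real.exp (-(x / 2))) atTop (𝓝 0) := by
  have h1 := Real.tendsto_pow_mul_exp_neg_atTop_nhds_zero n
  have h2 : Tendsto (fun x : ℝ => x / 2) atTop atTop :=
    tendsto_id.atTop_div_const (by norm_num)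
  have h3 := (h1.comp h2).const_mul ((2 : ℝ) ^ n)
  rw [mul_zero] at h3
  refine h3.congr ?_
  intro x
  simp only [Function.comp_apply]
  rw [div_pow]
  field_simp

lemma eventually_small (C k0 : ℕ) :
    ∀ᶠ x : ℝ in atTop, 1440 * (C * x ^ (2 * k0) + 1) * x ^ 7 * Real.exp (-(x / 2)) ≤ 1 := by
  have h1 := (tendsto_pow_exp_half (2 * k0 + 7)).const_mul (1440 * (C : ℝ))
  have h2 := (tendsto_pow_exp_half 7).const_mul (1440 : ℝ)
  have h3 := h1.add h2
  rw [mul_zero, mul_zero, add_zero] at h3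
  filter_upwards [h3.eventually (ge_mem_nhds (show (0 : ℝ) < 1 by norm_num))] with x hx
  refine le_trans (le_of_eq ?_) hx
  rw [pow_add]
  ring

lemma exists_Q0 (C k0 : ℕ) : ∃ Q0 : ℕ, ∀ Q : ℕ, Q0 ≤ Q →
    100 ≤ Real.sqrt Q ∧
      1440 * (C * Real.sqrt Q ^ (2 * k0) + 1) * Real.sqrt Q ^ 7 * Real.exp (-(Real.sqrt Q / 2)) ≤ 1 := by
  have h1 : Tendsto (fun Q : ℕ => Real.sqrt Q) atTop atTop :=
    Real.tendsto_sqrt_atTop.comp tendsto_natCast_atTop_atTop
  have h2 := h1.eventually ((eventually_small C k0).and (eventually_ge_atTop 100))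
  obtain ⟨Q0, hQ0⟩ := eventually_atTop.mp h2
  exact ⟨Q0, fun Q hQ => ⟨(hQ0 Q hQ).2, (hQ0 Q hQ).1⟩⟩

/-- the conclusion of one stage -/
def StageOut (lam : ℂ) (N' : ℕ) (s : ℝ) (f h g : ℂ → ℂ) : Prop :=
  Differentiable ℂ h ∧ MapsTo h (ball 0 1) (ball 0 1) ∧
    InjOn h (ball 0 1) ∧ h 0 = 0 ∧ deriv h 0 = ((1 - 11 * s : ℝ) : ℂ) ∧
    (∀ z ∈ ball (0 : ℂ) 1, ‖h z - z‖ ≤ 12 * s) ∧ St lam N' g ∧
    (∀ z ∈ ball (0 : ℂ) 1, f (h z) = h (g z))

theorem stage {θ : ℝ} (hθ : Irrational θ) {lam : ℂ}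
    (hlam : lam = Complex.exp (2 * (Real.pi : ℂ) * Complex.I * (θ : ℂ))) (C k0 : ℕ)
    (hdio : ∀ q : ℕ, 1 ≤ q → Real.exp (-((C : ℝ) * (q : ℝ) ^ k0)) ≤ ‖lam ^ q - 1‖)
    {Q Q' : ℕ} (hBA : BA θ Q Q') {x : ℝ} (hx : x = Real.sqrt Q) (hx100 : 100 ≤ x)
    (hsmall : 1440 * (C * x ^ (2 * k0) + 1) * x ^ 7 * Real.exp (-(x / 2)) ≤ 1)
    {f : ℂ → ℂ} (hf : St lam (Q / 2) f) :
    ∃ h g : ℂ → ℂ, StageOut lam (Q' / 2) (1 / x) f h g := by
  have hlam1 : ‖lam‖ = 1 := by
    rw [hlam]
    have : 2 * (Real.pi : ℂ) * Complex.I * (θ : ℂ) = ((2 * Real.pi * θ : ℝ) : ℂ) * Complex.I := by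
      push_cast; ring
    rw [this, Complex.norm_exp_ofReal_mul_I]
  have hQ1 := hBA.pos
  have hQlt := hBA.lt
  have hx0 : 0 < x := by linarith
  have hx1 : 1 ≤ x := by linarith
  have hxx : x ^ 2 = Q := by rw [hx]; exact Real.sq_sqrt (Nat.cast_nonneg Q)
  have hQr : (0 : ℝ) < Q := by exact_mod_cast hQ1
  set s : ℝ := 1 / x with hs
  have hs0 : 0 < s := by positivity
  have hs100 : s ≤ 1 / 100 := by
    rw [hs]; exact one_div_le_one_div_of_le (by norm_num) hx100
  have hsx : s * x = 1 := by rw [hs]; field_simp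
  set δ : ℝ := Real.exp (-(x / 2)) with hδdef
  have hδ0 : 0 < δ := Real.exp_pos _
  set Lb : ℝ := C * x ^ (2 * k0) + 1 with hLb
  have hLb1 : 1 ≤ Lb := by
    have : 0 ≤ (C : ℝ) * x ^ (2 * k0) := by positivity
    linarith
  -- bound on f - lam z
  have hδ : ∀ z ∈ ball (0 : ℂ) (1 - s), ‖f z - lam * z‖ ≤ δ := by
    intro z hz
    have hz' := mem_ball0.mp hz
    have h1 := hf.bd z (mem_ball0.mpr (by linarith))
    refine h1.trans ?_
    have h2 : ‖z‖ ^ (Q / 2 + 1) ≤ (1 - s) ^ (Q / 2 + 1) :=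
      pow_le_pow_left₀ (norm_nonneg _) hz'.le _
    have h3 : (1 - s) ^ (Q / 2 + 1) ≤ Real.exp (-s) ^ (Q / 2 + 1) := by
      apply pow_le_pow_left₀ (by linarith)
      have := Real.add_one_le_exp (-s)
      linarith
    have h4 : Real.exp (-s) ^ (Q / 2 + 1) ≤ δ := by
      rw [← Real.exp_nat_mul, hδdef]
      apply Real.exp_le_exp.mpr
      have h5 : (Q : ℝ) / 2 ≤ ((Q / 2 + 1 : ℕ) : ℝ) := by
        have : Q ≤ 2 * (Q / 2 + 1) := by omega
        have : (Q : ℝ) ≤ 2 * ((Q / 2 + 1 : ℕ) : ℝ) := by exact_mod_cast this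
        linarith
      have h6 : x / 2 = s * ((Q : ℝ) / 2) := by
        rw [← hxx, hs]; field_simp
      rw [h6]
      nlinarith
    have h5 : 0 ≤ ‖z‖ ^ (Q / 2 + 1) := by positivity
    linarith
  have hx7 : 1 ≤ x ^ 7 := one_le_pow₀ hx1
  -- consequences of hsmall
  have hsm : ∀ a : ℝ, 0 ≤ a → a ≤ 1440 → ∀ n : ℕ, n ≤ 7 → a * x ^ n * δ ≤ 1 := by
    intro a ha0 ha n hn
    have h1 : x ^ n ≤ x ^ 7 := pow_le_pow_right₀ hx1 hn
    calc a * x ^ n * δ ≤ 1440 * x ^ 7 * δ := by gcongr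
      _ ≤ 1440 * Lb * x ^ 7 * δ := by
        have : 0 ≤ x ^ 7 * δ := by positivity
        nlinarith
      _ ≤ 1 := hsmall
  have hqδ : (Q : ℝ) * δ ≤ s / 10 := by
    have h1 := hsm 10 (by norm_num) (by norm_num) 3 (by norm_num)
    rw [← hxx]
    rw [le_div_iff₀ (by norm_num : (0 : ℝ) < 10), hs, le_div_iff₀ hx0]
    calc x ^ 2 * δ * 10 * x = 10 * x ^ 3 * δ := by ring
      _ ≤ 1 := h1
  -- ε
  set ε : ℝ := ‖lam ^ Q - 1‖ with hε
  have hdd0 : 0 < dd θ Q := dd_pos hθ hQ1
  have hεlo : 4 * dd θ Q ≤ ε := by rw [hε, hlam]; exact norm_pow_sub_one_ge Q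
  have hεhi : ε ≤ 2 * Real.pi * dd θ Q := by rw [hε, hlam]; exact norm_pow_sub_one_le Q
  have hε0 : 0 < ε := by linarith
  have hπ : Real.pi < 4 := Real.pi_lt_four
  have hπ0 : 0 < Real.pi := Real.pi_pos
  have hres : ∀ k, 1 ≤ k → k < Q' / 2 → ε / 2 ≤ ‖(lam ^ Q) ^ k - 1‖ := by
    intro k hk1 hk2
    rw [← pow_mul, hlam]
    refine le_trans ?_ (norm_pow_sub_one_ge (Q * k))
    have h1 := hBA.mult (k := k) (by omega)
    have h2 : (1 : ℝ) ≤ k := by exact_mod_cast hk1
    have h3 : dd θ Q ≤ dd θ (Q * k) := by nlinarith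
    nlinarith
  -- the key estimate
  have hkey : ∀ z ∈ ball (0 : ℂ) (1 - 6 * s), ‖f^[Q] z - lam ^ Q * z‖
      ≤ ((ε / 2) * s ^ 2 / 40) * ‖z‖ := by
    have hss : s ^ 2 = 1 / x ^ 2 := by rw [hs]; field_simp
    rcases Nat.lt_or_ge Q' (2 * Q + 2) with hcase | hcase
    · -- non-Liouville case
      have hεQ : 1 / (2 * x ^ 2) ≤ ε := by
        have h1 := hBA.lower
        have h2 : (Q' : ℝ) ≤ 2 * Q + 2 := by exact_mod_cast hcase.le
        have h3 : (0 : ℝ) < Q' := by exact_mod_cast (by omega : 0 < Q')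
        have h4 : 1 / (2 * x ^ 2) ≤ 4 * (1 / (2 * (Q' : ℝ))) := by
          rw [hxx, mul_one_div, div_le_div_iff₀ (by positivity) (by positivity)]
          have h5 : (1 : ℝ) ≤ Q := by exact_mod_cast hQ1
          nlinarith
        linarith
      have hFd : DifferentiableOn ℂ (fun z => f^[Q] z - lam ^ Q * z) (ball 0 (1 - 2 * s)) := by
        have hfd1 : DifferentiableOn ℂ f (ball 0 (1 - s)) :=
          hf.diff.mono (ball_subset_ball (by linarith))
        have h1 : DifferentiableOn ℂ (f^[Q]) (ball 0 (1 - 2 * s)) :=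
          (iter_diff hlam1 hδ0.le hfd1 hδ Q).mono (ball_subset_ball (by linarith))
        exact h1.sub (by fun_prop)
      have hFb : ∀ z ∈ ball (0 : ℂ) (1 - 2 * s), ‖f^[Q] z - lam ^ Q * z‖ ≤ Q * δ := by
        intro z hz
        have := mem_ball0.mp hz
        exact (iter_bound hlam1 hδ0.le hδ Q z (by linarith)).1
      intro z hz
      have hz2 : z ∈ ball (0 : ℂ) (1 - 2 * s) := ball_subset_ball (by linarith) hz
      have h0 : f^[Q] 0 - lam ^ Q * 0 = 0 := by
        rw [Function.iterate_fixed hf.zero]; simp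
      have h1 := Complex.dist_le_div_mul_dist_of_mapsTo_ball (R₂ := Q * δ) hFd
        (by
          intro w hw
          rw [h0, mem_cball0]
          exact hFb w hw) hz2
      simp only [h0, dist_zero_right] at h1
      refine h1.trans ?_
      refine mul_le_mul_of_nonneg_right ?_ (norm_nonneg _)
      have h2 := hsm 320 (by norm_num) (by norm_num) 6 (by norm_num)
      have h3 : (Q : ℝ) * δ / (1 - 2 * s) ≤ 2 * (x ^ 2 * δ) := by
        rw [div_le_iff₀ (by linarith), hxx]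
        have : 0 ≤ (Q : ℝ) * δ := by positivity
        nlinarith
      refine h3.trans ?_
      have h4 : (1 / (2 * x ^ 2)) / 2 * (1 / x ^ 2) / 40 ≤ ε / 2 * s ^ 2 / 40 := by
        rw [hss]; gcongr
      refine le_trans ?_ h4
      have h5 : (1 / (2 * x ^ 2)) / 2 * (1 / x ^ 2) / 40 = 1 / (160 * x ^ 4) := by
        field_simp; norm_num
      rw [h5, le_div_iff₀ (by positivity)]
      calc 2 * (x ^ 2 * δ) * (160 * x ^ 4) = 320 * x ^ 6 * δ := by ring
        _ ≤ 1 := h2
    · -- Liouville case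
      have hε4 : ε ≤ 1 / 4 := by
        have h1 := hBA.dirichlet
        have h2 : (2 * Q : ℝ) ≤ Q' := by
          have : 2 * Q ≤ Q' := by omega
          exact_mod_cast this
        have h3 : dd θ Q ≤ 1 / (2 * Q) := by
          refine h1.trans ?_
          exact one_div_le_one_div_of_le (by positivity) h2
        have h4 : (100 : ℝ) ^ 2 ≤ Q := by rw [← hxx]; gcongr
        have h5 : dd θ Q ≤ 1 / (2 * 100 ^ 2) := by
          refine h3.trans ?_
          exact one_div_le_one_div_of_le (by norm_num) (by linarith)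
        nlinarith
      set κ : ℝ := 1 / (160 * x ^ 2) with hκdef
      have hκ1 : κ ≤ 1 := by
        rw [hκdef, div_le_one (by positivity)]
        nlinarith
      have hL : Real.log (1 / ε) ≤ Lb := by
        have h1 := hdio Q hQ1
        rw [← hε] at h1
        have h2 : 1 / ε ≤ Real.exp ((C : ℝ) * (Q : ℝ) ^ k0) := by
          rw [div_le_iff₀ hε0]
          have h3 := mul_le_mul_of_nonneg_left h1 (Real.exp_pos ((C : ℝ) * (Q : ℝ) ^ k0)).le
          rw [← Real.exp_add, add_neg_cancel, Real.exp_zero] at h3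
          exact h3
        have h3 := Real.log_le_log (by positivity) h2
        rw [Real.log_exp] at h3
        refine h3.trans ?_
        rw [hLb, pow_mul, hxx]
        linarith
      have hmain := star_step hlam1 hf (q := Q) (N1 := Q' / 2) hQ1 (s := s) (δ := δ) (L := Lb)
        (c := 2 / Q) (ε := ε) hs0 hs100 hδ0.le hδ hqδ hε0 hε4 hε.symm hL hLb1 (by positivity)
        (by
          rw [div_le_one hQr, ← hxx]
          nlinarith)
        (by
          intro k hk1 hk2 hk3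
          rw [hlam]
          refine le_trans ?_ (norm_pow_sub_one_ge k)
          have h1 := hBA.nonres hθ (k := k) (by omega) hk3
          have h2 : (2 : ℝ) / Q = 4 * (1 / (2 * Q)) := by field_simp; norm_num
          rw [h2]
          linarith)
        κ ?_ hκ1
      · intro z hz
        refine (hmain z hz).trans (le_of_eq ?_)
        rw [hκdef, hss]
        field_simp
        ring
      · -- numerical estimate
        have hp : ∀ m : ℕ, Q ≤ m → (1 - s) ^ m ≤ δ := by
          intro m hm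
          have h3 : (1 - s) ^ m ≤ (1 - s) ^ Q :=
            pow_le_pow_of_le_one (by linarith) (by linarith) hm
          refine h3.trans ?_
          have h4 : (1 - s) ^ Q ≤ Real.exp (-s) ^ Q := by
            apply pow_le_pow_left₀ (by linarith)
            have := Real.add_one_le_exp (-s)
            linarith
          refine h4.trans ?_
          rw [← Real.exp_nat_mul, hδdef]
          apply Real.exp_le_exp.mpr
          have h6 : (Q : ℝ) * -s = -x := by
            rw [← hxx, hs]; field_simp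
          rw [h6]
          linarith
        have h1 := hp Q le_rfl
        have h2 := hp (Q' / 2) (by omega)
        have hLb0 : 0 < Lb := by linarith
        have h3 : (9 * Lb * δ / (2 / Q * s ^ 2) + 2 * Lb / s * ((1 - s) ^ Q + (1 - s) ^ (Q' / 2))) / s
            ≤ (9 * Lb * δ / (2 / Q * s ^ 2) + 2 * Lb / s * (δ + δ)) / s := by
          gcongr
        refine h3.trans ?_
        have h4 : (9 * Lb * δ / (2 / Q * s ^ 2) + 2 * Lb / s * (δ + δ)) / s
            = Lb * δ * (9 / 2 * x ^ 5 + 4 * x ^ 2) := by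
          rw [← hxx, hs]
          field_simp
          ring
        rw [h4, hκdef, le_div_iff₀ (by positivity)]
        have h5 : x ^ 2 ≤ x ^ 5 := pow_le_pow_right₀ hx1 (by norm_num)
        calc Lb * δ * (9 / 2 * x ^ 5 + 4 * x ^ 2) * (160 * x ^ 2)
            ≤ Lb * δ * (9 * x ^ 5) * (160 * x ^ 2) := by
              gcongr
              nlinarith [pow_pos hx0 5]
          _ = 1440 * Lb * x ^ 7 * δ := by ring
          _ ≤ 1 := hsmall
  obtain ⟨h, g, h1, h2, h3, h4, h5, h6, h7, h8⟩ := conj_step hlam1 hf (q := Q) (N := Q' / 2) hQ1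
    hs0 hs100 hδ0.le hδ hqδ (M := (ε / 2) * s ^ 2 / 40) (ω := ε / 2) (by positivity) hkey
    (by positivity) hres le_rfl
  exact ⟨h, g, h1, h2, h3, h4, h5, h6, h7, h8⟩

end Pool.Agent.TH231
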