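import Mathlib
import Pool.Agent.TH231.Stage

set_option autoImplicit false

namespace Pool.Agent.TH231

open Metric Filter Topology Complex Asymptotics Set

lemma dep_seq {α β : Type*} (P : ℕ → α → Prop) (R : ℕ → α → β → α → Prop) (a0 : α) (h0 : P 0 a0)
    (hstep : ∀ n a, P n a → ∃ (b : β) (a' : α), R n a b a' ∧ P (n + 1) a') :
    ∃ (a : ℕ → α) (b : ℕ → β), a 0 = a0 ∧ ∀ n, P n (a n) ∧ R n (a n) (b n) (a (n + 1)) := by
  classical
  let T := Σ' n : ℕ, {x : α // P n x}
  let F : (n : ℕ) → {x : α // P n x} := fun n =>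
    Nat.rec (motive := fun n => {x : α // P n x}) ⟨a0, h0⟩
      (fun n x => ⟨(hstep n x.1 x.2).choose_spec.choose,
        (hstep n x.1 x.2).choose_spec.choose_spec.2⟩) n
  refine ⟨fun n => (F n).1, fun n => (hstep n (F n).1 (F n).2).choose, rfl, fun n => ⟨(F n).2, ?_⟩⟩
  exact (hstep n (F n).1 (F n).2).choose_spec.choose_spec.1

lemma sum_bound {s : ℕ → ℝ} (hs0 : ∀ n, 0 ≤ s n) (hs : ∀ n, s (n + 2) ≤ 3 / 4 * s n) (M : ℕ) :
    ∑ m ∈ Finset.range M, s m ≤ 4 * (s 0 + s 1) := by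
  have h : ∀ M : ℕ, ∑ m ∈ Finset.range M, s m + 4 * (s M + s (M + 1)) ≤ 4 * (s 0 + s 1) := by
    intro M
    induction M with
    | zero => simp
    | succ M ih =>
      rw [Finset.sum_range_succ]
      have := hs M
      linarith
  have h1 := h M
  have h2 := hs0 M
  have h3 := hs0 (M + 1)
  linarith

theorem kam_iterate {θ : ℝ} (hθ : Irrational θ) {lam : ℂ}
    (hlam : lam = Complex.exp (2 * (Real.pi : ℂ) * Complex.I * (θ : ℂ))) (C k0 : ℕ)
    (hdio : ∀ q : ℕ, 1 ≤ q → Real.exp (-((C : ℝ) * (q : ℝ) ^ k0)) ≤ ‖lam ^ q - 1‖) :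
    ∃ N : ℕ, ∀ f0 : ℂ → ℂ, St lam N f0 → ∃ Φ : ℂ → ℂ, DifferentiableOn ℂ Φ (ball 0 (1 / 2)) ∧
      Φ 0 = 0 ∧ deriv Φ 0 ≠ 0 ∧ ∀ z ∈ ball (0 : ℂ) (1 / 2), f0 (Φ z) = Φ (lam * z) := by
  obtain ⟨Qs, hQs⟩ := exists_seq hθ
  obtain ⟨Q0, hQ0⟩ := exists_Q0 C k0
  have hgrow : ∀ n, n + 1 ≤ Qs n := by
    intro n
    induction n with
    | zero => exact (hQs 0).pos
    | succ n ih => have := (hQs n).lt; omega
  have hmono : ∀ n m, Qs n ≤ Qs (n + m) := by
    intro n m
    induction m with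
    | zero => exact le_rfl
    | succ m ih => have := (hQs (n + m)).lt; rw [← add_assoc]; omega
  set n0 : ℕ := max Q0 30976 with hn0
  have hn0Q : ∀ m, Q0 ≤ Qs (n0 + m) ∧ 30976 ≤ Qs (n0 + m) := by
    intro m
    have h1 := hgrow n0
    have h2 := hmono n0 m
    have h3 : Q0 ≤ n0 := le_max_left _ _
    have h4 : 30976 ≤ n0 := le_max_right _ _
    constructor <;> omega
  have hlam1 : ‖lam‖ = 1 := by
    rw [hlam]
    have : 2 * (Real.pi : ℂ) * Complex.I * (θ : ℂ) = ((2 * Real.pi * θ : ℝ) : ℂ) * Complex.I := by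
      push_cast; ring
    rw [this, Complex.norm_exp_ofReal_mul_I]
  refine ⟨Qs n0 / 2, fun f0 hf0 => ?_⟩
  obtain ⟨f, h, hf00, hfh⟩ := dep_seq (α := ℂ → ℂ) (β := ℂ → ℂ)
    (fun m a => St lam (Qs (n0 + m) / 2) a)
    (fun m a b a' => StageOut lam (Qs (n0 + m + 1) / 2) (1 / Real.sqrt (Qs (n0 + m))) a b a')
    f0 hf0 (by
      intro m a ha
      obtain ⟨hx1, hx2⟩ := hQ0 (Qs (n0 + m)) (hn0Q m).1
      obtain ⟨b, a', hba⟩ := stage hθ hlam C k0 hdio (hQs (n0 + m)) rfl hx1 hx2 ha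
      exact ⟨b, a', hba, hba.2.2.2.2.2.2.1⟩)
  set s : ℕ → ℝ := fun m => 1 / Real.sqrt (Qs (n0 + m)) with hs
  have hsq176 : ∀ m, 176 ≤ Real.sqrt (Qs (n0 + m)) := by
    intro m
    have h1 : (30976 : ℝ) ≤ (Qs (n0 + m) : ℝ) := by exact_mod_cast (hn0Q m).2
    have h2 : Real.sqrt 30976 = 176 := by
      rw [show (30976 : ℝ) = 176 ^ 2 by norm_num]
      exact Real.sqrt_sq (by norm_num)
    rw [← h2]
    exact Real.sqrt_le_sqrt h1
  have hs0 : ∀ m, 0 < s m := by
    intro m
    have := hsq176 m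
    simp only [hs]
    positivity
  have hs176 : ∀ m, s m ≤ 1 / 176 := by
    intro m
    simp only [hs]
    exact one_div_le_one_div_of_le (by norm_num) (hsq176 m)
  have hsdec : ∀ m, s (m + 2) ≤ 3 / 4 * s m := by
    intro m
    simp only [hs]
    have h1 := (hQs (n0 + m)).growth hθ (hQs (n0 + m + 1))
    have h2 : (2 : ℝ) * Qs (n0 + m) ≤ Qs (n0 + (m + 2)) := by exact_mod_cast h1
    have h3 : 4 / 3 * Real.sqrt (Qs (n0 + m)) ≤ Real.sqrt (Qs (n0 + (m + 2))) := by
      apply Real.le_sqrt_of_sq_le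
      rw [mul_pow, Real.sq_sqrt (Nat.cast_nonneg _)]
      have h4 : (0 : ℝ) ≤ Qs (n0 + m) := Nat.cast_nonneg _
      linarith
    have h4 := hsq176 m
    have h5 := hsq176 (m + 2)
    rw [mul_one_div, div_le_div_iff₀ (by linarith) (by linarith)]
    linarith
  have hsum : ∀ M, ∑ m ∈ Finset.range M, s m ≤ 1 / 22 := by
    intro M
    have h1 := sum_bound (fun n => (hs0 n).le) hsdec M
    have h2 := hs176 0
    have h3 := hs176 1
    linarith
  have hsummable : Summable s := by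
    refine summable_of_sum_range_le (fun n => (hs0 n).le) hsum
  -- the compositions
  let Φ : ℕ → ℂ → ℂ := fun m => Nat.rec (motive := fun _ => ℂ → ℂ) (fun z => z)
    (fun m φ => fun z => φ (h m z)) m
  have hΦ0 : Φ 0 = fun z => z := rfl
  have hΦs : ∀ m, Φ (m + 1) = fun z => Φ m (h m z) := fun m => rfl
  have hprops : ∀ m, Differentiable ℂ (Φ m) ∧ MapsTo (Φ m) (ball 0 1) (ball 0 1) ∧ Φ m 0 = 0 ∧
      (∃ p : ℝ, deriv (Φ m) 0 = (p : ℂ) ∧ 1 - 11 * ∑ i ∈ Finset.range m, s i ≤ p ∧ p ≤ 1) ∧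
      ∀ z ∈ ball (0 : ℂ) 1, f0 (Φ m z) = Φ m (f m z) := by
    intro m
    induction m with
    | zero =>
      rw [hΦ0]
      refine ⟨differentiable_id, fun z hz => hz, rfl, ⟨1, ?_, by simp, le_rfl⟩, ?_⟩
      · simp
      · intro z _
        show f0 z = f 0 z
        rw [hf00]
    | succ m ih =>
      obtain ⟨i1, i2, i3, ⟨p, i4, i5, i6⟩, i7⟩ := ih
      obtain ⟨o1, o2, o3, o4, o5, o6, o7, o8⟩ := (hfh m).2
      rw [hΦs]
      refine ⟨i1.comp o1, i2.comp o2, by simp only [o4, i3], ?_, ?_⟩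
      · refine ⟨p * (1 - 11 * s m), ?_, ?_, ?_⟩
        · have h1 : HasDerivAt (Φ m) (p : ℂ) (h m 0) := by
            rw [o4, ← i4]; exact (i1 0).hasDerivAt
          have h2 : HasDerivAt (h m) (((1 - 11 * s m : ℝ)) : ℂ) 0 := by
            have := (o1 0).hasDerivAt
            rw [o5] at this
            exact this
          have h3 := (h1.comp (0 : ℂ) h2).deriv
          have h4 : (Φ m ∘ h m) = fun z => Φ m (h m z) := rfl
          rw [h4] at h3
          rw [h3]
          push_cast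
          ring
        · rw [Finset.sum_range_succ]
          have h1 := hs0 m
          have h2 := hs176 m
          nlinarith
        · have h1 := hs0 m
          have h2 := hs176 m
          have h3 := hsum m
          nlinarith
      · intro z hz
        show f0 (Φ m (h m z)) = Φ m (h m (f (m + 1) z))
        rw [i7 _ (o2 hz), o8 z hz]
  -- uniform convergence on the half disc
  have hhalf : ball (0 : ℂ) (1 / 2) ⊆ ball 0 1 := ball_subset_ball (by norm_num)
  have hLip : ∀ m, ∀ x ∈ ball (0 : ℂ) (1 - 1 / 4), ∀ y ∈ ball (0 : ℂ) (1 - 1 / 4),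
      ‖Φ m x - Φ m y‖ ≤ 4 * ‖x - y‖ := by
    intro m x hx y hy
    have h1 := lip_bound (by norm_num : (0 : ℝ) < 1 / 4) (hprops m).1.differentiableOn
      (b := 1) (R := 1) (fun z hz => (mem_ball0.mp ((hprops m).2.1 hz)).le) hx hy
    have h2 : (1 : ℝ) / (1 / 4) = 4 := by norm_num
    rwa [h2] at h1
  have hdiff : ∀ m, ∀ z ∈ ball (0 : ℂ) (1 / 2), ‖Φ (m + 1) z - Φ m z‖ ≤ 48 * s m := by
    intro m z hz
    have h1 := (hfh m).2.2.2.2.2.2.1 z (hhalf hz)
    have hz' := mem_ball0.mp hz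
    have h2 : h m z ∈ ball (0 : ℂ) (1 - 1 / 4) := by
      rw [mem_ball0]
      have h3 : h m z = (h m z - z) + z := by ring
      rw [h3]
      refine (norm_add_le _ _).trans_lt ?_
      have := hs176 m
      linarith
    have h3 := hLip m _ h2 z (mem_ball0.mpr (by linarith))
    rw [hΦs]
    refine h3.trans ?_
    linarith
  have hunif : TendstoUniformlyOn Φ (fun z => z + ∑' m, (Φ (m + 1) z - Φ m z)) atTop
      (ball 0 (1 / 2)) := by
    have h1 := tendstoUniformlyOn_tsum_nat (hsummable.mul_left 48) hdiff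
    have h2 : ∀ M z, z + ∑ m ∈ Finset.range M, (Φ (m + 1) z - Φ m z) = Φ M z := by
      intro M z
      rw [Finset.sum_range_sub (fun m => Φ m z) M]
      rw [hΦ0]
      ring
    rw [Metric.tendstoUniformlyOn_iff] at h1 ⊢
    intro ε hε
    filter_upwards [h1 ε hε] with M hM z hz
    have h3 := hM z hz
    rw [← h2 M z, dist_add_left]
    exact h3
  set Ψ : ℂ → ℂ := fun z => z + ∑' m, (Φ (m + 1) z - Φ m z) with hΨ
  have hloc : TendstoLocallyUniformlyOn Φ Ψ atTop (ball 0 (1 / 2)) :=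
    hunif.tendstoLocallyUniformlyOn
  have hΨd : DifferentiableOn ℂ Ψ (ball 0 (1 / 2)) :=
    hloc.differentiableOn (Eventually.of_forall fun m => (hprops m).1.differentiableOn) isOpen_ball
  have hΨlim : ∀ z ∈ ball (0 : ℂ) (1 / 2), Tendsto (fun m => Φ m z) atTop (𝓝 (Ψ z)) :=
    fun z hz => hunif.tendsto_at hz
  have h0half : (0 : ℂ) ∈ ball (0 : ℂ) (1 / 2) := mem_ball_self (by norm_num)
  have hΨ0 : Ψ 0 = 0 := by
    refine tendsto_nhds_unique (hΨlim 0 h0half) ?_
    have : (fun m => Φ m 0) = fun _ => (0 : ℂ) := by funext m; exact (hprops m).2.2.1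
    rw [this]
    exact tendsto_const_nhds
  refine ⟨Ψ, hΨd, hΨ0, ?_, ?_⟩
  · have h1 := hloc.deriv (Eventually.of_forall fun m => (hprops m).1.differentiableOn) isOpen_ball
    have h2 : Tendsto (fun m => deriv (Φ m) 0) atTop (𝓝 (deriv Ψ 0)) := by
      have := h1.tendsto_at h0half
      exact this
    intro h3
    rw [h3] at h2
    have h4 : ∀ m, 1 / 2 ≤ ‖deriv (Φ m) 0‖ := by
      intro m
      obtain ⟨p, hp1, hp2, hp3⟩ := (hprops m).2.2.2.1
      rw [hp1, Complex.norm_real, Real.norm_eq_abs]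
      have := hsum m
      have h5 : 1 / 2 ≤ p := by linarith
      exact h5.trans (le_abs_self p)
    have h5 := ge_of_tendsto' h2.norm h4
    rw [norm_zero] at h5
    norm_num at h5
  · intro z hz
    have hz' := mem_ball0.mp hz
    have hlz : lam * z ∈ ball (0 : ℂ) (1 / 2) := by
      rw [mem_ball0, norm_mul, hlam1, one_mul]; exact hz'
    -- f m z → lam z
    have hfm : Tendsto (fun m => f m z) atTop (𝓝 (lam * z)) := by
      rw [tendsto_iff_norm_sub_tendsto_zero]
      have h1 : ∀ m, ‖f m z - lam * z‖ ≤ 1 / 10 * ‖z‖ ^ (Qs (n0 + m) / 2 + 1) := fun m =>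
        (hfh m).1.bd z (hhalf hz)
      refine squeeze_zero (fun m => norm_nonneg _) h1 ?_
      have h2 : Tendsto (fun m : ℕ => Qs (n0 + m) / 2 + 1) atTop atTop := by
        refine tendsto_atTop_mono (f := fun m : ℕ => m / 2) ?_ ?_
        · intro m
          have := hgrow (n0 + m)
          have h3 : m / 2 ≤ Qs (n0 + m) / 2 := Nat.div_le_div_right (by omega)
          omega
        · exact Nat.tendsto_div_const_atTop (by norm_num)
      have h3 := (tendsto_pow_atTop_nhds_zero_of_lt_one (norm_nonneg z)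
        (by linarith : ‖z‖ < 1)).comp h2
      have h4 := h3.const_mul (1 / 10)
      rw [mul_zero] at h4
      exact h4
    have hΦf : Tendsto (fun m => Φ m (f m z)) atTop (𝓝 (Ψ (lam * z))) := by
      have h1 := hΨlim (lam * z) hlz
      have h2 : Tendsto (fun m => Φ m (f m z) - Φ m (lam * z)) atTop (𝓝 0) := by
        rw [tendsto_zero_iff_norm_tendsto_zero]
        have h3 : Tendsto (fun m => 4 * ‖f m z - lam * z‖) atTop (𝓝 0) := by
          have := (tendsto_iff_norm_sub_tendsto_zero.mp hfm).const_mul 4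
          rwa [mul_zero] at this
        refine squeeze_zero (fun m => norm_nonneg _) (fun m => ?_) h3
        refine hLip m _ ?_ _ ?_
        · rw [mem_ball0]
          have h4 := (hfh m).1.bd z (hhalf hz)
          have h5 : ‖z‖ ^ (Qs (n0 + m) / 2 + 1) ≤ 1 :=
            pow_le_one₀ (norm_nonneg _) (by linarith)
          have h6 : f m z = (f m z - lam * z) + lam * z := by ring
          rw [h6]
          refine (norm_add_le _ _).trans_lt ?_
          rw [norm_mul, hlam1, one_mul]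
          linarith
        · rw [mem_ball0, norm_mul, hlam1, one_mul]; linarith
      have h3 := h2.add h1
      rw [zero_add] at h3
      refine h3.congr ?_
      intro m; ring
    have hΨn : ‖Ψ z‖ ≤ 1 / 2 := by
      refine le_of_tendsto' (hΨlim z hz).norm (fun m => ?_)
      have h1 := Complex.norm_le_norm_of_mapsTo_ball (R := 1) (hprops m).1.differentiableOn
        (fun w hw => ball_subset_closedBall ((hprops m).2.1 hw)) (hprops m).2.2.1
        (by linarith : ‖z‖ < 1)
      linarith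
    have hf0c : ContinuousAt f0 (Ψ z) :=
      (hf0.diff.differentiableAt (isOpen_ball.mem_nhds
        (mem_ball0.mpr (by linarith)))).continuousAt
    have h1 : Tendsto (fun m => f0 (Φ m z)) atTop (𝓝 (f0 (Ψ z))) :=
      hf0c.tendsto.comp (hΨlim z hz)
    have h2 : (fun m => f0 (Φ m z)) = fun m => Φ m (f m z) := by
      funext m
      exact (hprops m).2.2.2.2 z (hhalf hz)
    rw [h2] at h1
    exact tendsto_nhds_unique h1 hΦf

end Pool.Agent.TH231
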