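import Mathlib
import Pool.Agent.TH231.Kam

set_option autoImplicit false

namespace Pool.Agent.TH231

open Metric Filter Topology Complex Asymptotics Set

lemma quad_bound {f : ℂ → ℂ} {lam : ℂ} {r : ℝ} (hr : 0 < r)
    (hf : DifferentiableOn ℂ f (ball 0 r)) (hf0 : f 0 = 0) (hd : deriv f 0 = lam) :
    ∃ ρ K : ℝ, 0 < ρ ∧ ρ ≤ r ∧ 0 ≤ K ∧ ∀ z ∈ ball (0 : ℂ) ρ, ‖f z - lam * z‖ ≤ K * ‖z‖ ^ 2 := by
  have hfa : AnalyticAt ℂ f 0 := hf.analyticAt (ball_mem_nhds _ hr)
  have hla : AnalyticAt ℂ (fun z : ℂ => lam * z) 0 := by fun_prop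
  have hga : AnalyticAt ℂ (fun z => f z - lam * z) 0 := hfa.sub hla
  have hO : (fun z => f z - lam * z) =O[𝓝 0] (fun z : ℂ => z ^ 2) := by
    refine (tc_eq_zero_iff_bigO hga 2).mp ?_
    intro j hj
    rcases Nat.lt_or_ge j 1 with h | h
    · obtain rfl : j = 0 := by omega
      rw [tc_zero]; simp [hf0]
    · obtain rfl : j = 1 := by omega
      rw [tc_one]
      have h1 : HasDerivAt f lam 0 := by
        have := hfa.differentiableAt.hasDerivAt
        rwa [hd] at this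
      have h2 : HasDerivAt (fun z : ℂ => lam * z) (lam * 1) 0 := (hasDerivAt_id (0 : ℂ)).const_mul lam
      have h3 := (h1.sub h2).deriv
      have h4 : deriv (fun z => f z - lam * z) 0 = lam - lam * 1 := h3
      rw [h4]; ring
  obtain ⟨K, hK0, hK⟩ := hO.exists_pos
  rw [isBigOWith_iff] at hK
  obtain ⟨ε, hε, hball⟩ := Metric.eventually_nhds_iff_ball.mp hK
  refine ⟨min ε r, K, lt_min hε hr, min_le_right _ _, hK0.le, ?_⟩
  intro z hz
  have := hball z (ball_subset_ball (min_le_left _ _) hz)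
  rwa [norm_pow] at this

theorem kam_linearize {θ : ℝ} (hθ : Irrational θ) {lam : ℂ}
    (hlam : lam = Complex.exp (2 * (Real.pi : ℂ) * Complex.I * (θ : ℂ))) (C k0 : ℕ)
    (hdio : ∀ q : ℕ, 1 ≤ q → Real.exp (-((C : ℝ) * (q : ℝ) ^ k0)) ≤ ‖lam ^ q - 1‖)
    {f : ℂ → ℂ} {r : ℝ} (hr : 0 < r) (hf : DifferentiableOn ℂ f (ball 0 r)) (hf0 : f 0 = 0)
    (hd : deriv f 0 = lam)
    (hnc : ∀ z ∈ ball (0 : ℂ) r, ∀ k, 1 ≤ k → (∀ j < k, f^[j] z ∈ ball (0 : ℂ) r) →
      f^[k] z = z → z = 0) :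
    ∃ (h : ℂ → ℂ) (ρ : ℝ), 0 < ρ ∧ AnalyticAt ℂ h 0 ∧ h 0 = 0 ∧ deriv h 0 ≠ 0 ∧
      ∀ z ∈ ball (0 : ℂ) ρ, f (h z) = h (lam * z) := by
  have hlam1 : ‖lam‖ = 1 := by
    rw [hlam, Complex.norm_exp]
    simp
  obtain ⟨N, hN⟩ := kam_iterate hθ hlam C k0 hdio
  obtain ⟨ρ, K, hρ, hρr, hK0, hK⟩ := quad_bound hr hf hf0 hd
  set ω : ℝ := Real.exp (-((C : ℝ) * (N : ℝ) ^ k0)) with hωdef
  have hω0 : 0 < ω := Real.exp_pos _
  have hω : ∀ k, 1 ≤ k → k < N → ω ≤ ‖(lam ^ 1) ^ k - 1‖ := by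
    intro k hk hkN
    rw [pow_one]
    refine le_trans ?_ (hdio k hk)
    rw [hωdef]
    apply Real.exp_le_exp.mpr
    have h1 : (k : ℝ) ^ k0 ≤ (N : ℝ) ^ k0 :=
      pow_le_pow_left₀ (Nat.cast_nonneg _) (by exact_mod_cast hkN.le) _
    have h2 : (0 : ℝ) ≤ C := Nat.cast_nonneg _
    nlinarith
  set t : ℝ := min ρ (min (1 / (1000 * (K + 1))) (ω / (400000 * (K + 1)))) with htdef
  have hK1 : 0 < K + 1 := by linarith
  have ht0 : 0 < t := by
    refine lt_min hρ (lt_min ?_ ?_) <;> positivity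
  have htρ : t ≤ ρ := min_le_left _ _
  have hKt1 : K * t ≤ 1 / 1000 := by
    have h1 : t ≤ 1 / (1000 * (K + 1)) := (min_le_right _ _).trans (min_le_left _ _)
    rw [le_div_iff₀ (by positivity)] at h1
    nlinarith
  have hKt2 : K * t ≤ ω / 400000 := by
    have h1 : t ≤ ω / (400000 * (K + 1)) := (min_le_right _ _).trans (min_le_right _ _)
    rw [le_div_iff₀ (by positivity)] at h1
    nlinarith
  have htc : (t : ℂ) ≠ 0 := by exact_mod_cast ht0.ne'
  set F : ℂ → ℂ := fun z => f (t * z) / t with hFdef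
  have hnt : ∀ z : ℂ, ‖(t : ℂ) * z‖ = t * ‖z‖ := by
    intro z; rw [norm_mul, Complex.norm_real, Real.norm_of_nonneg ht0.le]
  have htball : ∀ z ∈ ball (0 : ℂ) 1, (t : ℂ) * z ∈ ball (0 : ℂ) t := by
    intro z hz
    rw [mem_ball0] at hz ⊢
    rw [hnt]; nlinarith
  have hFbd : ∀ z ∈ ball (0 : ℂ) 1, ‖F z - lam * z‖ ≤ K * t * ‖z‖ ^ 2 := by
    intro z hz
    have h1 := hK _ (ball_subset_ball htρ (htball z hz))
    have h2 : F z - lam * z = (f (t * z) - lam * (t * z)) / t := by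
      rw [hFdef]; field_simp
    rw [h2, norm_div, Complex.norm_real, Real.norm_of_nonneg ht0.le, div_le_iff₀ ht0]
    refine h1.trans (le_of_eq ?_)
    rw [hnt]; ring
  have hFit : ∀ (k : ℕ) (z : ℂ), F^[k] z = f^[k] (t * z) / t := by
    intro k
    induction k with
    | zero => intro z; simp [htc]
    | succ k ih =>
      intro z
      rw [Function.iterate_succ_apply', Function.iterate_succ_apply', ih, hFdef]
      simp only
      rw [mul_div_cancel₀ _ htc]
  have hSt : St lam 0 F := by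
    refine ⟨?_, ?_, ?_, ?_⟩
    · have h1 : DifferentiableOn ℂ (fun z : ℂ => f (t * z)) (ball 0 1) := by
        refine hf.comp (g := f) (f := fun z : ℂ => (t : ℂ) * z) ?_ ?_
        · exact (differentiable_id.const_mul _).differentiableOn
        · intro z hz
          exact ball_subset_ball (htρ.trans hρr) (htball z hz)
      exact h1.div_const _
    · intro z hz
      refine (hFbd z hz).trans ?_
      have h1 : ‖z‖ < 1 := mem_ball0.mp hz
      have h2 : ‖z‖ ^ 2 ≤ ‖z‖ := by nlinarith [norm_nonneg z]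
      have h3 : K * t * ‖z‖ ^ 2 ≤ 1 / 1000 * ‖z‖ :=
        mul_le_mul hKt1 h2 (by positivity) (by norm_num)
      simp only [zero_add, pow_one]
      nlinarith [norm_nonneg z]
    · have h0 : DifferentiableAt ℂ f 0 := hf.differentiableAt (ball_mem_nhds _ hr)
      have h1 : HasDerivAt f lam ((t : ℂ) * 0) := by
        rw [mul_zero]
        have := h0.hasDerivAt
        rwa [hd] at this
      have h2 : HasDerivAt (fun z : ℂ => (t : ℂ) * z) ((t : ℂ) * 1) 0 :=
        (hasDerivAt_id (0 : ℂ)).const_mul _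
      have h3 := (h1.comp (0 : ℂ) h2).div_const (t : ℂ)
      have h4 : deriv F 0 = lam * ((t : ℂ) * 1) / t := h3.deriv
      rw [h4]; field_simp
    · intro z hz k hk hj hkz
      have h1 : (t : ℂ) * z = 0 := by
        refine hnc _ (ball_subset_ball (htρ.trans hρr) (htball z hz)) k hk ?_ ?_
        · intro j hjk
          have h2 := hj j hjk
          rw [hFit] at h2
          have h3 := htball _ h2
          rw [mul_div_cancel₀ _ htc] at h3
          exact ball_subset_ball (htρ.trans hρr) h3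
        · rw [hFit, div_eq_iff htc] at hkz
          rw [hkz]; ring
      rcases mul_eq_zero.mp h1 with h | h
      · exact absurd h htc
      · exact h
  obtain ⟨h, g, hhd, hhmaps, -, hh0, hhd0, -, hSg, hconj⟩ :=
    conj_step hlam1 hSt (q := 1) (N := N) le_rfl (s := 1 / 100) (δ := K * t) (M := K * t) (ω := ω)
      (by norm_num) le_rfl (by positivity)
      (fun z hz => by
        have hz1 : z ∈ ball (0 : ℂ) 1 := ball_subset_ball (by norm_num) hz
        refine (hFbd z hz1).trans ?_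
        have h1 : ‖z‖ ^ 2 ≤ 1 := pow_le_one₀ (norm_nonneg _) (mem_ball0.mp hz1).le
        have h2 : 0 ≤ K * t := by positivity
        nlinarith)
      (by push_cast; linarith) (by positivity)
      (fun z hz => by
        have hz1 : z ∈ ball (0 : ℂ) 1 := ball_subset_ball (by norm_num) hz
        rw [Function.iterate_one, pow_one]
        refine (hFbd z hz1).trans ?_
        have h1 : ‖z‖ < 1 := mem_ball0.mp hz1
        have h2 : ‖z‖ ^ 2 ≤ ‖z‖ := by nlinarith [norm_nonneg z]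
        exact mul_le_mul_of_nonneg_left h2 (by positivity))
      hω0 hω (by norm_num at hKt2 ⊢; linarith)
  obtain ⟨Φ, hΦd, hΦ0, hΦd0, hΦc⟩ := hN g hSg
  have hΦda : DifferentiableAt ℂ Φ 0 := hΦd.differentiableAt (ball_mem_nhds _ (by norm_num))
  have hΦt : Tendsto Φ (𝓝 0) (𝓝 0) := by
    have := hΦda.continuousAt.tendsto
    rwa [hΦ0] at this
  have hev := hΦt.eventually (ball_mem_nhds (0 : ℂ) one_pos)
  obtain ⟨ρ', hρ', hb'⟩ := Metric.eventually_nhds_iff_ball.mp hev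
  refine ⟨fun z => (t : ℂ) * h (Φ z), min ρ' (1 / 2), lt_min hρ' (by norm_num), ?_, ?_, ?_, ?_⟩
  · have h1 : AnalyticAt ℂ Φ 0 := hΦd.analyticAt (ball_mem_nhds _ (by norm_num))
    have h2 : AnalyticAt ℂ h (Φ 0) := hhd.analyticAt _
    exact analyticAt_const.mul (h2.comp h1)
  · simp [hΦ0, hh0]
  · have h1 : HasDerivAt Φ (deriv Φ 0) 0 := hΦda.hasDerivAt
    have h2 : HasDerivAt h (((1 - 11 * (1 / 100) : ℝ) : ℂ)) (Φ 0) := by
      rw [hΦ0, ← hhd0]
      exact (hhd 0).hasDerivAt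
    have h3 := (h2.comp (0 : ℂ) h1).const_mul (t : ℂ)
    have h4 : deriv (fun z => (t : ℂ) * h (Φ z)) 0
        = (t : ℂ) * ((((1 - 11 * (1 / 100) : ℝ) : ℂ)) * deriv Φ 0) := h3.deriv
    rw [h4]
    refine mul_ne_zero htc (mul_ne_zero ?_ hΦd0)
    norm_num
  · intro z hz
    have hz1 : z ∈ ball (0 : ℂ) ρ' := ball_subset_ball (min_le_left _ _) hz
    have hz2 : z ∈ ball (0 : ℂ) (1 / 2) := ball_subset_ball (min_le_right _ _) hz
    have h1 := hconj _ (hb' z hz1)
    rw [hΦc z hz2] at h1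
    have h2 : f ((t : ℂ) * h (Φ z)) = t * F (h (Φ z)) := by
      rw [hFdef]; field_simp
    rw [h2, h1]

end Pool.Agent.TH231
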