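import Mathlib
import Pool.Agent.TH231.KamMain

set_option autoImplicit false

namespace Pool.Agent.TH231

open Metric Filter Topology Complex Asymptotics Set

/-- Harnack type estimate for the real part of a function with nonpositive real part -/
lemma harnack_aux {G : ℂ → ℂ} {R l : ℝ} (hR : 0 < R) (hG : DifferentiableOn ℂ G (ball 0 R))
    (hG0 : G 0 = 0) (hl : l < 0) (hre : ∀ z ∈ ball (0 : ℂ) R, l + (G z).re ≤ 0) :
    ∀ z ∈ ball (0 : ℂ) (R / 2), l + (G z).re ≤ l / 3 := by
  have hden : ∀ z ∈ ball (0 : ℂ) R, G z + 2 * l ≠ 0 := by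
    intro z hz h
    have h1 := congrArg Complex.re h
    have h2 := hre z hz
    simp at h1
    linarith
  set φ : ℂ → ℂ := fun z => G z / (G z + 2 * l) with hφ
  have hφd : DifferentiableOn ℂ φ (ball 0 R) := hG.div (hG.add_const _) hden
  have hφ0 : φ 0 = 0 := by rw [hφ]; simp [hG0]
  have hφ1 : ∀ z ∈ ball (0 : ℂ) R, ‖φ z‖ ≤ 1 := by
    intro z hz
    rw [hφ]
    simp only
    rw [norm_div, div_le_one (norm_pos_iff.mpr (hden z hz))]
    have h2 := hre z hz
    rw [← sq_le_sq₀ (norm_nonneg _) (norm_nonneg _), Complex.sq_norm, Complex.sq_norm,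
      Complex.normSq_apply, Complex.normSq_apply]
    simp only [add_re, mul_re, re_ofNat, ofReal_re, im_ofNat, ofReal_im, mul_zero, sub_zero,
      add_im, mul_im, zero_mul, add_zero]
    nlinarith
  have hO : φ =O[𝓝 0] (fun z : ℂ => z ^ (0 + 1)) := by
    have h1 := (hφd.differentiableAt (ball_mem_nhds _ hR)).isBigO_sub
    simpa [hφ0] using h1
  intro z hz
  have hz' : z ∈ ball (0 : ℂ) R := ball_subset_ball (by linarith) hz
  have h1 := schwarz_pow hφd hφ1 hO hz'
  rw [mem_ball0] at hz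
  have h2 : ‖φ z‖ ≤ 1 / 2 := by
    refine h1.trans ?_
    rw [one_mul, zero_add, pow_one, div_le_iff₀ hR]
    linarith
  rw [hφ] at h2
  simp only at h2
  rw [norm_div, div_le_iff₀ (norm_pos_iff.mpr (hden z hz'))] at h2
  have h3 : ‖G z‖ ^ 2 ≤ (1 / 2 * ‖G z + 2 * l‖) ^ 2 := pow_le_pow_left₀ (norm_nonneg _) h2 2
  rw [mul_pow, Complex.sq_norm, Complex.sq_norm, Complex.normSq_apply, Complex.normSq_apply] at h3
  simp only [add_re, mul_re, re_ofNat, ofReal_re, im_ofNat, ofReal_im, mul_zero, sub_zero,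
      add_im, mul_im, zero_mul, add_zero] at h3
  set x := (G z).re with hx
  set y := (G z).im with hy
  have h4 : (x - 2 * l) * (x + 2 / 3 * l) ≤ 0 := by nlinarith [sq_nonneg y]
  by_contra hcon
  push Not at hcon
  have h5 : 0 < x + 2 / 3 * l := by linarith
  have h6 : 0 < x - 2 * l := by linarith
  have := mul_pos h6 h5
  linarith

theorem harnack_bound {f : ℂ → ℂ} {lam : ℂ} {r : ℝ} (hlam : ‖lam‖ = 1) (hr : 0 < r)
    (hf : DifferentiableOn ℂ f (ball 0 r)) (hf0 : f 0 = 0) (hd : deriv f 0 = lam)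
    (hnc : ∀ z ∈ ball (0 : ℂ) r, ∀ k, 1 ≤ k → (∀ j < k, f^[j] z ∈ ball (0 : ℂ) r) →
      f^[k] z = z → z = 0)
    (hres : ∀ q : ℕ, 1 ≤ q → lam ^ q ≠ 1) :
    ∃ c : ℝ, 0 < c ∧ c ≤ 1 ∧ ∀ q : ℕ, 1 ≤ q → ∃ b : ℝ, 0 < b ∧ b ^ 3 = 9 * ‖lam ^ q - 1‖ ∧
      ∀ j : ℕ, ‖tc (fun z => f^[q] z - z) j‖ ≤ b / (c / (2 * q)) ^ j := by
  obtain ⟨ρ, K, hρ, hρr, hK0, hK⟩ := quad_bound hr hf hf0 hd
  set c : ℝ := min (ρ / 2) (min (1 / 2) (1 / (4 * (K + 1)))) with hc
  have hK1 : 0 < K + 1 := by linarith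
  have hc0 : 0 < c := lt_min (by linarith) (lt_min (by norm_num) (by positivity))
  have hcρ : 2 * c ≤ ρ := by
    have : c ≤ ρ / 2 := min_le_left _ _
    linarith
  have hc1 : c ≤ 1 / 2 := (min_le_right _ _).trans (min_le_left _ _)
  have hKc : 4 * K * c ≤ 1 := by
    have h1 : c ≤ 1 / (4 * (K + 1)) := (min_le_right _ _).trans (min_le_right _ _)
    rw [le_div_iff₀ (by positivity)] at h1
    nlinarith
  refine ⟨c, hc0, by linarith, fun q hq => ?_⟩
  have hq1 : (1 : ℝ) ≤ q := by exact_mod_cast hq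
  set R : ℝ := c / q with hR
  have hR0 : 0 < R := by positivity
  have hRc : R ≤ c := by rw [hR, div_le_iff₀ (by linarith)]; nlinarith
  have hRq : R * q = c := by rw [hR]; field_simp
  set δ : ℝ := K * (2 * R) ^ 2 with hδ
  have hδ0 : 0 ≤ δ := by positivity
  have hqδ : q * δ ≤ R := by
    have h1 : q * δ = 4 * K * c * R := by
      rw [hδ, ← hRq]; ring
    rw [h1]
    nlinarith
  have hkδ : ∀ k : ℕ, k ≤ q → (k : ℝ) * δ ≤ R := by
    intro k hk
    have : (k : ℝ) ≤ q := by exact_mod_cast hk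
    nlinarith
  have hδb : ∀ z ∈ ball (0 : ℂ) (2 * R), ‖f z - lam * z‖ ≤ δ := by
    intro z hz
    have h1 := hK z (ball_subset_ball (by linarith) hz)
    refine h1.trans ?_
    rw [hδ]
    refine mul_le_mul_of_nonneg_left ?_ hK0
    exact pow_le_pow_left₀ (norm_nonneg _) (mem_ball0.mp hz).le 2
  have hit : ∀ k ≤ q, ∀ z ∈ ball (0 : ℂ) R,
      ‖f^[k] z - lam ^ k * z‖ ≤ k * δ ∧ ∀ j ≤ k, f^[j] z ∈ ball (0 : ℂ) (2 * R) := by
    intro k hk z hz
    refine iter_bound hlam hδ0 hδb k z ?_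
    have h1 := hkδ k hk
    have h2 := mem_ball0.mp hz
    linarith
  set F : ℂ → ℂ := f^[q] with hF
  have hFd : DifferentiableOn ℂ F (ball 0 R) := by
    have h1 : DifferentiableOn ℂ f (ball 0 (2 * R)) := hf.mono (ball_subset_ball (by linarith))
    refine (iter_diff hlam hδ0 h1 hδb q).mono (ball_subset_ball ?_)
    linarith
  have hF0 : F 0 = 0 := Function.iterate_fixed hf0 q
  have hfda : DifferentiableAt ℂ f 0 := hf.differentiableAt (ball_mem_nhds _ hr)
  have hFder : HasDerivAt F (lam ^ q) 0 := by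
    have h1 : HasDerivAt f lam 0 := by
      have := hfda.hasDerivAt
      rwa [hd] at this
    exact h1.iterate 0 hf0 q
  set h : ℂ → ℂ := fun z => dslope F 0 z - 1 with hh
  have hhd : DifferentiableOn ℂ h (ball 0 R) := by
    refine DifferentiableOn.sub_const ?_ _
    exact (Complex.differentiableOn_dslope (ball_mem_nhds _ hR0)).mpr hFd
  have hh0 : h 0 = lam ^ q - 1 := by
    rw [hh]
    simp only
    rw [dslope_same, hFder.deriv]
  have hhz : ∀ z, h z * z = F z - z := by
    intro z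
    rw [hh]
    simp only
    have h1 := sub_smul_dslope F 0 z
    rw [sub_zero, hF0, sub_zero, smul_eq_mul] at h1
    linear_combination h1
  have hhne : ∀ z ∈ ball (0 : ℂ) R, h z ≠ 0 := by
    intro z hz h0
    by_cases hz0 : z = 0
    · rw [hz0, hh0, sub_eq_zero] at h0
      exact hres q hq h0
    · have h1 := hhz z
      rw [h0, zero_mul] at h1
      have h2 : F z = z := by linear_combination -h1
      apply hz0
      refine hnc z (ball_subset_ball (by linarith) hz) q hq ?_ h2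
      intro j hj
      exact ball_subset_ball (by linarith) ((hit q le_rfl z hz).2 j hj.le)
  have hhb : ∀ z ∈ ball (0 : ℂ) R, ‖h z‖ ≤ 3 := by
    intro z hz
    by_cases hz0 : z = 0
    · rw [hz0, hh0]
      refine (norm_sub_le _ _).trans ?_
      rw [norm_pow, hlam, one_pow, norm_one]; norm_num
    · have hzn : 0 < ‖z‖ := norm_pos_iff.mpr hz0
      have hφd : DifferentiableOn ℂ (fun z => F z - lam ^ q * z) (ball 0 R) :=
        hFd.sub (differentiable_id.const_mul _).differentiableOn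
      have hφO : (fun z => F z - lam ^ q * z) =O[𝓝 0] (fun z : ℂ => z ^ (0 + 1)) := by
        have h1 := (hφd.differentiableAt (ball_mem_nhds _ hR0)).isBigO_sub
        simpa [hF0] using h1
      have h1 := schwarz_pow hφd (C := R) (fun w hw => ((hit q le_rfl w hw).1).trans hqδ) hφO hz
      have h2 : R * (‖z‖ / R) ^ (0 + 1) = ‖z‖ := by
        rw [zero_add, pow_one]; field_simp
      rw [h2] at h1
      have h3 : h z * z = (F z - lam ^ q * z) + (lam ^ q - 1) * z := by rw [hhz]; ring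
      have h4 : ‖h z‖ * ‖z‖ ≤ 3 * ‖z‖ := by
        rw [← norm_mul, h3]
        refine (norm_add_le _ _).trans ?_
        rw [norm_mul]
        have h5 : ‖lam ^ q - 1‖ ≤ 2 := by
          refine (norm_sub_le _ _).trans ?_
          rw [norm_pow, hlam, one_pow, norm_one]; norm_num
        nlinarith
      exact le_of_mul_le_mul_right h4 hzn
  obtain ⟨G, hGd, hG0, hGe⟩ := exists_log_ball hR0 hhd hhne
  have hh0n : 0 < ‖h 0‖ := norm_pos_iff.mpr (hhne 0 (mem_ball_self hR0))
  set l : ℝ := Real.log (‖h 0‖ / 3) with hl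
  have hexpl : Real.exp l = ‖h 0‖ / 3 := Real.exp_log (by positivity)
  have hl0 : l < 0 := by
    rw [hl]
    apply Real.log_neg (by positivity)
    rw [div_lt_one (by norm_num), hh0]
    refine (norm_sub_le _ _).trans_lt ?_
    rw [norm_pow, hlam, one_pow, norm_one]; norm_num
  have hnorm : ∀ z ∈ ball (0 : ℂ) R, ‖h z‖ = 3 * Real.exp (l + (G z).re) := by
    intro z hz
    rw [hGe z hz, norm_mul, Complex.norm_exp, Real.exp_add, hexpl]
    ring
  have hre : ∀ z ∈ ball (0 : ℂ) R, l + (G z).re ≤ 0 := by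
    intro z hz
    have h1 := hhb z hz
    rw [hnorm z hz] at h1
    have h2 : Real.exp (l + (G z).re) ≤ Real.exp 0 := by rw [Real.exp_zero]; linarith
    exact Real.exp_le_exp.mp h2
  have hH := harnack_aux hR0 hGd hG0 hl0 hre
  refine ⟨3 * Real.exp (l / 3), by positivity, ?_, fun j => ?_⟩
  · rw [mul_pow, ← Real.exp_nat_mul, ← hh0]
    have : ((3 : ℕ) : ℝ) * (l / 3) = l := by push_cast; ring
    rw [this, hexpl]
    ring
  · have hR2 : c / (2 * q) = R / 2 := by rw [hR]; field_simp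
    rw [hR2]
    refine norm_tc_le (by linarith) ?_ ?_ j
    · exact (hFd.mono (ball_subset_ball (by linarith))).sub differentiableOn_id
    · intro z hz
      have hz' : z ∈ ball (0 : ℂ) R := ball_subset_ball (by linarith) hz
      rw [← hhz z, norm_mul, hnorm z hz']
      have h1 := Real.exp_le_exp.mpr (hH z hz)
      have h2 := mem_ball0.mp hz
      have h3 : ‖z‖ ≤ 1 := by linarith
      have h4 := Real.exp_pos (l / 3)
      have h5 := Real.exp_pos (l + (G z).re)
      have h6 := norm_nonneg z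
      calc 3 * Real.exp (l + (G z).re) * ‖z‖ ≤ 3 * Real.exp (l / 3) * 1 := by
            apply mul_le_mul (by linarith) h3 h6 (by positivity)
        _ = _ := by ring

end Pool.Agent.TH231
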