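import Mathlib
import Pool.Agent.TH596.EffNull

set_option autoImplicit false

/-! Formal iterates of a rational map over a coefficient ring, with degree and size bounds. -/

namespace Pool.Agent.TH231

open PowerSeries

section Ring

variable {A B : Type*} [CommRing A] [CommRing B]

/-- numerator of the next iterate -/
noncomputable def numS (a : ℕ → A) (d : ℕ) (G : A⟦X⟧) : A⟦X⟧ :=
  ∑ i ∈ Finset.range d, PowerSeries.C (a (i + 1)) * G ^ (i + 1)

/-- formal iterates of the map with numerator `∑ a_i w^i` and denominator `1 + ∑ b_i w^i` -/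
noncomputable def itS (a b : ℕ → A) (d : ℕ) : ℕ → A⟦X⟧
  | 0 => PowerSeries.X
  | k + 1 => numS a d (itS a b d k) * invOfUnit (1 + numS b d (itS a b d k)) 1

lemma numS_const (a : ℕ → A) (d : ℕ) {G : A⟦X⟧} (hG : constantCoeff G = 0) :
    constantCoeff (numS a d G) = 0 := by
  unfold numS
  rw [map_sum]
  refine Finset.sum_eq_zero fun i _ => ?_
  rw [map_mul, map_pow, hG]
  simp

lemma itS_const (a b : ℕ → A) (d k : ℕ) : constantCoeff (itS a b d k) = 0 := by
  induction k with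
  | zero => simp [itS]
  | succ k ih =>
    rw [itS, map_mul, numS_const _ _ ih, zero_mul]

lemma den_inv (b : ℕ → A) (d : ℕ) {G : A⟦X⟧} (hG : constantCoeff G = 0) :
    (1 + numS b d G) * invOfUnit (1 + numS b d G) 1 = 1 := by
  apply mul_invOfUnit
  rw [map_add, numS_const _ _ hG]
  simp

lemma map_numS (φ : A →+* B) (a : ℕ → A) (d : ℕ) (G : A⟦X⟧) :
    PowerSeries.map φ (numS a d G) = numS (fun i => φ (a i)) d (PowerSeries.map φ G) := by
  unfold numS
  rw [map_sum]
  refine Finset.sum_congr rfl fun i _ => ?_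
  rw [map_mul, map_pow, PowerSeries.map_C]

lemma map_itS (φ : A →+* B) (a b : ℕ → A) (d k : ℕ) :
    PowerSeries.map φ (itS a b d k) = itS (fun i => φ (a i)) (fun i => φ (b i)) d k := by
  induction k with
  | zero => simp [itS]
  | succ k ih =>
    have h0 : constantCoeff (PowerSeries.map φ (itS a b d k)) = 0 := by
      rw [ih]; exact itS_const _ _ _ _
    have h1 := congrArg (PowerSeries.map φ) (den_inv b d (itS_const a b d k))
    rw [map_mul, map_add, map_one, map_numS] at h1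
    have h2 := den_inv (fun i => φ (b i)) d h0
    rw [itS, itS, map_mul, map_numS, ← ih]
    congr 1
    set D := 1 + numS (fun i => φ (b i)) d (PowerSeries.map φ (itS a b d k)) with hD
    set I := PowerSeries.map φ (invOfUnit (1 + numS b d (itS a b d k)) 1) with hI
    calc I = I * (D * invOfUnit D 1) := by rw [h2, mul_one]
      _ = (D * I) * invOfUnit D 1 := by ring
      _ = invOfUnit D 1 := by rw [h1, one_mul]

/-- characterisation of the next iterate -/
lemma itS_succ_unique (a b : ℕ → A) (d k : ℕ) {H : A⟦X⟧}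
    (h : H * (1 + numS b d (itS a b d k)) = numS a d (itS a b d k)) : itS a b d (k + 1) = H := by
  have h2 := den_inv b d (itS_const a b d k)
  rw [itS, ← h, mul_assoc, h2, mul_one]

end Ring

section Bounds

open Pool.Agent.TH596.EffNull (len len_add_le len_sum_le len_one_le len_neg len_mul_le len_zero)

variable {σ : Type*}

/-- degree filtration -/
def Dg (m : ℕ) (G : (MvPolynomial σ ℤ)⟦X⟧) : Prop :=
  ∀ j, (PowerSeries.coeff j G).totalDegree ≤ m * j

lemma Dg.mul {m : ℕ} {G H : (MvPolynomial σ ℤ)⟦X⟧} (hG : Dg m G) (hH : Dg m H) :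
    Dg m (G * H) := by
  intro j
  rw [PowerSeries.coeff_mul]
  apply MvPolynomial.totalDegree_finsetSum_le
  intro p hp
  rw [Finset.HasAntidiagonal.mem_antidiagonal] at hp
  refine (MvPolynomial.totalDegree_mul _ _).trans ?_
  rw [← hp, mul_add]
  exact add_le_add (hG _) (hH _)

lemma Dg.one (m : ℕ) : Dg m (1 : (MvPolynomial σ ℤ)⟦X⟧) := by
  intro j
  rw [PowerSeries.coeff_one]
  split_ifs <;> simp

lemma Dg.add {m : ℕ} {G H : (MvPolynomial σ ℤ)⟦X⟧} (hG : Dg m G) (hH : Dg m H) :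
    Dg m (G + H) := by
  intro j
  rw [map_add]
  exact (MvPolynomial.totalDegree_add _ _).trans (max_le (hG j) (hH j))

lemma Dg.sum {m : ℕ} {ι : Type*} (s : Finset ι) {G : ι → (MvPolynomial σ ℤ)⟦X⟧}
    (hG : ∀ i ∈ s, Dg m (G i)) : Dg m (∑ i ∈ s, G i) := by
  intro j
  rw [map_sum]
  exact MvPolynomial.totalDegree_finsetSum_le fun i hi => hG i hi j

lemma Dg.pow {m : ℕ} {G : (MvPolynomial σ ℤ)⟦X⟧} (hG : Dg m G) (i : ℕ) : Dg m (G ^ i) := by
  induction i with
  | zero => rw [pow_zero]; exact Dg.one m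
  | succ i ih => rw [pow_succ]; exact ih.mul hG

lemma Dg.numS {m : ℕ} {a : ℕ → MvPolynomial σ ℤ} (ha : ∀ i, (a i).totalDegree ≤ 1) (d : ℕ)
    {G : (MvPolynomial σ ℤ)⟦X⟧} (hG : Dg m G) (h0 : constantCoeff G = 0) :
    Dg (m + 1) (numS a d G) := by
  refine Dg.sum _ fun i _ j => ?_
  rw [PowerSeries.coeff_C_mul]
  rcases Nat.eq_zero_or_pos j with rfl | hj
  · have : PowerSeries.coeff 0 (G ^ (i + 1)) = 0 := by
      rw [PowerSeries.coeff_zero_eq_constantCoeff_apply, map_pow, h0]; simp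
    rw [this]; simp
  · refine (MvPolynomial.totalDegree_mul _ _).trans ?_
    have h1 := ha (i + 1)
    have h2 := hG.pow (i + 1) j
    nlinarith

lemma Dg.inv {m : ℕ} {E I : (MvPolynomial σ ℤ)⟦X⟧} (hE : Dg m E) (h0 : constantCoeff E = 0)
    (hI : (1 + E) * I = 1) : Dg m I := by
  have h1 : I = 1 + (-E) * I := by linear_combination hI
  intro j
  induction j using Nat.strong_induction_on with
  | _ j ih =>
    have h2 : PowerSeries.coeff j I
        = PowerSeries.coeff j (1 : (MvPolynomial σ ℤ)⟦X⟧) + PowerSeries.coeff j ((-E) * I) := by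
      conv_lhs => rw [h1]
      rw [map_add]
    rw [h2]
    refine (MvPolynomial.totalDegree_add _ _).trans (max_le (Dg.one m j) ?_)
    rw [PowerSeries.coeff_mul]
    apply MvPolynomial.totalDegree_finsetSum_le
    intro p hp
    rw [Finset.HasAntidiagonal.mem_antidiagonal] at hp
    rcases Nat.eq_zero_or_pos p.1 with hp1 | hp1
    · have : PowerSeries.coeff p.1 (-E) = 0 := by
        rw [hp1, PowerSeries.coeff_zero_eq_constantCoeff_apply, map_neg, h0, neg_zero]
      rw [this, zero_mul]; simp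
    · refine (MvPolynomial.totalDegree_mul _ _).trans ?_
      have h3 := ih p.2 (by omega)
      have h4 : (PowerSeries.coeff p.1 (-E)).totalDegree ≤ m * p.1 := by
        rw [map_neg, MvPolynomial.totalDegree_neg]; exact hE _
      rw [← hp, mul_add]
      exact add_le_add h4 h3

lemma Dg.itS {a b : ℕ → MvPolynomial σ ℤ} (ha : ∀ i, (a i).totalDegree ≤ 1)
    (hb : ∀ i, (b i).totalDegree ≤ 1) (d k : ℕ) : Dg k (itS a b d k) := by
  induction k with
  | zero =>
    intro j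
    rw [Pool.Agent.TH231.itS, PowerSeries.coeff_X]
    split_ifs <;> simp
  | succ k ih =>
    have h0 := itS_const a b d k
    rw [Pool.Agent.TH231.itS]
    exact (Dg.numS ha d ih h0).mul
      (Dg.inv (Dg.numS hb d ih h0) (numS_const _ _ h0) (den_inv b d h0))

/-- truncated weighted norm -/
noncomputable def nr (ρ : ℝ) (M : ℕ) (G : (MvPolynomial σ ℤ)⟦X⟧) : ℝ :=
  ∑ j ∈ Finset.range M, (len (PowerSeries.coeff j G) : ℝ) * ρ ^ j

lemma nr_nonneg {ρ : ℝ} (hρ : 0 ≤ ρ) (M : ℕ) (G : (MvPolynomial σ ℤ)⟦X⟧) : 0 ≤ nr ρ M G :=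
  Finset.sum_nonneg fun _ _ => by positivity

lemma nr_add {ρ : ℝ} (hρ : 0 ≤ ρ) (M : ℕ) (G H : (MvPolynomial σ ℤ)⟦X⟧) :
    nr ρ M (G + H) ≤ nr ρ M G + nr ρ M H := by
  unfold nr
  rw [← Finset.sum_add_distrib]
  refine Finset.sum_le_sum fun j _ => ?_
  rw [map_add, ← add_mul]
  refine mul_le_mul_of_nonneg_right ?_ (by positivity)
  exact_mod_cast len_add_le _ _

lemma nr_neg {ρ : ℝ} (M : ℕ) (G : (MvPolynomial σ ℤ)⟦X⟧) :
    nr ρ M (-G) = nr ρ M G := by
  unfold nr
  refine Finset.sum_congr rfl fun j _ => ?_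
  rw [map_neg, len_neg]

lemma nr_zero {ρ : ℝ} (M : ℕ) : nr ρ M (0 : (MvPolynomial σ ℤ)⟦X⟧) = 0 := by
  unfold nr
  refine Finset.sum_eq_zero fun j _ => ?_
  simp

lemma nr_sum {ρ : ℝ} (hρ : 0 ≤ ρ) (M : ℕ) {ι : Type*} (s : Finset ι)
    (G : ι → (MvPolynomial σ ℤ)⟦X⟧) :
    nr ρ M (∑ i ∈ s, G i) ≤ ∑ i ∈ s, nr ρ M (G i) := by
  classical
  induction s using Finset.induction_on with
  | empty => simp [nr_zero]
  | insert x s hx ih =>
    rw [Finset.sum_insert hx, Finset.sum_insert hx]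
    exact (nr_add hρ M _ _).trans (add_le_add le_rfl ih)

lemma nr_one {ρ : ℝ} (M : ℕ) : nr ρ M (1 : (MvPolynomial σ ℤ)⟦X⟧) ≤ 1 := by
  unfold nr
  have h1 : ∀ j ∈ Finset.range M, (len (PowerSeries.coeff j (1 : (MvPolynomial σ ℤ)⟦X⟧)) : ℝ) * ρ ^ j
      ≤ if j = 0 then 1 else 0 := by
    intro j _
    rw [PowerSeries.coeff_one]
    split_ifs with h
    · subst h
      rw [pow_zero, mul_one]
      exact_mod_cast len_one_le (σ := σ)
    · simp
  refine (Finset.sum_le_sum h1).trans ?_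
  rw [Finset.sum_ite_eq' (Finset.range M) 0 (fun _ => (1 : ℝ))]
  split_ifs <;> norm_num

lemma nr_X {ρ : ℝ} (hρ : 0 ≤ ρ) (M : ℕ) : nr ρ M (PowerSeries.X : (MvPolynomial σ ℤ)⟦X⟧) ≤ ρ := by
  unfold nr
  have h1 : ∀ j ∈ Finset.range M,
      (len (PowerSeries.coeff j (PowerSeries.X : (MvPolynomial σ ℤ)⟦X⟧)) : ℝ) * ρ ^ j
      ≤ if j = 1 then ρ else 0 := by
    intro j _
    rw [PowerSeries.coeff_X]
    split_ifs with h
    · subst h
      rw [pow_one]
      have : (len (1 : MvPolynomial σ ℤ) : ℝ) ≤ 1 := by exact_mod_cast len_one_le (σ := σ)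
      nlinarith
    · simp
  refine (Finset.sum_le_sum h1).trans ?_
  rw [Finset.sum_ite_eq' (Finset.range M) 1 (fun _ => ρ)]
  split_ifs <;> linarith

lemma nr_mul {ρ : ℝ} (hρ : 0 ≤ ρ) (M : ℕ) (G H : (MvPolynomial σ ℤ)⟦X⟧) :
    nr ρ M (G * H) ≤ nr ρ M G * nr ρ M H := by
  unfold nr
  have h1 : ∀ j ∈ Finset.range M, (len (PowerSeries.coeff j (G * H)) : ℝ) * ρ ^ j
      ≤ ∑ p ∈ Finset.HasAntidiagonal.antidiagonal j, ((len (PowerSeries.coeff p.1 G) : ℝ) * ρ ^ p.1) *
        ((len (PowerSeries.coeff p.2 H) : ℝ) * ρ ^ p.2) := by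
    intro j _
    rw [PowerSeries.coeff_mul]
    have h2 : (len (∑ p ∈ Finset.HasAntidiagonal.antidiagonal j, PowerSeries.coeff p.1 G * PowerSeries.coeff p.2 H)
        : ℝ) ≤ ∑ p ∈ Finset.HasAntidiagonal.antidiagonal j,
          (len (PowerSeries.coeff p.1 G) : ℝ) * (len (PowerSeries.coeff p.2 H) : ℝ) := by
      have h3 := (len_sum_le (Finset.HasAntidiagonal.antidiagonal j)
        (fun p => PowerSeries.coeff p.1 G * PowerSeries.coeff p.2 H)).trans
        (Finset.sum_le_sum fun p _ => len_mul_le (PowerSeries.coeff p.1 G) (PowerSeries.coeff p.2 H))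
      exact_mod_cast h3
    refine (mul_le_mul_of_nonneg_right h2 (by positivity)).trans ?_
    rw [Finset.sum_mul]
    refine Finset.sum_le_sum fun p hp => ?_
    rw [Finset.HasAntidiagonal.mem_antidiagonal] at hp
    rw [← hp, pow_add]
    exact le_of_eq (by ring)
  refine (Finset.sum_le_sum h1).trans ?_
  rw [Finset.sum_mul_sum, ← Finset.sum_product']
  set F : ℕ × ℕ → ℝ := fun p => ((len (PowerSeries.coeff p.1 G) : ℝ) * ρ ^ p.1) *
        ((len (PowerSeries.coeff p.2 H) : ℝ) * ρ ^ p.2) with hF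
  set s : Finset (ℕ × ℕ) := (Finset.range M ×ˢ Finset.range M).filter (fun p => p.1 + p.2 < M)
    with hs
  have h4 : ∑ j ∈ Finset.range M, ∑ p ∈ Finset.HasAntidiagonal.antidiagonal j, F p = ∑ p ∈ s, F p := by
    rw [← Finset.sum_fiberwise_of_maps_to (s := s) (t := Finset.range M) (g := fun p => p.1 + p.2)
      (fun p hp => by
        rw [hs, Finset.mem_filter] at hp
        exact Finset.mem_range.mpr hp.2)]
    refine Finset.sum_congr rfl fun j hj => ?_
    rw [Finset.mem_range] at hj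
    refine Finset.sum_congr ?_ fun _ _ => rfl
    ext p
    rw [Finset.HasAntidiagonal.mem_antidiagonal, Finset.mem_filter, hs, Finset.mem_filter,
      Finset.mem_product, Finset.mem_range, Finset.mem_range]
    constructor
    · intro h
      exact ⟨⟨⟨by omega, by omega⟩, by omega⟩, h⟩
    · intro h
      exact h.2
  rw [h4]
  refine Finset.sum_le_sum_of_subset_of_nonneg (Finset.filter_subset _ _) ?_
  intro p _ _
  rw [hF]
  positivity

lemma nr_pow {ρ : ℝ} (hρ : 0 ≤ ρ) (M : ℕ) (G : (MvPolynomial σ ℤ)⟦X⟧) (i : ℕ) :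
    nr ρ M (G ^ i) ≤ (nr ρ M G) ^ i := by
  induction i with
  | zero => rw [pow_zero, pow_zero]; exact nr_one M
  | succ i ih =>
    rw [pow_succ, pow_succ]
    exact (nr_mul hρ M _ _).trans (mul_le_mul_of_nonneg_right ih (nr_nonneg hρ M G))

lemma nr_C_mul {ρ : ℝ} (hρ : 0 ≤ ρ) (M : ℕ) {a : MvPolynomial σ ℤ} (ha : len a ≤ 1)
    (G : (MvPolynomial σ ℤ)⟦X⟧) : nr ρ M (PowerSeries.C a * G) ≤ nr ρ M G := by
  unfold nr
  refine Finset.sum_le_sum fun j _ => ?_
  rw [PowerSeries.coeff_C_mul]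
  refine mul_le_mul_of_nonneg_right ?_ (by positivity)
  have h1 := len_mul_le a (PowerSeries.coeff j G)
  have h2 : len a * len (PowerSeries.coeff j G) ≤ 1 * len (PowerSeries.coeff j G) :=
    Nat.mul_le_mul_right _ ha
  exact_mod_cast (h1.trans h2).trans (by rw [one_mul])

lemma geom_aux {w : ℝ} (hw0 : 0 ≤ w) (hw1 : w < 1) (d : ℕ) :
    ∑ i ∈ Finset.range d, w ^ (i + 1) ≤ w / (1 - w) := by
  have h1 : ∑ i ∈ Finset.range d, w ^ (i + 1) = w * ∑ i ∈ Finset.range d, w ^ i := by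
    rw [Finset.mul_sum]
    exact Finset.sum_congr rfl fun i _ => by ring
  have h2 : ∑ i ∈ Finset.range d, w ^ i ≤ 1 / (1 - w) := by
    rw [le_div_iff₀ (by linarith)]
    have := geom_sum_mul_neg w d
    have h3 : 0 ≤ w ^ d := by positivity
    linarith
  rw [h1]
  calc w * ∑ i ∈ Finset.range d, w ^ i ≤ w * (1 / (1 - w)) := mul_le_mul_of_nonneg_left h2 hw0
    _ = w / (1 - w) := by ring

lemma nr_numS {ρ : ℝ} (hρ : 0 ≤ ρ) (M : ℕ) {a : ℕ → MvPolynomial σ ℤ} (ha : ∀ i, len (a i) ≤ 1)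
    (d : ℕ) {G : (MvPolynomial σ ℤ)⟦X⟧} (h1 : nr ρ M G < 1) :
    nr ρ M (numS a d G) ≤ nr ρ M G / (1 - nr ρ M G) := by
  unfold numS
  refine (nr_sum hρ M _ _).trans ?_
  refine le_trans (Finset.sum_le_sum fun i _ => (nr_C_mul hρ M (ha (i + 1)) _).trans
    (nr_pow hρ M G (i + 1))) ?_
  exact geom_aux (nr_nonneg hρ M G) h1 d

lemma nr_inv {ρ : ℝ} (hρ : 0 ≤ ρ) (M : ℕ) {E I : (MvPolynomial σ ℤ)⟦X⟧} (hE : nr ρ M E < 1)
    (hI : (1 + E) * I = 1) : nr ρ M I ≤ 1 / (1 - nr ρ M E) := by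
  have h1 : I = 1 + (-E) * I := by linear_combination hI
  have h2 : nr ρ M I ≤ 1 + nr ρ M E * nr ρ M I := by
    conv_lhs => rw [h1]
    refine (nr_add hρ M _ _).trans (add_le_add (nr_one M) ?_)
    refine (nr_mul hρ M _ _).trans ?_
    rw [nr_neg]
  rw [le_div_iff₀ (by linarith)]
  linarith

lemma nr_itS {a b : ℕ → MvPolynomial σ ℤ} (ha : ∀ i, len (a i) ≤ 1) (hb : ∀ i, len (b i) ≤ 1)
    (d q : ℕ) (hq : 1 ≤ q) (M : ℕ) (k : ℕ) (hk : k ≤ q) :
    nr (1 / (4 * q)) M (itS a b d k) ≤ 1 / (4 * q - 2 * k) := by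
  have hq' : (1 : ℝ) ≤ q := by exact_mod_cast hq
  have hρ : (0 : ℝ) ≤ 1 / (4 * q) := by positivity
  induction k with
  | zero =>
    rw [itS]
    refine (nr_X hρ M).trans (le_of_eq ?_)
    simp
  | succ k ih =>
    have hkq : (k : ℝ) + 1 ≤ q := by exact_mod_cast hk
    specialize ih (by omega)
    set w := nr (1 / (4 * (q : ℝ))) M (itS a b d k) with hw
    have hw0 : 0 ≤ w := nr_nonneg hρ M _
    have hX : (0 : ℝ) < 4 * q - 2 * k := by linarith
    have hX4 : (4 : ℝ) ≤ 4 * q - 2 * k := by linarith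
    set X := (4 : ℝ) * q - 2 * k with hXdef
    have hw4 : w ≤ 1 / 4 := ih.trans (one_div_le_one_div_of_le (by norm_num) hX4)
    have h0 := itS_const a b d k
    have hS : w / (1 - w) ≤ 1 / 3 := by
      rw [div_le_iff₀ (by linarith)]; linarith
    have hn := nr_numS hρ M ha d (G := itS a b d k) (by linarith : w < 1)
    have he := nr_numS hρ M hb d (G := itS a b d k) (by linarith : w < 1)
    rw [← hw] at hn he
    have hi := nr_inv hρ M (by linarith : nr (1 / (4 * (q : ℝ))) M (numS b d (itS a b d k)) < 1)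
      (den_inv b d h0)
    rw [itS]
    refine (nr_mul hρ M _ _).trans ?_
    have hi2 : 1 / (1 - nr (1 / (4 * (q : ℝ))) M (numS b d (itS a b d k)))
        ≤ 1 / (1 - w / (1 - w)) :=
      one_div_le_one_div_of_le (by linarith) (by linarith)
    have h5 : nr (1 / (4 * (q : ℝ))) M (numS a d (itS a b d k)) *
        nr (1 / (4 * (q : ℝ))) M (invOfUnit (1 + numS b d (itS a b d k)) 1)
        ≤ w / (1 - w) * (1 / (1 - w / (1 - w))) :=
      mul_le_mul hn (hi.trans hi2) (nr_nonneg hρ M _) (div_nonneg hw0 (by linarith))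
    refine h5.trans ?_
    have h6 : w / (1 - w) * (1 / (1 - w / (1 - w))) = w / (1 - 2 * w) := by
      have : 1 - w ≠ 0 := by linarith
      have h7 : 1 - 2 * w ≠ 0 := by linarith
      have h8 : 1 - w / (1 - w) = (1 - 2 * w) / (1 - w) := by field_simp; ring
      rw [h8]
      field_simp
    rw [h6]
    have h9 : w * X ≤ 1 := by
      rwa [le_div_iff₀ hX] at ih
    have h10 : (4 : ℝ) * q - 2 * ((k + 1 : ℕ) : ℝ) = X - 2 := by push_cast; ring
    rw [h10, div_le_div_iff₀ (by linarith) (by linarith)]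
    nlinarith

/-- size of the coefficients of the formal iterates -/
lemma len_itS {a b : ℕ → MvPolynomial σ ℤ} (ha : ∀ i, len (a i) ≤ 1) (hb : ∀ i, len (b i) ≤ 1)
    (d q : ℕ) (hq : 1 ≤ q) (j : ℕ) :
    len (PowerSeries.coeff j (itS a b d q)) ≤ (4 * q) ^ j := by
  have hq' : (1 : ℝ) ≤ q := by exact_mod_cast hq
  have hρ : (0 : ℝ) ≤ 1 / (4 * q) := by positivity
  have h1 := nr_itS ha hb d q hq (j + 1) q le_rfl
  have h2 : (len (PowerSeries.coeff j (itS a b d q)) : ℝ) * (1 / (4 * (q : ℝ))) ^ j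
      ≤ nr (1 / (4 * (q : ℝ))) (j + 1) (itS a b d q) := by
    unfold nr
    exact Finset.single_le_sum
      (f := fun j => (len (PowerSeries.coeff j (itS a b d q)) : ℝ) * (1 / (4 * (q : ℝ))) ^ j)
      (fun _ _ => by positivity) (Finset.mem_range.mpr (Nat.lt_succ_self j))
  have h3 : 1 / (4 * (q : ℝ) - 2 * q) ≤ 1 := by
    rw [div_le_one (by linarith)]; linarith
  have h4 := h2.trans (h1.trans h3)
  rw [one_div, inv_pow, ← div_eq_mul_inv, div_le_one (by positivity)] at h4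
  exact_mod_cast h4

end Bounds

end Pool.Agent.TH231
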