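import Mathlib
import Pool.Agent.TH231.Coef
import Pool.Agent.TH231.PSa

set_option autoImplicit false

/-! Taylor coefficients of iterates of a rational map are given by the formal iterates. -/

namespace Pool.Agent.TH231

open PowerSeries Filter Topology Asymptotics

/-- Taylor series -/
noncomputable def TS (f : ℂ → ℂ) : ℂ⟦X⟧ := PowerSeries.mk (tc f)

lemma coeff_TS (f : ℂ → ℂ) (j : ℕ) : PowerSeries.coeff j (TS f) = tc f j := by
  rw [TS, PowerSeries.coeff_mk]

lemma TS_mul {f g : ℂ → ℂ} (hf : AnalyticAt ℂ f 0) (hg : AnalyticAt ℂ g 0) :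
    TS (fun z => f z * g z) = TS f * TS g := by
  ext n
  rw [coeff_TS, PowerSeries.coeff_mul]
  have h1 : iteratedDeriv n (fun z => f z * g z) 0 = ∑ i ∈ Finset.range (n + 1),
      n.choose i * iteratedDeriv i f 0 * iteratedDeriv (n - i) g 0 :=
    iteratedDeriv_mul hf.contDiffAt hg.contDiffAt
  rw [Finset.Nat.sum_antidiagonal_eq_sum_range_succ_mk, tc, h1, Finset.sum_div]
  refine Finset.sum_congr rfl fun i hi => ?_
  rw [Finset.mem_range] at hi
  rw [coeff_TS, coeff_TS, tc, tc]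
  have h2 : (n.choose i : ℂ) * (i.factorial : ℂ) * ((n - i).factorial : ℂ) = (n.factorial : ℂ) := by
    exact_mod_cast Nat.choose_mul_factorial_mul_factorial (by omega : i ≤ n)
  have h3 : (i.factorial : ℂ) ≠ 0 := by exact_mod_cast i.factorial_ne_zero
  have h4 : ((n - i).factorial : ℂ) ≠ 0 := by exact_mod_cast (n - i).factorial_ne_zero
  have h5 : (n.factorial : ℂ) ≠ 0 := by exact_mod_cast n.factorial_ne_zero
  rw [div_mul_div_comm, div_eq_div_iff h5 (mul_ne_zero h3 h4), ← h2]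
  ring

lemma TS_add {f g : ℂ → ℂ} (hf : AnalyticAt ℂ f 0) (hg : AnalyticAt ℂ g 0) :
    TS (fun z => f z + g z) = TS f + TS g := by
  ext n
  rw [map_add, coeff_TS, coeff_TS, coeff_TS, tc_add hf hg]

lemma TS_const_mul {f : ℂ → ℂ} (hf : AnalyticAt ℂ f 0) (c : ℂ) :
    TS (fun z => c * f z) = PowerSeries.C c * TS f := by
  ext n
  rw [PowerSeries.coeff_C_mul, coeff_TS, coeff_TS, tc_const_mul hf]

lemma TS_one : TS (fun _ => 1) = 1 := by
  ext n
  rw [coeff_TS, PowerSeries.coeff_one, tc]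
  rw [iteratedDeriv_const]
  split_ifs with h
  · subst h; simp
  · simp

lemma TS_zero : TS (fun _ => 0) = 0 := by
  ext n
  rw [coeff_TS, tc]
  rw [iteratedDeriv_const]
  simp

lemma TS_id : TS (fun z => z) = PowerSeries.X := by
  ext n
  rw [coeff_TS, PowerSeries.coeff_X]
  rcases Nat.lt_or_ge n 2 with h | h
  · interval_cases n
    · rw [tc_zero]; simp
    · rw [tc_one]; simp
  · have := tc_id_zero_of_ge_two 1 h
    simp only [one_mul] at this
    rw [this, if_neg (by omega)]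

lemma TS_pow {f : ℂ → ℂ} (hf : AnalyticAt ℂ f 0) (i : ℕ) :
    TS (fun z => f z ^ i) = TS f ^ i := by
  induction i with
  | zero => simp only [pow_zero]; exact TS_one
  | succ i ih =>
    have h1 : (fun z => f z ^ (i + 1)) = fun z => f z ^ i * f z := by
      funext z; rw [pow_succ]
    have h2 : AnalyticAt ℂ (fun z => f z ^ i) 0 := hf.pow i
    rw [h1, TS_mul h2 hf, ih, pow_succ]

lemma analyticAt_sum {f : ℕ → ℂ → ℂ} (s : Finset ℕ) (h : ∀ i ∈ s, AnalyticAt ℂ (f i) 0) :
    AnalyticAt ℂ (fun z => ∑ i ∈ s, f i z) 0 :=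
  Finset.analyticAt_fun_sum s h

lemma TS_sum {f : ℕ → ℂ → ℂ} (s : Finset ℕ) (h : ∀ i ∈ s, AnalyticAt ℂ (f i) 0) :
    TS (fun z => ∑ i ∈ s, f i z) = ∑ i ∈ s, TS (f i) := by
  classical
  induction s using Finset.induction_on with
  | empty => simp only [Finset.sum_empty]; exact TS_zero
  | insert x s hx ih =>
    have h1 : (fun z => ∑ i ∈ insert x s, f i z) = fun z => f x z + ∑ i ∈ s, f i z := by
      funext z; rw [Finset.sum_insert hx]
    have h2 : ∀ i ∈ s, AnalyticAt ℂ (f i) 0 := fun i hi => h i (Finset.mem_insert_of_mem hi)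
    rw [h1, TS_add (h x (Finset.mem_insert_self _ _)) (analyticAt_sum s h2), ih h2,
      Finset.sum_insert hx]

lemma TS_congr {f g : ℂ → ℂ} (h : f =ᶠ[𝓝 0] g) : TS f = TS g := by
  ext n
  rw [coeff_TS, coeff_TS, tc_congr h]

/-- numerator as a function -/
noncomputable def numF (a : ℕ → ℂ) (d : ℕ) (w : ℂ) : ℂ :=
  ∑ i ∈ Finset.range d, a (i + 1) * w ^ (i + 1)

lemma numF_zero (a : ℕ → ℂ) (d : ℕ) : numF a d 0 = 0 := by
  unfold numF
  exact Finset.sum_eq_zero fun i _ => by simp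

lemma numF_analytic (a : ℕ → ℂ) (d : ℕ) {g : ℂ → ℂ} (hg : AnalyticAt ℂ g 0) :
    AnalyticAt ℂ (fun z => numF a d (g z)) 0 := by
  unfold numF
  exact analyticAt_sum (f := fun i z => a (i + 1) * g z ^ (i + 1)) _
    fun i _ => analyticAt_const.mul (hg.pow _)

lemma TS_numF (a : ℕ → ℂ) (d : ℕ) {g : ℂ → ℂ} (hg : AnalyticAt ℂ g 0) :
    TS (fun z => numF a d (g z)) = numS a d (TS g) := by
  unfold numF numS
  rw [TS_sum (f := fun i z => a (i + 1) * g z ^ (i + 1)) _
    fun i _ => analyticAt_const.mul (hg.pow _)]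
  refine Finset.sum_congr rfl fun i _ => ?_
  have h2 : AnalyticAt ℂ (fun z => g z ^ (i + 1)) 0 := hg.pow _
  rw [TS_const_mul h2, TS_pow hg]

/-- the rational map -/
noncomputable def ratF (a b : ℕ → ℂ) (d : ℕ) (w : ℂ) : ℂ := numF a d w / (1 + numF b d w)

lemma ratF_zero (a b : ℕ → ℂ) (d : ℕ) : ratF a b d 0 = 0 := by
  rw [ratF, numF_zero, zero_div]

lemma ratF_comp_analytic (a b : ℕ → ℂ) (d : ℕ) {g : ℂ → ℂ} (hg : AnalyticAt ℂ g 0)
    (hg0 : g 0 = 0) : AnalyticAt ℂ (fun z => ratF a b d (g z)) 0 := by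
  unfold ratF
  refine (numF_analytic a d hg).div (analyticAt_const.add (numF_analytic b d hg)) ?_
  rw [hg0, numF_zero]; simp

lemma ratF_iter (a b : ℕ → ℂ) (d k : ℕ) :
    AnalyticAt ℂ ((ratF a b d)^[k]) 0 ∧ (ratF a b d)^[k] 0 = 0 ∧
      TS ((ratF a b d)^[k]) = itS a b d k := by
  induction k with
  | zero =>
    refine ⟨analyticAt_id, rfl, ?_⟩
    rw [itS, ← TS_id]
    rfl
  | succ k ih =>
    obtain ⟨h1, h2, h3⟩ := ih
    have e : (ratF a b d)^[k + 1] = fun z => ratF a b d ((ratF a b d)^[k] z) := by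
      funext z; rw [Function.iterate_succ_apply']
    have h4 : AnalyticAt ℂ ((ratF a b d)^[k + 1]) 0 := by
      rw [e]; exact ratF_comp_analytic a b d h1 h2
    have h5 : (ratF a b d)^[k + 1] 0 = 0 := by
      rw [Function.iterate_succ_apply', h2, ratF_zero]
    refine ⟨h4, h5, ?_⟩
    symm
    apply itS_succ_unique
    rw [← h3]
    have h6 : AnalyticAt ℂ (fun z => 1 + numF b d ((ratF a b d)^[k] z)) 0 :=
      analyticAt_const.add (numF_analytic b d h1)
    have h7 : TS (fun z => 1 + numF b d ((ratF a b d)^[k] z))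
        = 1 + numS b d (TS ((ratF a b d)^[k])) := by
      rw [TS_add analyticAt_const (numF_analytic b d h1), TS_one, TS_numF b d h1]
    rw [← h7, ← TS_mul h4 h6, ← TS_numF a d h1]
    apply TS_congr
    have h8 : ∀ᶠ z in 𝓝 (0 : ℂ), 1 + numF b d ((ratF a b d)^[k] z) ≠ 0 := by
      refine h6.continuousAt.eventually_ne ?_
      rw [h2, numF_zero]; simp
    filter_upwards [h8] with z hz
    rw [Function.iterate_succ_apply', ratF]
    field_simp

lemma tc_iter_sub (a b : ℕ → ℂ) (d k j : ℕ) :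
    tc (fun z => (ratF a b d)^[k] z - z) j
      = PowerSeries.coeff j (itS a b d k) - if j = 1 then 1 else 0 := by
  obtain ⟨h1, h2, h3⟩ := ratF_iter a b d k
  have h4 : AnalyticAt ℂ (fun z : ℂ => z) 0 := analyticAt_id
  rw [tc_sub h1 h4, ← h3, coeff_TS]
  congr 1
  have := congrArg (PowerSeries.coeff j) TS_id
  rw [coeff_TS, PowerSeries.coeff_X] at this
  exact this

lemma eval_num (a : ℕ → ℂ) (d : ℕ) (w : ℂ) :
    (∑ i ∈ Finset.range d, Polynomial.C (a (i + 1)) * Polynomial.X ^ (i + 1)).eval w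
      = numF a d w := by
  rw [Polynomial.eval_finsetSum]
  unfold numF
  refine Finset.sum_congr rfl fun i _ => ?_
  simp

lemma numF_coeff (P : Polynomial ℂ) (h0 : P.coeff 0 = 0) {d : ℕ} (hd : P.natDegree ≤ d) (w : ℂ) :
    numF P.coeff d w = P.eval w := by
  rw [Polynomial.eval_eq_sum_range' (Nat.lt_succ_of_le hd), Finset.sum_range_succ', h0]
  simp [numF]

end Pool.Agent.TH231
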