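import Mathlib
import Pool.Agent.TH231.Harn
import Pool.Agent.TH231.PSc

set_option autoImplicit false

namespace Pool.Agent.TH231

open Metric Filter Topology Complex Asymptotics Set

/-- A rational map without small cycles at an irrationally indifferent fixed point satisfies a
Diophantine type condition. -/
theorem dio_of_nocyc (P Q : Polynomial ℂ) (hPQ : IsCoprime P Q)
    (hd : 2 ≤ max P.natDegree Q.natDegree) (hP0 : P.eval 0 = 0) (hQ0 : Q.eval 0 ≠ 0)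
    {lam : ℂ} (hlam : ‖lam‖ = 1) (hres : ∀ q : ℕ, 1 ≤ q → lam ^ q ≠ 1)
    (hder : deriv (fun w : ℂ => P.eval w / Q.eval w) 0 = lam) {r : ℝ} (hr : 0 < r)
    (hdiff : DifferentiableOn ℂ (fun w : ℂ => P.eval w / Q.eval w) (ball 0 r))
    (hnc : ∀ z ∈ ball (0 : ℂ) r, ∀ k, 1 ≤ k →
      (∀ j < k, (fun w : ℂ => P.eval w / Q.eval w)^[j] z ∈ ball (0 : ℂ) r) →
      (fun w : ℂ => P.eval w / Q.eval w)^[k] z = z → z = 0) :
    ∃ C k0 : ℕ, ∀ q : ℕ, 1 ≤ q → Real.exp (-((C : ℝ) * (q : ℝ) ^ k0)) ≤ ‖lam ^ q - 1‖ := by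
  set f : ℂ → ℂ := fun w : ℂ => P.eval w / Q.eval w with hf
  set a : ℂ := (Q.eval 0)⁻¹ with ha
  have ha0 : a ≠ 0 := inv_ne_zero hQ0
  have hCa : Polynomial.C a * Polynomial.C a⁻¹ = 1 := by
    rw [← Polynomial.C_mul, mul_inv_cancel₀ ha0, Polynomial.C_1]
  have hcop : IsCoprime (Polynomial.C a * P) (Polynomial.C a * Q) := by
    obtain ⟨U, V, hUV⟩ := hPQ
    refine ⟨Polynomial.C a⁻¹ * U, Polynomial.C a⁻¹ * V, ?_⟩
    linear_combination (U * P + V * Q) * hCa + hUV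
  have hfe : (fun w : ℂ => (Polynomial.C a * P).eval w / (Polynomial.C a * Q).eval w) = f := by
    funext w
    rw [Polynomial.eval_mul, Polynomial.eval_mul, Polynomial.eval_C, mul_div_mul_left _ _ ha0]
  obtain ⟨C, k0, hCk⟩ := family_bound (Polynomial.C a * P) (Polynomial.C a * Q) hcop
    (by rw [Polynomial.natDegree_C_mul ha0, Polynomial.natDegree_C_mul ha0]; exact hd)
    (by rw [Polynomial.eval_mul, hP0, mul_zero])
    (by rw [Polynomial.eval_mul, Polynomial.eval_C, ha, inv_mul_cancel₀ hQ0])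
  rw [Polynomial.natDegree_C_mul ha0, Polynomial.natDegree_C_mul ha0, hfe] at hCk
  set d := max P.natDegree Q.natDegree with hdd
  have hf0 : f 0 = 0 := by rw [hf]; simp [hP0]
  obtain ⟨c, hc0, hc1, hH⟩ := harnack_bound hlam hr hdiff hf0 hder hnc hres
  set C1 : ℕ := ⌈2 / c * (2 * d + 2)⌉₊ with hC1
  have hC1' : 2 / c * (2 * d + 2) ≤ C1 := Nat.le_ceil _
  refine ⟨3 * C + 3 * C1 + 3, k0 + 2, fun q hq => ?_⟩
  have hq1 : (1 : ℝ) ≤ q := by exact_mod_cast hq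
  obtain ⟨j, hj, hjb⟩ := hCk q hq
  obtain ⟨b, hb0, hb3, hbj⟩ := hH q hq
  have h1 := hjb.trans (hbj j)
  -- bound of the scaling factor
  set X : ℝ := 2 * q / c with hX
  have hX1 : 1 ≤ X := by
    rw [hX, le_div_iff₀ hc0]; linarith
  have h2 : b / (c / (2 * q)) ^ j = b * X ^ j := by
    rw [hX, div_pow, div_pow]
    field_simp
  have h3 : X ^ j ≤ Real.exp (C1 * (q : ℝ) ^ 2) := by
    have h4 : X ^ j ≤ X ^ (2 * d * q + 2) := pow_le_pow_right₀ hX1 hj.le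
    have h5 : X ≤ Real.exp X := by linarith [Real.add_one_le_exp X]
    have h6 : X ^ (2 * d * q + 2) ≤ Real.exp (((2 * d * q + 2 : ℕ) : ℝ) * X) := by
      rw [Real.exp_nat_mul]
      exact pow_le_pow_left₀ (by linarith) h5 _
    refine h4.trans (h6.trans (Real.exp_le_exp.mpr ?_))
    have h7 : ((2 * d * q + 2 : ℕ) : ℝ) ≤ (2 * d + 2) * q := by
      push_cast; nlinarith
    calc ((2 * d * q + 2 : ℕ) : ℝ) * X ≤ ((2 * d + 2) * q) * X :=
          mul_le_mul_of_nonneg_right h7 (by linarith)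
      _ = (2 / c * (2 * d + 2)) * (q : ℝ) ^ 2 := by rw [hX]; field_simp
      _ ≤ C1 * (q : ℝ) ^ 2 := mul_le_mul_of_nonneg_right hC1' (by positivity)
  rw [h2] at h1
  have h8 : Real.exp (-((C : ℝ) * (q : ℝ) ^ k0)) ≤ b * Real.exp (C1 * (q : ℝ) ^ 2) :=
    h1.trans (mul_le_mul_of_nonneg_left h3 hb0.le)
  have h9 : Real.exp (-((C : ℝ) * (q : ℝ) ^ k0) - C1 * (q : ℝ) ^ 2) ≤ b := by
    rw [Real.exp_sub, div_le_iff₀ (Real.exp_pos _)]
    exact h8
  have h10 : (Real.exp (-((C : ℝ) * (q : ℝ) ^ k0) - C1 * (q : ℝ) ^ 2)) ^ 3 ≤ b ^ 3 :=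
    pow_le_pow_left₀ (Real.exp_pos _).le h9 3
  rw [← Real.exp_nat_mul, hb3] at h10
  have h11 : (9 : ℝ) ≤ Real.exp 3 := by
    have e1 : (2.7182818283 : ℝ) < Real.exp 1 := Real.exp_one_gt_d9
    have e2 : Real.exp 3 = (Real.exp 1) ^ 3 := by rw [← Real.exp_nat_mul]; norm_num
    rw [e2]
    calc (9 : ℝ) ≤ (2.7182818283 : ℝ) ^ 3 := by norm_num
      _ ≤ _ := pow_le_pow_left₀ (by norm_num) e1.le 3
  have h12 : Real.exp (-(((3 * C + 3 * C1 + 3 : ℕ) : ℝ) * (q : ℝ) ^ (k0 + 2))) * 9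
      ≤ 9 * ‖lam ^ q - 1‖ := by
    refine le_trans ?_ h10
    refine le_trans (mul_le_mul_of_nonneg_left h11 (Real.exp_pos _).le) ?_
    rw [← Real.exp_add]
    apply Real.exp_le_exp.mpr
    push_cast
    have hk1 : (q : ℝ) ^ k0 ≤ (q : ℝ) ^ (k0 + 2) := pow_le_pow_right₀ hq1 (by omega)
    have hk2 : (q : ℝ) ^ 2 ≤ (q : ℝ) ^ (k0 + 2) := pow_le_pow_right₀ hq1 (by omega)
    have hk3 : (1 : ℝ) ≤ (q : ℝ) ^ (k0 + 2) := one_le_pow₀ hq1
    have hC0 : (0 : ℝ) ≤ C := Nat.cast_nonneg _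
    have hC10 : (0 : ℝ) ≤ C1 := Nat.cast_nonneg _
    nlinarith [mul_le_mul_of_nonneg_left hk1 hC0, mul_le_mul_of_nonneg_left hk2 hC10]
  linarith

/-- A rational map of degree at least two without small cycles at an irrationally indifferent
fixed point is linearizable there. -/
theorem linearizable_of_nocyc (P Q : Polynomial ℂ) (hPQ : IsCoprime P Q)
    (hd : 2 ≤ max P.natDegree Q.natDegree) (hP0 : P.eval 0 = 0) (hQ0 : Q.eval 0 ≠ 0)
    {θ : ℝ} (hθ : Irrational θ)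
    (hder : deriv (fun w : ℂ => P.eval w / Q.eval w) 0
      = Complex.exp (2 * (Real.pi : ℂ) * Complex.I * (θ : ℂ))) {r : ℝ} (hr : 0 < r)
    (hnc : ∀ z ∈ ball (0 : ℂ) r, ∀ k, 1 ≤ k →
      (∀ j < k, (fun w : ℂ => P.eval w / Q.eval w)^[j] z ∈ ball (0 : ℂ) r) →
      (fun w : ℂ => P.eval w / Q.eval w)^[k] z = z → z = 0) :
    ∃ (h : ℂ → ℂ) (ρ : ℝ), 0 < ρ ∧ AnalyticAt ℂ h 0 ∧ h 0 = 0 ∧ deriv h 0 ≠ 0 ∧
      ∀ z ∈ ball (0 : ℂ) ρ, P.eval (h z) / Q.eval (h z)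
        = h (deriv (fun w : ℂ => P.eval w / Q.eval w) 0 * z) := by
  set f : ℂ → ℂ := fun w : ℂ => P.eval w / Q.eval w with hf
  set lam : ℂ := Complex.exp (2 * (Real.pi : ℂ) * Complex.I * (θ : ℂ)) with hlam
  have hlam1 : ‖lam‖ = 1 := by
    rw [hlam, Complex.norm_exp]
    simp
  have hres : ∀ q : ℕ, 1 ≤ q → lam ^ q ≠ 1 := by
    intro q hq h
    have h1 := norm_pow_sub_one_ge (θ := θ) q
    rw [← hlam, h, sub_self, norm_zero] at h1
    have h2 := dd_pos hθ hq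
    linarith
  -- radius without poles
  have hQc : ContinuousAt (fun w : ℂ => Q.eval w) 0 := Q.continuous.continuousAt
  obtain ⟨s, hs, hsb⟩ := Metric.eventually_nhds_iff_ball.mp (hQc.eventually_ne hQ0)
  set t := min r s with ht
  have ht0 : 0 < t := lt_min hr hs
  have hdiff : DifferentiableOn ℂ f (ball 0 t) := by
    refine DifferentiableOn.div P.differentiable.differentiableOn
      Q.differentiable.differentiableOn ?_
    intro z hz
    exact hsb z (ball_subset_ball (min_le_right _ _) hz)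
  have htr : ball (0 : ℂ) t ⊆ ball 0 r := ball_subset_ball (min_le_left _ _)
  have hnc' : ∀ z ∈ ball (0 : ℂ) t, ∀ k, 1 ≤ k → (∀ j < k, f^[j] z ∈ ball (0 : ℂ) t) →
      f^[k] z = z → z = 0 := fun z hz k hk hj hkz =>
    hnc z (htr hz) k hk (fun j hjk => htr (hj j hjk)) hkz
  obtain ⟨C, k0, hdio⟩ := dio_of_nocyc P Q hPQ hd hP0 hQ0 hlam1 hres hder ht0 hdiff hnc'
  have hf0 : f 0 = 0 := by rw [hf]; simp [hP0]
  obtain ⟨h, ρ, hρ, hh, hh0, hh1, hconj⟩ := kam_linearize hθ hlam C k0 hdio ht0 hdiff hf0 hder hnc'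
  refine ⟨h, ρ, hρ, hh, hh0, hh1, fun z hz => ?_⟩
  rw [hder]
  exact hconj z hz

/-- small cycles -/
theorem small_cycles (P Q : Polynomial ℂ) (hPQ : IsCoprime P Q)
    (hd : 2 ≤ max P.natDegree Q.natDegree) (hP0 : P.eval 0 = 0) (hQ0 : Q.eval 0 ≠ 0)
    {θ : ℝ} (hθ : Irrational θ)
    (hder : deriv (fun w : ℂ => P.eval w / Q.eval w) 0
      = Complex.exp (2 * (Real.pi : ℂ) * Complex.I * (θ : ℂ)))
    (hnl : ¬ ∃ h : ℂ → ℂ, ∃ r : ℝ, 0 < r ∧ AnalyticAt ℂ h 0 ∧ h 0 = 0 ∧ deriv h 0 ≠ 0 ∧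
          ∀ z ∈ Metric.ball (0 : ℂ) r,
            P.eval (h z) / Q.eval (h z)
              = h (deriv (fun w : ℂ => P.eval w / Q.eval w) 0 * z)) (ε : ℝ) (hε : 0 < ε) :
    {z : ℂ | z ∈ Function.periodicPts (fun w : ℂ => P.eval w / Q.eval w) ∧
          ∀ n : ℕ, (fun w : ℂ => P.eval w / Q.eval w)^[n] z ∈ Metric.ball (0 : ℂ) ε}.Infinite := by
  intro hfin
  apply hnl
  set f : ℂ → ℂ := fun w : ℂ => P.eval w / Q.eval w with hf
  set S : Set ℂ := {z : ℂ | z ∈ Function.periodicPts f ∧ ∀ n : ℕ, f^[n] z ∈ ball (0 : ℂ) ε} with hS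
  have h1 : (S \ {0})ᶜ ∈ 𝓝 (0 : ℂ) := by
    refine (hfin.subset sdiff_subset).isClosed.isOpen_compl.mem_nhds ?_
    simp
  obtain ⟨s, hs, hsb⟩ := Metric.mem_nhds_iff.mp h1
  refine linearizable_of_nocyc P Q hPQ hd hP0 hQ0 hθ hder (r := min ε s) (lt_min hε hs) ?_
  intro z hz k hk hj hkz
  have hper : Function.IsPeriodicPt f k z := hkz
  have hzS : z ∈ S := by
    refine ⟨⟨k, hk, hper⟩, fun n => ?_⟩
    have h2 : f^[n] z = f^[n % k] z := (hper.iterate_mod_apply n).symm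
    rw [h2]
    exact ball_subset_ball (min_le_left _ _) (hj _ (Nat.mod_lt _ hk))
  by_contra hz0
  have h3 := hsb (ball_subset_ball (min_le_right _ _) hz)
  exact h3 ⟨hzS, hz0⟩

end Pool.Agent.TH231
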