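import Mathlib
import Pool.Agent.TH231.Dio

set_option autoImplicit false

/-! Version of the lower bound with an exponent depending only on the degree. -/

namespace Pool.Agent.TH231

open Metric Filter Topology Asymptotics Complex Set
open Pool.Agent.TH596.EffNull (eff_null len len_add_le len_sum_le len_one_le len_neg len_mul_le
  len_zero len_X_le)

theorem family_bound_unif (d : ℕ) (hd : 2 ≤ d) : ∃ k0 : ℕ, ∀ P Q U V : Polynomial ℂ,
    U * P + V * Q = 1 → U.natDegree ≤ d → V.natDegree ≤ d →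
    max P.natDegree Q.natDegree = d → P.eval 0 = 0 → Q.eval 0 = 1 →
    ∃ C : ℕ, ∀ q, 1 ≤ q → ∃ j < 2 * d * q + 2,
      Real.exp (-((C : ℝ) * (q : ℝ) ^ k0)) ≤
        ‖tc (fun z => (fun w : ℂ => P.eval w / Q.eval w)^[q] z - z) j‖ := by
  classical
  obtain ⟨D, hDdef⟩ : ∃ D, D = d := ⟨d, rfl⟩
  obtain ⟨k, hk⟩ := eff_null_fintype (Sg D)
  refine ⟨2 * k, ?_⟩
  intro P Q U V hUV hUd hVd hddef hP0 hQ0
  replace hddef := hddef.symm
  have hPd : P.natDegree ≤ d := by rw [hddef]; exact le_max_left _ _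
  have hQd : Q.natDegree ≤ d := by rw [hddef]; exact le_max_right _ _
  have hPc0 : P.coeff 0 = 0 := by rw [Polynomial.coeff_zero_eq_eval_zero, hP0]
  have hQc0 : Q.coeff 0 = 1 := by rw [Polynomial.coeff_zero_eq_eval_zero, hQ0]
  -- the leading coefficient
  obtain ⟨c0, l, hc0, hl, hld⟩ : ∃ (c0 : Fin 4) (l : ℕ → ℂ),
      (c0 = 0 ∨ c0 = 1) ∧ ((c0 = 0 → l = P.coeff) ∧ (c0 = 1 → l = Q.coeff)) ∧ l d ≠ 0 := by
    rcases le_total Q.natDegree P.natDegree with h | h
    · have hdP : d = P.natDegree := by rw [hddef]; exact max_eq_left h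
      refine ⟨0, P.coeff, Or.inl rfl, ⟨fun _ => rfl, fun h => absurd h (by decide)⟩, ?_⟩
      rw [hdP, Polynomial.coeff_natDegree, Polynomial.leadingCoeff_ne_zero]
      rintro rfl
      rw [hdP] at hd
      simp at hd
    · have hdQ : d = Q.natDegree := by rw [hddef]; exact max_eq_right h
      refine ⟨1, Q.coeff, Or.inr rfl, ⟨fun h => absurd h (by decide), fun _ => rfl⟩, ?_⟩
      rw [hdQ, Polynomial.coeff_natDegree, Polynomial.leadingCoeff_ne_zero]
      rintro rfl
      rw [hdQ] at hd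
      simp at hd
  set x0 : Sg D → ℂ := fun o => match o with
    | none => 1 / l d
    | some (c, i) => (![P.coeff i, Q.coeff i, U.coeff i, V.coeff i] : Fin 4 → ℂ) c with hx0
  have hv0 : vl x0 0 = P.coeff := by
    funext i
    unfold vl
    split_ifs with h
    · simp [hx0]
    · exact (Polynomial.coeff_eq_zero_of_natDegree_lt (by omega)).symm
  have hv1 : vl x0 1 = Q.coeff := by
    funext i
    unfold vl
    split_ifs with h
    · simp [hx0]
    · exact (Polynomial.coeff_eq_zero_of_natDegree_lt (by omega)).symm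
  have hv2 : vl x0 2 = U.coeff := by
    funext i
    unfold vl
    split_ifs with h
    · simp [hx0]
    · exact (Polynomial.coeff_eq_zero_of_natDegree_lt (by omega)).symm
  have hv3 : vl x0 3 = V.coeff := by
    funext i
    unfold vl
    split_ifs with h
    · simp [hx0]
    · exact (Polynomial.coeff_eq_zero_of_natDegree_lt (by omega)).symm
  set Bz : Polynomial (MvPolynomial (Sg D) ℤ) := bz (vr 0) (vr 1) (vr 2) (vr 3) d D with hBz
  set F0 : Finset (MvPolynomial (Sg D) ℤ) :=
    (Bz.support.image Bz.coeff) ∪ {MvPolynomial.X none * vr c0 d - 1} with hF0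
  set T0 : ℕ := F0.card + F0.sup MvPolynomial.totalDegree + F0.sup len +
    (∑ i : Sg D, ⌈‖x0 i‖⌉₊) + 2 with hT0
  refine ⟨(T0 + 6 * d + 7) ^ k, fun q hq => ?_⟩
  set g : ℕ → MvPolynomial (Sg D) ℤ := fun j =>
    PowerSeries.coeff j (itS (vr 0) (vr 1) d q) - (if j = 1 then 1 else 0) with hg
  set S : Finset (MvPolynomial (Sg D) ℤ) := F0 ∪ (Finset.range (2 * d * q + 2)).image g with hS
  set T : ℕ := T0 + (q + 2) * (2 * d * q + 2) + 1 with hT
  have hTT0 : T0 ≤ T := by rw [hT]; omega
  have haev : ∀ (x : Sg D → ℂ) (j : ℕ), MvPolynomial.aeval x (g j)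
      = PowerSeries.coeff j (itS (vl x 0) (vl x 1) d q) - (if j = 1 then 1 else 0) := by
    intro x j
    have h1 := map_itS (MvPolynomial.aeval x : MvPolynomial (Sg D) ℤ →ₐ[ℤ] ℂ).toRingHom
      (vr 0) (vr 1) d q
    have h2 := congrArg (PowerSeries.coeff j) h1
    rw [PowerSeries.coeff_map] at h2
    have h3 : (fun i => (MvPolynomial.aeval x : MvPolynomial (Sg D) ℤ →ₐ[ℤ] ℂ).toRingHom
        (vr 0 i)) = vl x 0 := by
      funext i; exact aeval_vr x 0 i
    have h4 : (fun i => (MvPolynomial.aeval x : MvPolynomial (Sg D) ℤ →ₐ[ℤ] ℂ).toRingHom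
        (vr 1 i)) = vl x 1 := by
      funext i; exact aeval_vr x 1 i
    rw [h3, h4] at h2
    rw [← h2, hg]
    simp only
    rw [map_sub]
    congr 1
    split_ifs <;> simp
  have hBzx : ∀ x : Sg D → ℂ, Bz.map (MvPolynomial.aeval x : MvPolynomial (Sg D) ℤ →ₐ[ℤ] ℂ).toRingHom
      = bz (vl x 0) (vl x 1) (vl x 2) (vl x 3) d D := by
    intro x
    rw [hBz, map_bz]
    congr 1
    · funext i; exact aeval_vr x 0 i
    · funext i; exact aeval_vr x 1 i
    · funext i; exact aeval_vr x 2 i
    · funext i; exact aeval_vr x 3 i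
  have hSne : ∀ x : Sg D → ℂ, ∃ P ∈ S, MvPolynomial.aeval x P ≠ 0 := by
    intro x
    by_contra hcon
    push Not at hcon
    have h1 : bz (vl x 0) (vl x 1) (vl x 2) (vl x 3) d D = 0 := by
      rw [← hBzx]
      ext i
      rw [Polynomial.coeff_map, Polynomial.coeff_zero]
      by_cases hi : i ∈ Bz.support
      · exact hcon _ (Finset.mem_union_left _ (Finset.mem_union_left _
          (Finset.mem_image_of_mem _ hi)))
      · rw [Polynomial.notMem_support_iff] at hi
        rw [hi]; simp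
    have h2 : x none * vl x c0 d - 1 = 0 := by
      have h3 := hcon _ (Finset.mem_union_left _ (Finset.mem_union_right _
        (Finset.mem_singleton_self _)))
      rw [map_sub, map_mul, aeval_vr] at h3
      simpa using h3
    obtain ⟨j, hj, hjne⟩ := family_ne (vl x 0) (vl x 1) (vl x 2) (vl x 3) (x none)
      (d := d) (D := D) (q := q) hd hq (l := vl x c0)
      (by rcases hc0 with rfl | rfl <;> simp) h1 h2
    apply hjne
    rw [← haev]
    exact hcon _ (Finset.mem_union_right _ (Finset.mem_image_of_mem _ (Finset.mem_range.mpr hj)))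
  have hcard : S.card ≤ T := by
    refine (Finset.card_union_le _ _).trans ?_
    have h1 : ((Finset.range (2 * d * q + 2)).image g).card ≤ 2 * d * q + 2 := by
      refine Finset.card_image_le.trans ?_
      rw [Finset.card_range]
    have h2 : F0.card ≤ T0 := by rw [hT0]; omega
    rw [hT]
    nlinarith
  have hdeg : ∀ P ∈ S, P.totalDegree ≤ T := by
    intro R hR
    rw [hS, Finset.mem_union] at hR
    rcases hR with hR | hR
    · refine le_trans ?_ hTT0
      have : R.totalDegree ≤ F0.sup MvPolynomial.totalDegree := Finset.le_sup hR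
      rw [hT0]; omega
    · rw [Finset.mem_image] at hR
      obtain ⟨j, hj, rfl⟩ := hR
      rw [Finset.mem_range] at hj
      have h1 := Dg.itS (a := (vr 0 : ℕ → MvPolynomial (Sg D) ℤ)) (b := vr 1)
        (fun i => vr_deg 0 i) (fun i => vr_deg 1 i) d q j
      rw [hg]
      refine (MvPolynomial.totalDegree_sub _ _).trans (max_le ?_ ?_)
      · refine h1.trans ?_
        rw [hT]
        nlinarith
      · split_ifs <;> simp
  have hcoef : ∀ P ∈ S, ∀ m, |MvPolynomial.coeff m P| ≤ (2 : ℤ) ^ T := by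
    intro R hR m
    have hlenR : len R ≤ 2 ^ T := by
      rw [hS, Finset.mem_union] at hR
      rcases hR with hR | hR
      · have h1 : len R ≤ F0.sup len := Finset.le_sup hR
        have h2 : len R ≤ T0 := by rw [hT0]; omega
        exact h2.trans (hTT0.trans (self_le_two_pow T))
      · rw [Finset.mem_image] at hR
        obtain ⟨j, hj, rfl⟩ := hR
        rw [Finset.mem_range] at hj
        have h1 := len_itS (a := (vr 0 : ℕ → MvPolynomial (Sg D) ℤ)) (b := vr 1)
          (fun i => vr_len 0 i) (fun i => vr_len 1 i) d q hq j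
        have h2 : len (g j) ≤ (4 * q) ^ j + 1 := by
          rw [hg]
          simp only
          rw [sub_eq_add_neg]
          refine (len_add_le _ _).trans (add_le_add h1 ?_)
          rw [len_neg]
          split_ifs
          · exact len_one_le
          · simp
        have h3 : (4 * q) ≤ 2 ^ (q + 2) := by
          rw [pow_add]
          have := self_le_two_pow q
          omega
        have h4 : (4 * q) ^ j ≤ 2 ^ ((q + 2) * (2 * d * q + 2)) := by
          calc (4 * q) ^ j ≤ (2 ^ (q + 2)) ^ j := Nat.pow_le_pow_left h3 _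
            _ = 2 ^ ((q + 2) * j) := by rw [← pow_mul]
            _ ≤ 2 ^ ((q + 2) * (2 * d * q + 2)) :=
                Nat.pow_le_pow_right (by norm_num) (Nat.mul_le_mul_left _ hj.le)
        have h5 : (4 * q) ^ j + 1 ≤ 2 ^ ((q + 2) * (2 * d * q + 2) + 1) := by
          rw [pow_succ]
          have : 1 ≤ 2 ^ ((q + 2) * (2 * d * q + 2)) := Nat.one_le_two_pow
          omega
        refine h2.trans (h5.trans (Nat.pow_le_pow_right (by norm_num) ?_))
        rw [hT]; omega
    refine (coeff_le_len R m).trans ?_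
    exact_mod_cast hlenR
  have hx0b : ∀ i, ‖x0 i‖ ≤ (2 : ℝ) ^ T := by
    intro i
    have h1 : ‖x0 i‖ ≤ (⌈‖x0 i‖⌉₊ : ℝ) := Nat.le_ceil _
    have h2 : ⌈‖x0 i‖⌉₊ ≤ ∑ i : Sg D, ⌈‖x0 i‖⌉₊ :=
      Finset.single_le_sum (f := fun i => ⌈‖x0 i‖⌉₊) (fun _ _ => Nat.zero_le _) (Finset.mem_univ i)
    have h3 : ⌈‖x0 i‖⌉₊ ≤ 2 ^ T := by
      refine le_trans ?_ (self_le_two_pow T)
      refine le_trans ?_ hTT0
      rw [hT0]; omega
    refine h1.trans ?_
    exact_mod_cast h3
  obtain ⟨R, hR, hRb⟩ := hk T (by rw [hT, hT0]; omega) S hcard hdeg hcoef hSne x0 hx0b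
  have hTpow : (T : ℝ) ^ k ≤ (((T0 + 6 * d + 7) ^ k : ℕ) : ℝ) * (q : ℝ) ^ (2 * k) := by
    have h1 : T ≤ (T0 + 6 * d + 7) * q ^ 2 := by
      rw [hT]
      have hq2 : q ≤ q ^ 2 := by nlinarith
      have hq3 : 1 ≤ q ^ 2 := by nlinarith
      nlinarith
    have h2 : (T : ℝ) ≤ ((T0 + 6 * d + 7 : ℕ) : ℝ) * (q : ℝ) ^ 2 := by exact_mod_cast h1
    calc (T : ℝ) ^ k ≤ (((T0 + 6 * d + 7 : ℕ) : ℝ) * (q : ℝ) ^ 2) ^ k :=
          pow_le_pow_left₀ (Nat.cast_nonneg _) h2 _
      _ = _ := by rw [mul_pow, ← pow_mul]; push_cast; ring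
  have hexp : Real.exp (-((((T0 + 6 * d + 7) ^ k : ℕ) : ℝ) * (q : ℝ) ^ (2 * k)))
      ≤ Real.exp (-((T : ℝ) ^ k)) := Real.exp_le_exp.mpr (by linarith)
  have hfeq : (fun w : ℂ => P.eval w / Q.eval w) = ratF P.coeff Q.coeff d := by
    funext w
    have h1 : Q.eval w = 1 + numF Q.coeff d w := by
      conv_lhs => rw [← one_add_pN_coeff Q hQc0 hQd]
      rw [Polynomial.eval_add, eval_pN]; simp
    rw [ratF, numF_coeff P hPc0 hPd, ← h1]
  rw [hS, Finset.mem_union] at hR
  rcases hR with hR | hR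
  · exfalso
    have h0 : MvPolynomial.aeval x0 R = 0 := by
      rw [hF0, Finset.mem_union] at hR
      rcases hR with hR | hR
      · rw [Finset.mem_image] at hR
        obtain ⟨i, -, rfl⟩ := hR
        have h1 := congrArg (fun p => Polynomial.coeff p i) (hBzx x0)
        simp only [Polynomial.coeff_map] at h1
        have h2 : bz (vl x0 0) (vl x0 1) (vl x0 2) (vl x0 3) d D = 0 := by
          rw [hv0, hv1, hv2, hv3]
          unfold bz
          rw [pN_coeff P hPc0 hPd, one_add_pN_coeff Q hQc0 hQd, pU_coeff U (by omega),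
            pU_coeff V (by omega), hUV, sub_self]
        rw [h2, Polynomial.coeff_zero] at h1
        exact h1
      · rw [Finset.mem_singleton] at hR
        rw [hR, map_sub, map_mul, aeval_vr, MvPolynomial.aeval_X]
        have h1 : vl x0 c0 d = l d := by
          rcases hc0 with h | h
          · rw [hl.1 h, h, hv0]
          · rw [hl.2 h, h, hv1]
        rw [h1]
        have h2 : x0 none = 1 / l d := rfl
        rw [h2, one_div, inv_mul_cancel₀ hld]
        simp
    rw [h0, norm_zero] at hRb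
    exact absurd hRb (not_le.mpr (Real.exp_pos _))
  · rw [Finset.mem_image] at hR
    obtain ⟨j, hj, rfl⟩ := hR
    rw [Finset.mem_range] at hj
    refine ⟨j, hj, ?_⟩
    rw [hfeq, tc_iter_sub]
    rw [haev, hv0, hv1] at hRb
    exact hexp.trans hRb

end Pool.Agent.TH231
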