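import Mathlib
import Pool.Agent.TH231.PScU

set_option autoImplicit false

/-! Linearizable rational maps satisfy a Diophantine type condition; the exponent depends only on
the degree. -/

namespace Pool.Agent.TH231

open Metric Filter Topology Complex Asymptotics Set

lemma bezout_bound {P Q : Polynomial ℂ} (h : IsCoprime P Q) (hQ : Q ≠ 0) {d : ℕ}
    (hP : P.natDegree ≤ d) (hQd : Q.natDegree ≤ d) :
    ∃ U V : Polynomial ℂ, U * P + V * Q = 1 ∧ U.natDegree ≤ d ∧ V.natDegree ≤ d := by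
  obtain ⟨U0, V0, h0⟩ := h
  have hdm : Q * (U0 / Q) + U0 % Q = U0 := EuclideanDomain.div_add_mod U0 Q
  have h1 : (U0 % Q) * P + (V0 + (U0 / Q) * P) * Q = 1 := by
    linear_combination h0 + P * hdm
  have hlt : (U0 % Q).degree < Q.degree := Polynomial.degree_mod_lt U0 hQ
  have h2 : (U0 % Q).natDegree ≤ Q.natDegree := Polynomial.natDegree_le_natDegree hlt.le
  refine ⟨U0 % Q, V0 + (U0 / Q) * P, h1, h2.trans hQd, ?_⟩
  by_cases hV : V0 + (U0 / Q) * P = 0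
  · rw [hV]; simp
  · have h3 : (V0 + (U0 / Q) * P) * Q = 1 - (U0 % Q) * P := by linear_combination h1
    have h4 : (V0 + (U0 / Q) * P).natDegree + Q.natDegree
        = (1 - (U0 % Q) * P).natDegree := by
      rw [← h3, Polynomial.natDegree_mul hV hQ]
    have h5 : (1 - (U0 % Q) * P).natDegree ≤ (U0 % Q).natDegree + P.natDegree := by
      refine (Polynomial.natDegree_sub_le _ _).trans (max_le (by simp) ?_)
      exact Polynomial.natDegree_mul_le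
    omega

/-- A linearizable map has no small cycles. -/
lemma nocyc_of_lin {f h : ℂ → ℂ} {lam : ℂ} (hlam : ‖lam‖ = 1) (hres : ∀ q : ℕ, 1 ≤ q → lam ^ q ≠ 1)
    (hh : AnalyticAt ℂ h 0) (hh0 : h 0 = 0) (hh1 : deriv h 0 ≠ 0) {r : ℝ} (hr : 0 < r)
    (hc : ∀ z ∈ ball (0 : ℂ) r, f (h z) = h (lam * z)) :
    ∃ ρ : ℝ, 0 < ρ ∧ ∀ z ∈ ball (0 : ℂ) ρ, ∀ k, 1 ≤ k → f^[k] z = z → z = 0 := by
  have hst : HasStrictDerivAt h (deriv h 0) 0 := hh.hasStrictDerivAt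
  obtain ⟨s, hs, hsinj⟩ : ∃ s : ℝ, 0 < s ∧ InjOn h (ball 0 s) := by
    have h1 := hst.eventually_left_inverse hh1
    obtain ⟨s, hs, hsb⟩ := Metric.eventually_nhds_iff_ball.mp h1
    refine ⟨s, hs, fun x hx y hy hxy => ?_⟩
    have h2 := hsb x hx
    have h3 := hsb y hy
    rw [← h2, ← h3, hxy]
  set t := min r s with ht
  have ht0 : 0 < t := lt_min hr hs
  have hmap : Filter.map h (𝓝 0) = 𝓝 (h 0) := hst.map_nhds_eq hh1
  have himg : h '' (ball 0 t) ∈ 𝓝 (0 : ℂ) := by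
    have h1 : h '' (ball 0 t) ∈ 𝓝 (h 0) := by
      rw [← hmap]
      exact Filter.image_mem_map (ball_mem_nhds _ ht0)
    rwa [hh0] at h1
  obtain ⟨ρ, hρ, hρb⟩ := Metric.mem_nhds_iff.mp himg
  refine ⟨ρ, hρ, fun z hz k hk hkz => ?_⟩
  obtain ⟨w, hw, rfl⟩ := hρb hz
  have hpow : ∀ j : ℕ, lam ^ j * w ∈ ball (0 : ℂ) t := by
    intro j
    rw [mem_ball0] at hw ⊢
    rwa [norm_mul, norm_pow, hlam, one_pow, one_mul]
  have hit : ∀ j : ℕ, f^[j] (h w) = h (lam ^ j * w) := by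
    intro j
    induction j with
    | zero => simp
    | succ j ih =>
      rw [Function.iterate_succ_apply', ih, hc _ (ball_subset_ball (min_le_left _ _) (hpow j))]
      congr 1; ring
  rw [hit k] at hkz
  have h1 := hsinj (ball_subset_ball (min_le_right _ _) (hpow k))
    (ball_subset_ball (min_le_right _ _) hw) hkz
  have h2 : (lam ^ k - 1) * w = 0 := by linear_combination h1
  rcases mul_eq_zero.mp h2 with h3 | h3
  · exact absurd (by linear_combination h3) (hres k hk)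
  · rw [h3, hh0]

/-- uniform version -/
theorem dio_unif (d : ℕ) (hd : 2 ≤ d) : ∃ k : ℕ, ∀ P Q : Polynomial ℂ, IsCoprime P Q →
    max P.natDegree Q.natDegree = d → P.eval 0 = 0 → Q.eval 0 ≠ 0 →
    ∀ lam : ℂ, ‖lam‖ = 1 → (∀ q : ℕ, 1 ≤ q → lam ^ q ≠ 1) →
    deriv (fun w : ℂ => P.eval w / Q.eval w) 0 = lam → ∀ r : ℝ, 0 < r →
    DifferentiableOn ℂ (fun w : ℂ => P.eval w / Q.eval w) (ball 0 r) →
    (∀ z ∈ ball (0 : ℂ) r, ∀ k, 1 ≤ k →
      (∀ j < k, (fun w : ℂ => P.eval w / Q.eval w)^[j] z ∈ ball (0 : ℂ) r) →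
      (fun w : ℂ => P.eval w / Q.eval w)^[k] z = z → z = 0) →
    ∃ C : ℕ, ∀ q : ℕ, 1 ≤ q → Real.exp (-((C : ℝ) * (q : ℝ) ^ k)) ≤ ‖lam ^ q - 1‖ := by
  obtain ⟨k0, hk0⟩ := family_bound_unif d hd
  refine ⟨k0 + 2, ?_⟩
  intro P Q hPQ hdd hP0 hQ0 lam hlam hres hder r hr hdiff hnc
  set f : ℂ → ℂ := fun w : ℂ => P.eval w / Q.eval w with hf
  set a : ℂ := (Q.eval 0)⁻¹ with ha
  have ha0 : a ≠ 0 := inv_ne_zero hQ0
  have hCa : Polynomial.C a * Polynomial.C a⁻¹ = 1 := by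
    rw [← Polynomial.C_mul, mul_inv_cancel₀ ha0, Polynomial.C_1]
  have hQne : Q ≠ 0 := by rintro rfl; simp at hQ0
  obtain ⟨U, V, hUV, hUd, hVd⟩ := bezout_bound hPQ hQne
    (by rw [← hdd]; exact le_max_left _ _ : P.natDegree ≤ d)
    (by rw [← hdd]; exact le_max_right _ _ : Q.natDegree ≤ d)
  have hai : a⁻¹ ≠ 0 := inv_ne_zero ha0
  have hcop : (Polynomial.C a⁻¹ * U) * (Polynomial.C a * P)
      + (Polynomial.C a⁻¹ * V) * (Polynomial.C a * Q) = 1 := by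
    linear_combination (U * P + V * Q) * hCa + hUV
  have hfe : (fun w : ℂ => (Polynomial.C a * P).eval w / (Polynomial.C a * Q).eval w) = f := by
    funext w
    rw [Polynomial.eval_mul, Polynomial.eval_mul, Polynomial.eval_C, mul_div_mul_left _ _ ha0]
  obtain ⟨C, hCk⟩ := hk0 (Polynomial.C a * P) (Polynomial.C a * Q) (Polynomial.C a⁻¹ * U)
    (Polynomial.C a⁻¹ * V) hcop
    (by rw [Polynomial.natDegree_C_mul hai]; exact hUd)
    (by rw [Polynomial.natDegree_C_mul hai]; exact hVd)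
    (by rw [Polynomial.natDegree_C_mul ha0, Polynomial.natDegree_C_mul ha0]; exact hdd)
    (by rw [Polynomial.eval_mul, hP0, mul_zero])
    (by rw [Polynomial.eval_mul, Polynomial.eval_C, ha, inv_mul_cancel₀ hQ0])
  rw [hfe] at hCk
  have hf0 : f 0 = 0 := by rw [hf]; simp [hP0]
  obtain ⟨c, hc0, hc1, hH⟩ := harnack_bound hlam hr hdiff hf0 hder hnc hres
  set C1 : ℕ := ⌈2 / c * (2 * d + 2)⌉₊ with hC1
  have hC1' : 2 / c * (2 * d + 2) ≤ C1 := Nat.le_ceil _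
  refine ⟨3 * C + 3 * C1 + 3, fun q hq => ?_⟩
  have hq1 : (1 : ℝ) ≤ q := by exact_mod_cast hq
  obtain ⟨j, hj, hjb⟩ := hCk q hq
  obtain ⟨b, hb0, hb3, hbj⟩ := hH q hq
  have h1 := hjb.trans (hbj j)
  -- bound of the scaling factor
  set X : ℝ := 2 * q / c with hX
  have hX1 : 1 ≤ X := by
    rw [hX, le_div_iff₀ hc0]; linarith
  have h2 : b / (c / (2 * q)) ^ j = b * X ^ j := by
    rw [hX, div_pow, div_pow]
    field_simp
  have h3 : X ^ j ≤ Real.exp (C1 * (q : ℝ) ^ 2) := by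
    have h4 : X ^ j ≤ X ^ (2 * d * q + 2) := pow_le_pow_right₀ hX1 hj.le
    have h5 : X ≤ Real.exp X := by linarith [Real.add_one_le_exp X]
    have h6 : X ^ (2 * d * q + 2) ≤ Real.exp (((2 * d * q + 2 : ℕ) : ℝ) * X) := by
      rw [Real.exp_nat_mul]
      exact pow_le_pow_left₀ (by linarith) h5 _
    refine h4.trans (h6.trans (Real.exp_le_exp.mpr ?_))
    have h7 : ((2 * d * q + 2 : ℕ) : ℝ) ≤ (2 * d + 2) * q := by
      push_cast; nlinarith
    calc ((2 * d * q + 2 : ℕ) : ℝ) * X ≤ ((2 * d + 2) * q) * X :=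
          mul_le_mul_of_nonneg_right h7 (by linarith)
      _ = (2 / c * (2 * d + 2)) * (q : ℝ) ^ 2 := by rw [hX]; field_simp
      _ ≤ C1 * (q : ℝ) ^ 2 := mul_le_mul_of_nonneg_right hC1' (by positivity)
  rw [h2] at h1
  have h8 : Real.exp (-((C : ℝ) * (q : ℝ) ^ k0)) ≤ b * Real.exp (C1 * (q : ℝ) ^ 2) :=
    h1.trans (mul_le_mul_of_nonneg_left h3 hb0.le)
  have h9 : Real.exp (-((C : ℝ) * (q : ℝ) ^ k0) - C1 * (q : ℝ) ^ 2) ≤ b := by
    rw [Real.exp_sub, div_le_iff₀ (Real.exp_pos _)]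
    exact h8
  have h10 : (Real.exp (-((C : ℝ) * (q : ℝ) ^ k0) - C1 * (q : ℝ) ^ 2)) ^ 3 ≤ b ^ 3 :=
    pow_le_pow_left₀ (Real.exp_pos _).le h9 3
  rw [← Real.exp_nat_mul, hb3] at h10
  have h11 : (9 : ℝ) ≤ Real.exp 3 := by
    have e1 : (2.7182818283 : ℝ) < Real.exp 1 := Real.exp_one_gt_d9
    have e2 : Real.exp 3 = (Real.exp 1) ^ 3 := by rw [← Real.exp_nat_mul]; norm_num
    rw [e2]
    calc (9 : ℝ) ≤ (2.7182818283 : ℝ) ^ 3 := by norm_num
      _ ≤ _ := pow_le_pow_left₀ (by norm_num) e1.le 3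
  have h12 : Real.exp (-(((3 * C + 3 * C1 + 3 : ℕ) : ℝ) * (q : ℝ) ^ (k0 + 2))) * 9
      ≤ 9 * ‖lam ^ q - 1‖ := by
    refine le_trans ?_ h10
    refine le_trans (mul_le_mul_of_nonneg_left h11 (Real.exp_pos _).le) ?_
    rw [← Real.exp_add]
    apply Real.exp_le_exp.mpr
    push_cast
    have hk1 : (q : ℝ) ^ k0 ≤ (q : ℝ) ^ (k0 + 2) := pow_le_pow_right₀ hq1 (by omega)
    have hk2 : (q : ℝ) ^ 2 ≤ (q : ℝ) ^ (k0 + 2) := pow_le_pow_right₀ hq1 (by omega)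
    have hk3 : (1 : ℝ) ≤ (q : ℝ) ^ (k0 + 2) := one_le_pow₀ hq1
    have hC0 : (0 : ℝ) ≤ C := Nat.cast_nonneg _
    have hC10 : (0 : ℝ) ≤ C1 := Nat.cast_nonneg _
    nlinarith [mul_le_mul_of_nonneg_left hk1 hC0, mul_le_mul_of_nonneg_left hk2 hC10]
  linarith


/-- The main statement: for every degree there is an exponent such that linearizable maps of that
degree satisfy the condition. -/
theorem lin_dio (d : ℕ) (hd : 2 ≤ d) : ∃ k : ℕ, ∀ P Q : Polynomial ℂ, IsCoprime P Q →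
    max P.natDegree Q.natDegree = d → P.eval 0 = 0 → Q.eval 0 ≠ 0 →
    ∀ lam : ℂ, ‖lam‖ = 1 → (∀ q : ℕ, 1 ≤ q → lam ^ q ≠ 1) →
    deriv (fun w : ℂ => P.eval w / Q.eval w) 0 = lam →
    (∃ (h : ℂ → ℂ) (r : ℝ), 0 < r ∧ AnalyticAt ℂ h 0 ∧ h 0 = 0 ∧ deriv h 0 ≠ 0 ∧
      ∀ z ∈ ball (0 : ℂ) r, P.eval (h z) / Q.eval (h z) = h (lam * z)) →
    ∃ C : ℝ, ∀ q : ℕ, 1 ≤ q → Real.log (1 / ‖lam ^ q - 1‖) ≤ C * (q : ℝ) ^ k := by
  obtain ⟨k, hk⟩ := dio_unif d hd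
  refine ⟨k, fun P Q hPQ hdd hP0 hQ0 lam hlam hres hder hlin => ?_⟩
  obtain ⟨h, r, hr, hh, hh0, hh1, hc⟩ := hlin
  obtain ⟨ρ, hρ, hnc⟩ := nocyc_of_lin (f := fun w : ℂ => P.eval w / Q.eval w) hlam hres hh hh0 hh1
    hr hc
  have hQc : ContinuousAt (fun w : ℂ => Q.eval w) 0 := Q.continuous.continuousAt
  obtain ⟨s, hs, hsb⟩ := Metric.eventually_nhds_iff_ball.mp (hQc.eventually_ne hQ0)
  have hdiff : DifferentiableOn ℂ (fun w : ℂ => P.eval w / Q.eval w) (ball 0 (min ρ s)) := by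
    refine DifferentiableOn.div P.differentiable.differentiableOn
      Q.differentiable.differentiableOn ?_
    intro z hz
    exact hsb z (ball_subset_ball (min_le_right _ _) hz)
  obtain ⟨C, hC⟩ := hk P Q hPQ hdd hP0 hQ0 lam hlam hres hder (min ρ s) (lt_min hρ hs) hdiff
    (fun z hz k hk _ hkz => hnc z (ball_subset_ball (min_le_left _ _) hz) k hk hkz)
  refine ⟨C, fun q hq => ?_⟩
  have h1 := hC q hq
  have h2 : 0 < ‖lam ^ q - 1‖ := lt_of_lt_of_le (Real.exp_pos _) h1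
  rw [one_div, Real.log_inv]
  have h3 := Real.log_le_log (Real.exp_pos _) h1
  rw [Real.log_exp] at h3
  linarith

end Pool.Agent.TH231
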