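import Mathlib

/-!
The Riesz mean of order one as an integral.
-/

set_option autoImplicit false

open MeasureTheory Set Filter Topology

namespace Pool.Agent.TH231.RieszInt

/-- the integral of a step function with one step -/
lemma step_integrable (a b U : ℝ) :
    IntervalIntegrable (fun v : ℝ => if a ≤ v then b else 0) volume 0 U := by
  have h : (fun v : ℝ => if a ≤ v then b else 0) = (Set.Ici a).indicator (fun _ => b) := by
    funext v
    simp only [Set.indicator, Set.mem_Ici]
  rw [h]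
  rw [intervalIntegrable_iff]
  exact (integrableOn_const (by simp)).indicator measurableSet_Ici

lemma step_integral {a U : ℝ} (b : ℝ) (h0 : 0 ≤ a) (h1 : a ≤ U) :
    ∫ v in (0 : ℝ)..U, (if a ≤ v then b else 0) = (U - a) * b := by
  have hi1 : IntervalIntegrable (fun v : ℝ => if a ≤ v then b else 0) volume 0 a :=
    step_integrable a b a
  have hi2 : IntervalIntegrable (fun v : ℝ => if a ≤ v then b else 0) volume a U :=
    hi1.symm.trans (step_integrable a b U)
  rw [← intervalIntegral.integral_add_adjacent_intervals hi1 hi2]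
  have e1 : ∫ v in (0 : ℝ)..a, (if a ≤ v then b else 0) = ∫ v in (0 : ℝ)..a, (0 : ℝ) := by
    apply intervalIntegral.integral_congr_ae
    have hne : ∀ᵐ v : ℝ ∂volume, v ≠ a := by
      rw [ae_iff]
      simp
    filter_upwards [hne] with v hv hv2
    rw [Set.uIoc_of_le h0] at hv2
    have : ¬ a ≤ v := not_le.2 (lt_of_le_of_ne hv2.2 hv)
    rw [if_neg this]
  have e2 : ∫ v in a..U, (if a ≤ v then b else 0) = ∫ v in a..U, b := by
    apply intervalIntegral.integral_congr
    intro v hv
    rw [Set.uIcc_of_le h1] at hv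
    simp only
    rw [if_pos hv.1]
  rw [e1, e2, intervalIntegral.integral_zero, intervalIntegral.integral_const, smul_eq_mul,
    zero_add]

lemma sum_eq {G : ℕ → Prop} [DecidablePred G] (hG : ∀ p, G p → 1 ≤ p) (β : ℕ → ℝ) {U v : ℝ}
    (hv : v ≤ U) :
    ∑ p ∈ (Finset.range (⌊Real.exp v⌋₊ + 1)).filter G, β p =
      ∑ p ∈ (Finset.range (⌊Real.exp U⌋₊ + 1)).filter G, if Real.log p ≤ v then β p else 0 := by
  rw [← Finset.sum_filter]
  apply Finset.sum_congr _ fun _ _ => rfl
  ext p
  simp only [Finset.mem_filter, Finset.mem_range, Nat.lt_succ_iff]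
  constructor
  · rintro ⟨h1, h2⟩
    have hp : 0 < (p : ℝ) := by exact_mod_cast hG p h2
    have h3 : (p : ℝ) ≤ Real.exp v := (Nat.le_floor_iff (Real.exp_pos v).le).1 h1
    refine ⟨⟨(Nat.le_floor_iff (Real.exp_pos U).le).2 (h3.trans (Real.exp_le_exp.2 hv)), h2⟩, ?_⟩
    exact (Real.log_le_iff_le_exp hp).2 h3
  · rintro ⟨⟨h1, h2⟩, h3⟩
    have hp : 0 < (p : ℝ) := by exact_mod_cast hG p h2
    exact ⟨(Nat.le_floor_iff (Real.exp_pos v).le).2 ((Real.log_le_iff_le_exp hp).1 h3), h2⟩

/-- The Riesz mean of order one as an integral. -/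
theorem t_riesz_integral {G : ℕ → Prop} [DecidablePred G] (hG : ∀ p, G p → 1 ≤ p) (β : ℕ → ℝ)
    {U : ℝ} (hU : 0 < U) :
    IntervalIntegrable (fun v => ∑ p ∈ (Finset.range (⌊Real.exp v⌋₊ + 1)).filter G, β p) volume 0 U ∧
    ∑ p ∈ (Finset.range (⌊Real.exp U⌋₊ + 1)).filter G, (1 - Real.log p / U) * β p =
      (∫ v in (0 : ℝ)..U, ∑ p ∈ (Finset.range (⌊Real.exp v⌋₊ + 1)).filter G, β p) / U := by
  have hint : IntervalIntegrable (fun v : ℝ => ∑ p ∈ (Finset.range (⌊Real.exp U⌋₊ + 1)).filter G,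
      if Real.log p ≤ v then β p else 0) volume 0 U := by
    have h := IntervalIntegrable.sum (μ := volume) (a := 0) (b := U)
      ((Finset.range (⌊Real.exp U⌋₊ + 1)).filter G)
      (f := fun p v => if Real.log p ≤ v then β p else 0)
      (fun p _ => step_integrable (Real.log p) (β p) U)
    have e : (∑ p ∈ (Finset.range (⌊Real.exp U⌋₊ + 1)).filter G,
        fun v : ℝ => if Real.log p ≤ v then β p else 0) =
        fun v : ℝ => ∑ p ∈ (Finset.range (⌊Real.exp U⌋₊ + 1)).filter G,
          if Real.log p ≤ v then β p else 0 := by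
      funext v
      rw [Finset.sum_apply]
    rw [← e]
    exact h
  have hcongr : ∀ v ∈ Set.uIcc 0 U,
      (fun v : ℝ => ∑ p ∈ (Finset.range (⌊Real.exp U⌋₊ + 1)).filter G,
        if Real.log p ≤ v then β p else 0) v =
      (fun v : ℝ => ∑ p ∈ (Finset.range (⌊Real.exp v⌋₊ + 1)).filter G, β p) v := by
    intro v hv
    rw [Set.uIcc_of_le hU.le] at hv
    exact (sum_eq hG β hv.2).symm
  refine ⟨hint.congr fun v hv => hcongr v (Set.uIoc_subset_uIcc hv), ?_⟩
  rw [← intervalIntegral.integral_congr hcongr, intervalIntegral.integral_finsetSum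
    (fun (p : ℕ) _ => step_integrable (Real.log p) (β p) U), Finset.sum_div]
  refine Finset.sum_congr rfl fun p hp => ?_
  rw [Finset.mem_filter, Finset.mem_range, Nat.lt_succ_iff] at hp
  have hp1 : (1 : ℝ) ≤ (p : ℝ) := by exact_mod_cast hG p hp.2
  have hp2 : (p : ℝ) ≤ Real.exp U := (Nat.le_floor_iff (Real.exp_pos U).le).1 hp.1
  rw [step_integral (β p) (Real.log_nonneg hp1)
    ((Real.log_le_iff_le_exp (by linarith)).2 hp2)]
  field_simp

end Pool.Agent.TH231.RieszInt
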